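import Pool.Agent.HPY.CPT

/-! # HPY, row ART: totally positive elements are sums of squares -/

set_option autoImplicit false

namespace Pool.Agent.HPY

open Pool.Agent.PDF.ASaux

variable {F : Type} [Field F]

/-- ART -/
theorem art (h2 : (2 : F) ≠ 0) {a : F} (h : TPos a) : IsSumSq a := by
  by_cases h1 : IsSumSq (-1 : F)
  · have h3 : a = ((a + 1) / 2) * ((a + 1) / 2) + (-1) * (((a - 1) / 2) * ((a - 1) / 2)) := by
      field_simp
      ring
    rw [h3]
    exact (IsSumSq.mul_self _).add (h1.mul (IsSumSq.mul_self _))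
  · by_contra ha
    let B : RingPreordering F := RingPreordering.mk' {y : F | IsSumSq y}
      (fun h1 h2 => h1.add h2) (fun h1 h2 => h1.mul h2) (fun x => IsSumSq.mul_self x) h1
    have haB : a ∉ B := ha
    obtain ⟨LO, SO, hO⟩ := exists_order_ge (adj B a haB)
    have h3 : 0 ≤ -a := hO _ (neg_mem_adj B a haB)
    have h4 : 0 < a := h LO SO
    linarith

end Pool.Agent.HPY
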