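import Pool.Agent.HPY.ORD

/-! Project HPY (MP_862048_al), row LIP: polynomials over the valuation ring are bounded and
Lipschitz on bounded sets, uniformly in the ordering -/

set_option autoImplicit false

namespace Pool.Agent.HPY

section lip

variable {K F : Type} [Field K] [Field F] [Algebra K F] {O : ValuationSubring K}

/-- LIP -/
theorem lip (h : HP K O) {f : Polynomial K} (hf : OP O f) (m : ℕ) : ∃ n : ℕ,
    ∀ (_ : LinearOrder F) (_ : IsStrictOrderedRing F) (x y : F), |x| ≤ m → |y| ≤ m →
      |Polynomial.aeval x f| ≤ n ∧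
        |Polynomial.aeval x f - Polynomial.aeval y f| ≤ n * |x - y| := by
  induction' hd : f.natDegree with d ih generalizing f
  · rw [Polynomial.natDegree_eq_zero] at hd
    obtain ⟨c, rfl⟩ := hd
    have hc : c ∈ O := by
      have := hf 0
      rwa [Polynomial.coeff_C_zero] at this
    obtain ⟨n, hn⟩ := ord_bdd (F := F) h hc
    refine ⟨n, fun o1 o2 x y _ _ => ?_⟩
    rw [Polynomial.aeval_C, Polynomial.aeval_C, sub_self, abs_zero]
    exact ⟨hn o1 o2, mul_nonneg (Nat.cast_nonneg n) (abs_nonneg _)⟩
  · have hg : OP O f.divX := by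
      intro i
      rw [Polynomial.coeff_divX]
      exact hf _
    obtain ⟨n, hn⟩ := ih hg (by rw [Polynomial.natDegree_divX_eq_natDegree_tsub_one, hd]; rfl)
    obtain ⟨c, hc⟩ := ord_bdd (F := F) h (hf 0)
    refine ⟨(m + 1) * n + c, fun o1 o2 x y hx hy => ?_⟩
    obtain ⟨h1, h2⟩ := hn o1 o2 x y hx hy
    obtain ⟨h3, -⟩ := hn o1 o2 y x hy hx
    have h4 := hc o1 o2
    have e : ∀ z : F, Polynomial.aeval z f =
        z * Polynomial.aeval z f.divX + algebraMap K F (f.coeff 0) := by
      intro z
      conv_lhs => rw [← Polynomial.divX_mul_X_add f]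
      rw [map_add, map_mul, Polynomial.aeval_X, Polynomial.aeval_C, mul_comm]
    have hm : (0 : F) ≤ (m : F) := Nat.cast_nonneg m
    have hn0 : (0 : F) ≤ (n : F) := Nat.cast_nonneg n
    have hc0 : (0 : F) ≤ (c : F) := Nat.cast_nonneg c
    constructor
    · rw [e x]
      push_cast
      calc |x * Polynomial.aeval x f.divX + algebraMap K F (f.coeff 0)|
          ≤ |x * Polynomial.aeval x f.divX| + |algebraMap K F (f.coeff 0)| := abs_add_le _ _
        _ = |x| * |Polynomial.aeval x f.divX| + |algebraMap K F (f.coeff 0)| := by rw [abs_mul]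
        _ ≤ (m : F) * n + c := add_le_add (mul_le_mul hx h1 (abs_nonneg _) hm) h4
        _ ≤ ((m : F) + 1) * n + c := by nlinarith
    · rw [e x, e y]
      have e2 : x * Polynomial.aeval x f.divX + algebraMap K F (f.coeff 0) -
          (y * Polynomial.aeval y f.divX + algebraMap K F (f.coeff 0)) =
          x * (Polynomial.aeval x f.divX - Polynomial.aeval y f.divX) +
            (x - y) * Polynomial.aeval y f.divX := by ring
      rw [e2]
      push_cast
      have h5 : |x * (Polynomial.aeval x f.divX - Polynomial.aeval y f.divX)| ≤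
          (m : F) * (n * |x - y|) := by
        rw [abs_mul]
        exact mul_le_mul hx h2 (abs_nonneg _) hm
      have h6 : |(x - y) * Polynomial.aeval y f.divX| ≤ |x - y| * n := by
        rw [abs_mul]
        exact mul_le_mul_of_nonneg_left h3 (abs_nonneg _)
      calc _ ≤ |x * (Polynomial.aeval x f.divX - Polynomial.aeval y f.divX)| +
            |(x - y) * Polynomial.aeval y f.divX| := abs_add_le _ _
        _ ≤ (m : F) * (n * |x - y|) + |x - y| * n := add_le_add h5 h6
        _ ≤ (((m : F) + 1) * n + c) * |x - y| := by nlinarith [abs_nonneg (x - y)]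

end lip

end Pool.Agent.HPY
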