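import Pool.Agent.HPY.PRM
import Pool.Agent.HPY.LIP

/-! Project HPY, row SPC: specialisation of the algebraic relation between two functions. -/

set_option autoImplicit false

namespace Pool.Agent.HPY

open Filter

variable {K F : Type} [Field K] [Field F] [Algebra K F] {O : ValuationSubring K}

theorem spec_aux (P : Polynomial (Polynomial K)) (x y : F) (c : ℚ)
    (hP : Polynomial.eval₂ ((Polynomial.aeval y : Polynomial K →ₐ[K] F) : Polynomial K →+* F) x P
      = 0) :
    Polynomial.aeval x (P.map (Polynomial.evalRingHom (c : K))) =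
      ∑ i ∈ Finset.range (P.natDegree + 1),
        (Polynomial.aeval (c : F) (P.coeff i) - Polynomial.aeval y (P.coeff i)) * x ^ i := by
  rw [Polynomial.eval₂_eq_sum_range] at hP
  rw [Polynomial.aeval_def, Polynomial.eval₂_map, Polynomial.eval₂_eq_sum_range]
  simp only [sub_mul, Finset.sum_sub_distrib]
  simp only [RingHom.coe_coe] at hP
  rw [hP, sub_zero]
  apply Finset.sum_congr rfl
  intro i _
  congr 1
  simp only [RingHom.coe_comp, Function.comp_apply, Polynomial.coe_evalRingHom]
  rw [← map_ratCast (algebraMap K F) c, Polynomial.aeval_algebraMap_apply]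
  rfl

/-- SPC -/
theorem spec (h : HP K O) (hF : FF1 K F) (x y : F) : ∀ᶠ c : ℚ in cofinite,
    ∃ p : Polynomial K, Prim O p ∧ ∀ m : ℕ, ∃ n : ℕ,
      ∀ (_ : LinearOrder F) (_ : IsStrictOrderedRing F), |x| ≤ m → |y - c| ≤ 1 →
        |Polynomial.aeval x p| ≤ n * |y - c| := by
  obtain ⟨P, hO, hP, hc⟩ := prim2 h hF x y
  filter_upwards [hc] with c hc
  refine ⟨_, hc, fun m => ?_⟩
  obtain ⟨q, hq⟩ : ∃ q : ℕ, |c| + 1 ≤ (q : ℚ) := exists_nat_ge _
  choose N hN using fun i => lip (F := F) h (f := P.coeff i) (hO i) q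
  refine ⟨∑ i ∈ Finset.range (P.natDegree + 1), N i * m ^ i, ?_⟩
  intro lo so hx hy
  rw [spec_aux P x y c hP]
  have hq' : |(c : F)| + 1 ≤ (q : F) := by
    have : ((|c| + 1 : ℚ) : F) ≤ ((q : ℚ) : F) := by exact_mod_cast hq
    push_cast at this
    exact this
  have hcq : |(c : F)| ≤ q := by linarith
  have hyq : |y| ≤ q := by
    have : |y| ≤ |y - c| + |(c : F)| := by
      calc |y| = |(y - c) + c| := by rw [sub_add_cancel]
        _ ≤ _ := abs_add_le _ _
    linarith
  calc |∑ i ∈ Finset.range (P.natDegree + 1),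
        (Polynomial.aeval (c : F) (P.coeff i) - Polynomial.aeval y (P.coeff i)) * x ^ i|
      ≤ ∑ i ∈ Finset.range (P.natDegree + 1),
        |(Polynomial.aeval (c : F) (P.coeff i) - Polynomial.aeval y (P.coeff i)) * x ^ i| :=
        Finset.abs_sum_le_sum_abs _ _
    _ ≤ ∑ i ∈ Finset.range (P.natDegree + 1), ((N i * m ^ i : ℕ) : F) * |y - c| := by
        apply Finset.sum_le_sum
        intro i _
        rw [abs_mul, abs_pow]
        have h1 := (hN i lo so (c : F) y hcq hyq).2
        rw [abs_sub_comm (c : F) y] at h1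
        have h2 : |x| ^ i ≤ (m : F) ^ i := pow_le_pow_left₀ (abs_nonneg _) hx i
        calc |Polynomial.aeval (c : F) (P.coeff i) - Polynomial.aeval y (P.coeff i)| * |x| ^ i
            ≤ ((N i : F) * |y - c|) * (m : F) ^ i :=
              mul_le_mul h1 h2 (by positivity) (by positivity)
          _ = _ := by push_cast; ring
    _ = _ := by rw [← Finset.sum_mul]; push_cast; rfl

end Pool.Agent.HPY
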