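import Pool.Agent.HPY.Defs
import Pool.Agent.HPY.SPC

set_option autoImplicit false

namespace Pool.Agent.HPY

open Filter

section ord

variable {K F : Type} [Field K] [Field F] [Algebra K F] {O : ValuationSubring K}

/-- AV -/
theorem avoid (h : HP K O) (hF : FF1 K F) (x y : F) : ∀ᶠ c : ℚ in cofinite,
    ∀ᶠ d : ℚ in cofinite, ∃ n : ℕ,
    ∀ (_ : LinearOrder F) (_ : IsStrictOrderedRing F), 1 ≤ (n : F) * ((y - c) ^ 2 + (x - d) ^ 2) := by
  filter_upwards [spec h hF x y] with c hc
  obtain ⟨p, hp, hpm⟩ := hc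
  filter_upwards [prim_eval h hp] with d hd
  obtain ⟨n1, h1⟩ := ord_unit (F := F) h hd
  obtain ⟨m, hm⟩ := exists_nat_ge (|d| + 1)
  obtain ⟨n2, h2⟩ := hpm m
  obtain ⟨n3, h3⟩ := lip (F := F) h hp.1 m
  refine ⟨2 * (n1 * n2 + n1 * n3) ^ 2 + 1, ?_⟩
  intro ho hs
  have hdF : Polynomial.aeval (d : F) p = algebraMap K F (p.eval (d : K)) := by
    rw [← map_ratCast (algebraMap K F) d, Polynomial.aeval_algebraMap_apply,
      Polynomial.coe_aeval_eq_eval]
  have hmF : |(d : F)| + 1 ≤ m := by
    have h4 : ((|d| + 1 : ℚ) : F) ≤ ((m : ℚ) : F) := Rat.cast_le.2 hm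
    push_cast at h4
    exact h4
  have hsq1 := sq_nonneg (y - c)
  have hsq2 := sq_nonneg (x - d)
  have hN : (0 : F) ≤ 2 * ((n1 : F) * n2 + n1 * n3) ^ 2 := by positivity
  push_cast
  rcases le_or_gt |x - d| 1 with hx | hx
  · rcases le_or_gt |y - c| 1 with hy | hy
    · have hxm : |x| ≤ m := by
        have h5 : |x| ≤ |x - d| + |(d : F)| := by
          have := abs_add_le (x - d) (d : F)
          rwa [sub_add_cancel] at this
        linarith
      have hdm : |(d : F)| ≤ m := by linarith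
      have h6 := h2 ho hs hxm hy
      have h7 := (h3 ho hs x d hxm hdm).2
      have h8 := h1 ho hs
      rw [← hdF] at h8
      have h9 : |Polynomial.aeval (d : F) p| ≤ n2 * |y - c| + n3 * |x - d| := by
        have h10 := abs_sub_abs_le_abs_sub (Polynomial.aeval (d : F) p) (Polynomial.aeval x p)
        rw [abs_sub_comm] at h10
        linarith
      have hn1 : (0 : F) ≤ n1 := Nat.cast_nonneg _
      have h11 : 1 ≤ (n1 : F) * (n2 * |y - c| + n3 * |x - d|) :=
        h8.trans (mul_le_mul_of_nonneg_left h9 hn1)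
      set N : F := (n1 : F) * n2 + n1 * n3 with hNdef
      have hn2 : (0 : F) ≤ (n1 : F) * n2 := by positivity
      have hn3 : (0 : F) ≤ (n1 : F) * n3 := by positivity
      have ha := abs_nonneg (y - c)
      have hb := abs_nonneg (x - d)
      have h12 : 1 ≤ N * (|y - c| + |x - d|) := by
        have : (n1 : F) * (n2 * |y - c| + n3 * |x - d|) ≤ N * (|y - c| + |x - d|) := by
          have e : N * (|y - c| + |x - d|) - (n1 : F) * (n2 * |y - c| + n3 * |x - d|) =
              (n1 : F) * n3 * |y - c| + (n1 : F) * n2 * |x - d| := by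
            rw [hNdef]; ring
          have := mul_nonneg hn3 ha
          have := mul_nonneg hn2 hb
          linarith
        linarith
      have h13 : 1 ≤ (N * (|y - c| + |x - d|)) ^ 2 := one_le_pow₀ h12
      have h14 : (|y - c| + |x - d|) ^ 2 ≤ 2 * ((y - c) ^ 2 + (x - d) ^ 2) := by
        have e1 := sq_abs (y - (c : F))
        have e2 := sq_abs (x - (d : F))
        nlinarith [sq_nonneg (|y - (c : F)| - |x - (d : F)|)]
      have h15 : (N * (|y - c| + |x - d|)) ^ 2 ≤ N ^ 2 * (2 * ((y - c) ^ 2 + (x - d) ^ 2)) := by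
        rw [mul_pow]
        exact mul_le_mul_of_nonneg_left h14 (sq_nonneg N)
      nlinarith
    · have h5 : 1 ≤ (y - (c : F)) ^ 2 := by
        rw [← sq_abs]
        exact one_le_pow₀ hy.le
      nlinarith [mul_nonneg hN (add_nonneg hsq1 hsq2)]
  · have h5 : 1 ≤ (x - (d : F)) ^ 2 := by
      rw [← sq_abs]
      exact one_le_pow₀ hx.le
    nlinarith [mul_nonneg hN (add_nonneg hsq1 hsq2)]

end ord

end Pool.Agent.HPY
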