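import Pool.Agent.HPY.Defs

/-! Project HPY, row SG: the function `sg`, bounds and the trigonometric identity. -/

set_option autoImplicit false

namespace Pool.Agent.HPY

variable {F : Type} [Field F]

theorem sg_id_poly (τ σ b1 b2 c1 c2 : F) :
    4 * ((b1 * c2 - b2 * c1 + σ * (b1 * c1 + b2 * c2)) ^ 2 * (1 + τ ^ 2)) *
        (((1 + σ * τ) * c2 - (τ - σ) * c1) ^ 2 * (b1 ^ 2 + b2 ^ 2)) -
      ((b1 * c2 - b2 * c1 + σ * (b1 * c1 + b2 * c2)) ^ 2 * (1 + τ ^ 2) +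
        ((1 + σ * τ) * c2 - (τ - σ) * c1) ^ 2 * (b1 ^ 2 + b2 ^ 2) -
        (b2 - τ * b1) ^ 2 * ((1 + σ ^ 2) * (c1 ^ 2 + c2 ^ 2))) ^ 2 =
    4 * (b1 * c2 - b2 * c1 + σ * (b1 * c1 + b2 * c2)) ^ 2 *
      ((1 + σ * τ) * c2 - (τ - σ) * c1) ^ 2 * (b2 - τ * b1) ^ 2 := by
  ring

/-- SG -/
theorem sg_id {τ σ b1 b2 c1 c2 : F} (h1 : 1 + τ ^ 2 ≠ 0) (h2 : 1 + σ ^ 2 ≠ 0)
    (h3 : 1 + σ * τ ≠ 0) (hb : b1 ^ 2 + b2 ^ 2 ≠ 0) (hc : c1 ^ 2 + c2 ^ 2 ≠ 0) :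
    4 * sg (-σ) (b1 * c1 + b2 * c2) (b1 * c2 - b2 * c1) * sg ((τ - σ) / (1 + σ * τ)) c1 c2 -
      (sg (-σ) (b1 * c1 + b2 * c2) (b1 * c2 - b2 * c1) + sg ((τ - σ) / (1 + σ * τ)) c1 c2 -
        sg τ b1 b2) ^ 2 =
    4 * sg (-σ) (b1 * c1 + b2 * c2) (b1 * c2 - b2 * c1) * sg ((τ - σ) / (1 + σ * τ)) c1 c2 *
      sg τ b1 b2 := by
  have hD : (1 + σ ^ 2) * (1 + τ ^ 2) * (b1 ^ 2 + b2 ^ 2) * (c1 ^ 2 + c2 ^ 2) ≠ 0 := by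
    exact mul_ne_zero (mul_ne_zero (mul_ne_zero h2 h1) hb) hc
  have hW : sg (-σ) (b1 * c1 + b2 * c2) (b1 * c2 - b2 * c1) =
      (b1 * c2 - b2 * c1 + σ * (b1 * c1 + b2 * c2)) ^ 2 * (1 + τ ^ 2) /
        ((1 + σ ^ 2) * (1 + τ ^ 2) * (b1 ^ 2 + b2 ^ 2) * (c1 ^ 2 + c2 ^ 2)) := by
    have e1 : (b1 * c1 + b2 * c2) ^ 2 + (b1 * c2 - b2 * c1) ^ 2 =
        (b1 ^ 2 + b2 ^ 2) * (c1 ^ 2 + c2 ^ 2) := by ring
    unfold sg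
    rw [e1, div_eq_div_iff (by
      have : 1 + (-σ) ^ 2 = 1 + σ ^ 2 := by ring
      rw [this]
      exact mul_ne_zero h2 (mul_ne_zero hb hc)) hD]
    ring
  have hA : sg ((τ - σ) / (1 + σ * τ)) c1 c2 =
      ((1 + σ * τ) * c2 - (τ - σ) * c1) ^ 2 * (b1 ^ 2 + b2 ^ 2) /
        ((1 + σ ^ 2) * (1 + τ ^ 2) * (b1 ^ 2 + b2 ^ 2) * (c1 ^ 2 + c2 ^ 2)) := by
    have e1 : 1 + ((τ - σ) / (1 + σ * τ)) ^ 2 =
        ((1 + σ ^ 2) * (1 + τ ^ 2)) / (1 + σ * τ) ^ 2 := by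
      rw [eq_div_iff (pow_ne_zero 2 h3), div_pow, add_mul,
        div_mul_cancel₀ _ (pow_ne_zero 2 h3)]
      ring
    have e2 : c2 - (τ - σ) / (1 + σ * τ) * c1 =
        ((1 + σ * τ) * c2 - (τ - σ) * c1) / (1 + σ * τ) := by
      rw [eq_div_iff h3, sub_mul]
      have : (τ - σ) / (1 + σ * τ) * c1 * (1 + σ * τ) = (τ - σ) * c1 := by
        rw [mul_right_comm, div_mul_cancel₀ _ h3]
      rw [this]
      ring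
    unfold sg
    rw [e1, e2, div_pow, div_mul_eq_mul_div, div_div_div_cancel_right₀ (pow_ne_zero 2 h3),
      div_eq_div_iff (mul_ne_zero (mul_ne_zero h2 h1) hc) hD]
    ring
  have hB : sg τ b1 b2 =
      (b2 - τ * b1) ^ 2 * ((1 + σ ^ 2) * (c1 ^ 2 + c2 ^ 2)) /
        ((1 + σ ^ 2) * (1 + τ ^ 2) * (b1 ^ 2 + b2 ^ 2) * (c1 ^ 2 + c2 ^ 2)) := by
    unfold sg
    rw [div_eq_div_iff (mul_ne_zero h1 hb) hD]
    ring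
  rw [hW, hA, hB]
  set D := (1 + σ ^ 2) * (1 + τ ^ 2) * (b1 ^ 2 + b2 ^ 2) * (c1 ^ 2 + c2 ^ 2) with hDdef
  set w := b1 * c2 - b2 * c1 + σ * (b1 * c1 + b2 * c2) with hw
  set a := (1 + σ * τ) * c2 - (τ - σ) * c1 with ha
  set β := b2 - τ * b1 with hβ
  have key := sg_id_poly τ σ b1 b2 c1 c2
  rw [← hw, ← ha, ← hβ] at key
  have e : 4 * (w ^ 2 * (1 + τ ^ 2) / D) * (a ^ 2 * (b1 ^ 2 + b2 ^ 2) / D) -
      (w ^ 2 * (1 + τ ^ 2) / D + a ^ 2 * (b1 ^ 2 + b2 ^ 2) / D -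
        β ^ 2 * ((1 + σ ^ 2) * (c1 ^ 2 + c2 ^ 2)) / D) ^ 2 =
      (4 * (w ^ 2 * (1 + τ ^ 2)) * (a ^ 2 * (b1 ^ 2 + b2 ^ 2)) -
        (w ^ 2 * (1 + τ ^ 2) + a ^ 2 * (b1 ^ 2 + b2 ^ 2) -
          β ^ 2 * ((1 + σ ^ 2) * (c1 ^ 2 + c2 ^ 2))) ^ 2) / D ^ 2 := by
    field_simp
  rw [e, key]
  have e3 : 4 * (w ^ 2 * (1 + τ ^ 2) / D) * (a ^ 2 * (b1 ^ 2 + b2 ^ 2) / D) *
      (β ^ 2 * ((1 + σ ^ 2) * (c1 ^ 2 + c2 ^ 2)) / D) =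
      4 * w ^ 2 * a ^ 2 * β ^ 2 *
        ((1 + σ ^ 2) * (1 + τ ^ 2) * (b1 ^ 2 + b2 ^ 2) * (c1 ^ 2 + c2 ^ 2)) / (D ^ 2 * D) := by
    field_simp
  rw [e3, ← hDdef, mul_div_mul_right _ _ hD]

/-- SG -/
theorem sg_bdd (_ : LinearOrder F) (_ : IsStrictOrderedRing F) (τ x y : F) :
    0 ≤ sg τ x y ∧ sg τ x y ≤ 1 ∧ (sg τ x y = 0 → (x ≠ 0 ∨ y ≠ 0) → y = τ * x) := by
  refine ⟨by unfold sg; positivity, ?_, ?_⟩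
  · unfold sg
    apply div_le_one_of_le₀
    · nlinarith [sq_nonneg (x + τ * y)]
    · positivity
  · intro h hxy
    unfold sg at h
    have h1 : 0 < 1 + τ ^ 2 := by positivity
    have h2 : 0 < x ^ 2 + y ^ 2 := by
      rcases hxy with h | h
      · have : 0 < x ^ 2 := by positivity
        nlinarith [sq_nonneg y]
      · have : 0 < y ^ 2 := by positivity
        nlinarith [sq_nonneg x]
    rw [div_eq_zero_iff] at h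
    rcases h with h | h
    · have := pow_eq_zero_iff (two_ne_zero) |>.1 h
      linarith [this]
    · exfalso
      have := mul_pos h1 h2
      rw [h] at this
      exact lt_irrefl _ this

end Pool.Agent.HPY
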