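import Pool.Agent.HPY.Defs
import Pool.Agent.HPY.SG
import Pool.Agent.HPY.AV

/-! Project HPY, row AV2: the projective version of avoidance. -/

set_option autoImplicit false

namespace Pool.Agent.HPY

open Filter

variable {K F : Type} [Field K] [Field F] [Algebra K F] {O : ValuationSubring K}

/-- if `x = 0` then `sg` is a positive rational constant -/
theorem sg_zero_left (_ : LinearOrder F) (_ : IsStrictOrderedRing F) (τ : ℚ) {y : F} (hy : y ≠ 0)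
    {n : ℕ} (hn : 1 + τ ^ 2 ≤ n) : 1 ≤ (n : F) * sg (τ : F) 0 y := by
  have hy2 : (0 : F) < y ^ 2 := by positivity
  have hτ : (0 : F) < 1 + (τ : F) ^ 2 := by positivity
  have hn' : 1 + (τ : F) ^ 2 ≤ n := by exact_mod_cast hn
  have e : sg (τ : F) 0 y = 1 / (1 + (τ : F) ^ 2) := by
    unfold sg
    rw [div_eq_div_iff (by nlinarith [mul_pos hτ hy2]) hτ.ne']
    ring
  rw [e, mul_one_div, le_div_iff₀ hτ]
  linarith

/-- lower bound for `sg` in affine coordinates -/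
theorem sg_lower (_ : LinearOrder F) (_ : IsStrictOrderedRing F) (τ : ℚ) {x y : F} (hx : x ≠ 0)
    {n N : ℕ} (hu : 1 ≤ 2 * (n : F) * (y / x - τ) ^ 2)
    (hN : (1 + τ ^ 2) * (2 * n * (1 + 2 * τ ^ 2) + 2) ≤ N) : 1 ≤ (N : F) * sg (τ : F) x y := by
  have hx2 : (0 : F) < x ^ 2 := by positivity
  have hτ : (0 : F) < 1 + (τ : F) ^ 2 := by positivity
  have hN' : (1 + (τ : F) ^ 2) * (2 * n * (1 + 2 * (τ : F) ^ 2) + 2) ≤ N := by
    have := (Rat.cast_le (K := F)).2 hN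
    push_cast at this
    exact this
  set g := y / x with hg
  have hy : y = g * x := by rw [hg, div_mul_cancel₀ _ hx]
  have e : sg (τ : F) x y = (g - τ) ^ 2 / ((1 + (τ : F) ^ 2) * (1 + g ^ 2)) := by
    unfold sg
    rw [hy, div_eq_div_iff (by
      have : (0 : F) < x ^ 2 + (g * x) ^ 2 := by nlinarith [sq_nonneg (g * x)]
      exact (mul_pos hτ this).ne') (by positivity)]
    ring
  rw [e, mul_div_assoc', le_div_iff₀ (by positivity), one_mul]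
  have h1 : 1 + g ^ 2 ≤ (1 + 2 * (τ : F) ^ 2) + 2 * (g - τ) ^ 2 := by
    nlinarith [sq_nonneg (g - 2 * τ)]
  have h2 : 1 + 2 * (τ : F) ^ 2 ≤ (2 * n * (1 + 2 * (τ : F) ^ 2)) * (g - τ) ^ 2 := by
    have := mul_le_mul_of_nonneg_left hu (show (0 : F) ≤ 1 + 2 * (τ : F) ^ 2 by positivity)
    linarith
  have h3 : 1 + g ^ 2 ≤ (2 * n * (1 + 2 * (τ : F) ^ 2) + 2) * (g - τ) ^ 2 := by linarith
  calc (1 + (τ : F) ^ 2) * (1 + g ^ 2)
      ≤ (1 + (τ : F) ^ 2) * ((2 * n * (1 + 2 * (τ : F) ^ 2) + 2) * (g - τ) ^ 2) :=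
        mul_le_mul_of_nonneg_left h3 hτ.le
    _ = ((1 + (τ : F) ^ 2) * (2 * n * (1 + 2 * (τ : F) ^ 2) + 2)) * (g - τ) ^ 2 := by ring
    _ ≤ N * (g - τ) ^ 2 := mul_le_mul_of_nonneg_right hN' (sq_nonneg _)

/-- AV2 -/
theorem avoid2 (h : HP K O) (hF : FF1 K F) {b1 b2 c1 c2 : F} (hb : b1 ≠ 0 ∨ b2 ≠ 0)
    (hc : c1 ≠ 0 ∨ c2 ≠ 0) : ∀ᶠ τ : ℚ in cofinite, ∀ᶠ τ' : ℚ in cofinite, ∃ n : ℕ,
    ∀ (_ : LinearOrder F) (_ : IsStrictOrderedRing F),
      1 ≤ (n : F) * (sg (τ : F) b1 b2 + sg (τ' : F) c1 c2) := by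
  by_cases hb1 : b1 = 0
  · have hb2 : b2 ≠ 0 := by
      rcases hb with h | h
      · exact absurd hb1 h
      · exact h
    refine Eventually.of_forall fun τ => Eventually.of_forall fun τ' => ?_
    obtain ⟨n, hn⟩ := exists_nat_ge (1 + τ ^ 2)
    refine ⟨n, fun i1 i2 => ?_⟩
    have h1 := sg_zero_left i1 i2 τ hb2 hn
    have h2 := (sg_bdd i1 i2 (τ' : F) c1 c2).1
    have hn0 : (0 : F) ≤ n := Nat.cast_nonneg n
    rw [hb1]
    nlinarith [mul_nonneg hn0 h2]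
  by_cases hc1 : c1 = 0
  · have hc2 : c2 ≠ 0 := by
      rcases hc with h | h
      · exact absurd hc1 h
      · exact h
    refine Eventually.of_forall fun τ => Eventually.of_forall fun τ' => ?_
    obtain ⟨n, hn⟩ := exists_nat_ge (1 + τ' ^ 2)
    refine ⟨n, fun i1 i2 => ?_⟩
    have h1 := sg_zero_left i1 i2 τ' hc2 hn
    have h2 := (sg_bdd i1 i2 (τ : F) b1 b2).1
    have hn0 : (0 : F) ≤ n := Nat.cast_nonneg n
    rw [hc1]
    nlinarith [mul_nonneg hn0 h2]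
  filter_upwards [avoid h hF (c2 / c1) (b2 / b1)] with τ hτ
  filter_upwards [hτ] with τ' hτ'
  obtain ⟨n, hn⟩ := hτ'
  obtain ⟨N1, hN1⟩ := exists_nat_ge ((1 + τ ^ 2) * (2 * n * (1 + 2 * τ ^ 2) + 2))
  obtain ⟨N2, hN2⟩ := exists_nat_ge ((1 + τ' ^ 2) * (2 * n * (1 + 2 * τ' ^ 2) + 2))
  refine ⟨N1 + N2, fun i1 i2 => ?_⟩
  have hs1 := (sg_bdd i1 i2 (τ : F) b1 b2).1
  have hs2 := (sg_bdd i1 i2 (τ' : F) c1 c2).1
  have hn0 : (0 : F) ≤ N1 := Nat.cast_nonneg N1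
  have hn1 : (0 : F) ≤ N2 := Nat.cast_nonneg N2
  have key := hn i1 i2
  push_cast
  rcases le_total ((c2 / c1 - (τ' : F)) ^ 2) ((b2 / b1 - (τ : F)) ^ 2) with hle | hle
  · have hu : 1 ≤ 2 * (n : F) * (b2 / b1 - τ) ^ 2 := by
      have hn' : (0 : F) ≤ n := Nat.cast_nonneg n
      nlinarith [mul_le_mul_of_nonneg_left hle hn']
    have := sg_lower i1 i2 τ hb1 hu hN1
    nlinarith [mul_nonneg hn0 hs2, mul_nonneg hn1 hs1, mul_nonneg hn1 hs2]
  · have hu : 1 ≤ 2 * (n : F) * (c2 / c1 - τ') ^ 2 := by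
      have hn' : (0 : F) ≤ n := Nat.cast_nonneg n
      nlinarith [mul_le_mul_of_nonneg_left hle hn']
    have := sg_lower i1 i2 τ' hc1 hu hN2
    nlinarith [mul_nonneg hn0 hs2, mul_nonneg hn1 hs1, mul_nonneg hn0 hs1]

end Pool.Agent.HPY
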