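import Pool.Agent.HPY.Defs

/-! Project HPY, row HENS: the properties `HP` from the hypotheses on `O` and its residue field. -/

set_option autoImplicit false

namespace Pool.Agent.HPY

variable {K : Type} [Field K] {O : ValuationSubring K}

/-- `Itg` is integrality over the ring `O` -/
theorem itg_integral {x : AlgebraicClosure K} (hx : Itg O x) : IsIntegral O x := by
  obtain ⟨p, hp, hpO, hpx⟩ := hx
  have hl : p ∈ Polynomial.lifts (algebraMap O K) := by
    rw [Polynomial.lifts_iff_coeff_lifts]
    intro n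
    exact ⟨⟨p.coeff n, hpO n⟩, rfl⟩
  obtain ⟨q, hq, -, hqm⟩ := Polynomial.lifts_and_natDegree_eq_and_monic hl hp
  refine ⟨q, hqm, ?_⟩
  have h1 : Polynomial.aeval x (q.map (algebraMap O K)) = 0 := by rw [hq]; exact hpx
  rw [Polynomial.aeval_map_algebraMap] at h1
  exact h1

theorem minpoly_coeff {x : AlgebraicClosure K} (hx : Itg O x) (i : ℕ) :
    (minpoly K x).coeff i ∈ O := by
  have h1 := minpoly.isIntegrallyClosed_eq_field_fractions' K (itg_integral hx)
  rw [h1, Polynomial.coeff_map]
  exact ((minpoly O x).coeff i).2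

/-- `1 + 𝔪` consists of squares -/
theorem small_aux (h : ∀ x : AlgebraicClosure K, Itg O x ∨ Itg O x⁻¹)
    (h4 : (4 : K)⁻¹ ∈ O) (h40 : (4 : K) ≠ 0) {m : K} (hm : m ∈ O) (hm' : m⁻¹ ∉ O) :
    IsSquare (1 + m) := by
  have h20 : (2 : K) ≠ 0 := by
    intro h2
    apply h40
    have : (4 : K) = 2 * 2 := by norm_num
    rw [this, h2, zero_mul]
  have hm0 : m ≠ 0 := by
    rintro rfl
    exact hm' (by simp)
  set φ := algebraMap K (AlgebraicClosure K) with hφ
  obtain ⟨x, hx⟩ := IsAlgClosed.exists_eq_mul_self (φ (1 + m))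
  by_cases hxK : ∃ a : K, φ a = x
  · obtain ⟨a, ha⟩ := hxK
    refine ⟨a, ?_⟩
    apply φ.injective
    rw [map_mul, ha, ← hx]
  exfalso
  have hx1 : x ≠ 1 := by
    rintro rfl
    exact hxK ⟨1, map_one φ⟩
  have hx2 : x ≠ -1 := by
    rintro rfl
    exact hxK ⟨-1, by rw [map_neg, map_one]⟩
  have e1 : x - 1 ≠ 0 := sub_ne_zero.mpr hx1
  have e2 : x + 1 ≠ 0 := by
    intro h0
    exact hx2 (eq_neg_of_add_eq_zero_left h0)
  -- both `y = (x-1)/(x+1)` and its inverse are roots of `X² - (2 + 4/m) X + 1`
  set a : K := 2 + 4 / m with ha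
  have hφm : φ m = x * x - 1 := by
    rw [← hx, map_add, map_one]; ring
  have hφm0 : x * x - 1 ≠ 0 := by
    rw [← hφm]
    exact (map_ne_zero φ).mpr hm0
  have hφa : φ a = 2 + 4 / ((x - 1) * (x + 1)) := by
    have e3 : (x - 1) * (x + 1) = x * x - 1 := by ring
    rw [ha, map_add, map_div₀, hφm, map_ofNat, map_ofNat, e3]
  have hroot : ((x - 1) / (x + 1)) ^ 2 - φ a * ((x - 1) / (x + 1)) + 1 = 0 := by
    rw [hφa]; field_simp; ring
  have hroot' : (((x - 1) / (x + 1))⁻¹) ^ 2 - φ a * (((x - 1) / (x + 1))⁻¹) + 1 = 0 := by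
    rw [hφa]; field_simp; ring
  have hyK : ∀ b : K, φ b ≠ (x - 1) / (x + 1) := by
    intro b hb
    have hb1 : φ b * (x + 1) = x - 1 := by rw [hb]; field_simp
    have hb2 : x * φ (1 - b) = φ (1 + b) := by
      rw [map_sub, map_add, map_one]; linear_combination -hb1
    have hb3 : (1 - b) ≠ 0 := by
      intro h0
      rw [h0, map_zero, mul_zero] at hb2
      have h1 : (1 : K) + b = 0 := by
        have := hb2.symm
        rwa [map_eq_zero] at this
      have : (2 : K) = 0 := by linear_combination h0 + h1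
      exact h20 this
    apply hxK
    refine ⟨(1 + b) / (1 - b), ?_⟩
    rw [map_div₀, ← hb2]
    have : φ (1 - b) ≠ 0 := (map_ne_zero φ).mpr hb3
    field_simp
  -- the polynomial
  have key : ∀ y : AlgebraicClosure K, y ^ 2 - φ a * y + 1 = 0 → (∀ b : K, φ b ≠ y) → Itg O y →
      False := by
    intro y hy hyb hyI
    set q : Polynomial K := Polynomial.X ^ 2 - Polynomial.C a * Polynomial.X + 1 with hq
    have hqd : q.natDegree = 2 := by rw [hq]; compute_degree!
    have hqm : q.Monic := by rw [hq]; monicity!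
    have hq0 : Polynomial.aeval y q = 0 := by
      rw [hq]; simp only [map_add, map_sub, map_mul, map_pow, Polynomial.aeval_X,
        Polynomial.aeval_C, map_one]; exact hy
    have hint : IsIntegral K y := ⟨q, hqm, hq0⟩
    have hdvd : minpoly K y ∣ q := minpoly.dvd K y hq0
    have hdeg : 2 ≤ (minpoly K y).natDegree := by
      have h1 : 0 < (minpoly K y).natDegree := minpoly.natDegree_pos hint
      by_contra hcon
      have h2 : (minpoly K y).natDegree = 1 := by omega
      have h3 : (minpoly K y).degree = 1 := by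
        rw [Polynomial.degree_eq_natDegree (minpoly.ne_zero hint), h2]; rfl
      obtain ⟨b, hb⟩ := minpoly.mem_range_of_degree_eq_one K y h3
      exact hyb b hb
    have heq : minpoly K y = q :=
      (Polynomial.eq_of_monic_of_dvd_of_natDegree_le (minpoly.monic hint) hqm hdvd
        (by omega)).symm
    have hc := minpoly_coeff hyI 1
    rw [heq] at hc
    have hc1 : q.coeff 1 = -a := by
      rw [hq]; simp [Polynomial.coeff_one]
    rw [hc1] at hc
    have ha' : a ∈ O := by simpa using O.neg_mem _ hc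
    apply hm'
    have h2 : (2 : K) ∈ O := by
      have := O.add_mem _ _ O.one_mem O.one_mem
      rwa [one_add_one_eq_two] at this
    have h3 : m⁻¹ = (a - 2) * 4⁻¹ := by rw [ha]; field_simp; ring
    rw [h3]
    exact O.mul_mem _ _ (O.sub_mem ha' h2) h4
  rcases h ((x - 1) / (x + 1)) with h1 | h1
  · exact key _ hroot hyK h1
  · apply key _ hroot' _ h1
    intro b hb
    apply hyK b⁻¹
    rw [map_inv₀, hb, inv_inv]

/-- the natural numbers are nonzero in the residue field -/
theorem res_nat (real : ¬ IsSumSq (-1 : IsLocalRing.ResidueField O)) (n : ℕ) (hn : n ≠ 0) :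
    (n : IsLocalRing.ResidueField O) ≠ 0 := by
  intro h0
  obtain ⟨m, rfl⟩ := Nat.exists_eq_succ_of_ne_zero hn
  apply real
  have : (-1 : IsLocalRing.ResidueField O) = (m : IsLocalRing.ResidueField O) := by
    push_cast at h0
    linear_combination -h0
  rw [this]
  exact IsSumSq.natCast m

theorem unit_of_res {x : O} (hx : IsLocalRing.residue O x ≠ 0) : (x : K) ≠ 0 ∧ (x : K)⁻¹ ∈ O := by
  have hu : IsUnit x := by
    by_contra h
    apply hx
    rw [IsLocalRing.residue_eq_zero_iff]
    exact (IsLocalRing.mem_maximalIdeal x).mpr h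
  obtain ⟨u, hu⟩ := hu
  have h1 : (x : K) * ((u⁻¹ : Oˣ) : O) = 1 := by
    rw [← hu]
    have := u.mul_inv
    exact_mod_cast congrArg (Subtype.val) this
  have hx0 : (x : K) ≠ 0 := by
    intro h0
    rw [h0, zero_mul] at h1
    exact zero_ne_one h1
  refine ⟨hx0, ?_⟩
  have : (x : K)⁻¹ = ((u⁻¹ : Oˣ) : O) := by
    field_simp
    exact h1.symm
  rw [this]
  exact SetLike.coe_mem _

theorem small_of_res {x : O} (hx : IsLocalRing.residue O x = 0) : (x : K) = 0 ∨ (x : K)⁻¹ ∉ O := by
  by_contra hcon
  push Not at hcon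
  obtain ⟨h0, h1⟩ := hcon
  rw [IsLocalRing.residue_eq_zero_iff, IsLocalRing.mem_maximalIdeal] at hx
  apply hx
  refine IsUnit.of_mul_eq_one (⟨(x : K)⁻¹, h1⟩ : O) ?_
  apply Subtype.ext
  simp [h0]

/-- HENS -/
theorem hens (h : ∀ x : AlgebraicClosure K, Itg O x ∨ Itg O x⁻¹)
    (real : ¬ IsSumSq (-1 : IsLocalRing.ResidueField O))
    (arch : ∀ x : IsLocalRing.ResidueField O, ∃ n : ℕ,
      IsSquare ((n : IsLocalRing.ResidueField O) - x))
    (her : ∀ (L : Type) [Field L] [Algebra (IsLocalRing.ResidueField O) L]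
      [FiniteDimensional (IsLocalRing.ResidueField O) L],
      IsSquare (-1 : L) ∨ ∀ x : L, IsSquare x ∨ IsSquare (-x)) : HP K O := by
  have hnat : ∀ n : ℕ, n ≠ 0 → (n : K) ≠ 0 ∧ (n : K)⁻¹ ∈ O := by
    intro n hn
    have h1 := res_nat real n hn
    have h2 : IsLocalRing.residue O (n : O) ≠ 0 := by rwa [map_natCast]
    have := unit_of_res h2
    simpa using this
  have small : ∀ m : K, m ∈ O → m⁻¹ ∉ O → IsSquare (1 + m) := by
    intro m hm hm'
    have h4 := hnat 4 (by norm_num)
    exact small_aux h (by exact_mod_cast h4.2) (by exact_mod_cast h4.1) hm hm'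
  -- lifting of squares
  have liftsq : ∀ (x : O) (r : IsLocalRing.ResidueField O), r ≠ 0 →
      IsLocalRing.residue O x = r * r → IsSquare (x : K) := by
    intro x r hr hxr
    obtain ⟨s, rfl⟩ := IsLocalRing.residue_surjective r
    obtain ⟨hs0, hsi⟩ := unit_of_res hr
    set si : O := ⟨(s : K)⁻¹, hsi⟩ with hsid
    have hssi : s * si = 1 := by
      apply Subtype.ext
      simp [hsid, hs0]
    have hres : IsLocalRing.residue O (x * si * si - 1) = 0 := by
      have h1 : IsLocalRing.residue O s * IsLocalRing.residue O si = 1 := by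
        rw [← map_mul, hssi, map_one]
      rw [map_sub, map_mul, map_mul, hxr, map_one]
      linear_combination (IsLocalRing.residue O s * IsLocalRing.residue O si + 1) * h1
    have hsq : IsSquare (1 + ((x * si * si - 1 : O) : K)) := by
      rcases small_of_res hres with h1 | h1
      · rw [h1, add_zero]; exact IsSquare.one
      · exact small _ (SetLike.coe_mem _) h1
    obtain ⟨t, ht⟩ := hsq
    refine ⟨s * t, ?_⟩
    have h2 : ((x * si * si - 1 : O) : K) = (x : K) * (s : K)⁻¹ * (s : K)⁻¹ - 1 := by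
      simp [hsid]
    rw [h2] at ht
    have h3 : (x : K) * (s : K)⁻¹ * (s : K)⁻¹ = t * t := by linear_combination ht
    have h4 : (x : K) = (x : K) * (s : K)⁻¹ * (s : K)⁻¹ * (s * s) := by field_simp
    rw [h4, h3]; ring
  have hno : ¬ IsSquare (-1 : IsLocalRing.ResidueField O) := fun hs => real hs.isSumSq
  have hk : ∀ x : IsLocalRing.ResidueField O, IsSquare x ∨ IsSquare (-x) := by
    rcases her (IsLocalRing.ResidueField O) with h1 | h1
    · exact absurd h1 hno
    · exact h1
  refine ⟨fun n hn => (hnat n hn).1, fun n hn => (hnat n hn).2, ?_, small, ?_, h, real, her⟩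
  · intro x hx
    obtain ⟨n, s, hs⟩ := arch (IsLocalRing.residue O ⟨x, hx⟩)
    have hsq : IsSquare (s * s + 1) := by
      rcases hk (s * s + 1) with h1 | ⟨t, ht⟩
      · exact h1
      · exfalso
        apply real
        have : (-1 : IsLocalRing.ResidueField O) = s * s + t * t := by rw [← ht]; ring
        rw [this]
        exact (IsSumSq.mul_self s).add (IsSumSq.mul_self t)
    obtain ⟨r, hr⟩ := hsq
    have hr0 : r ≠ 0 := by
      rintro rfl
      apply hno
      exact ⟨s, by linear_combination -hr⟩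
    have h1 := liftsq (((n + 1 : ℕ) : O) - ⟨x, hx⟩) r hr0 (by
      rw [map_sub, map_natCast, ← hr, ← hs]; push_cast; ring)
    refine ⟨n + 1, ?_⟩
    simpa using h1
  · intro n
    rcases Nat.eq_zero_or_pos n with rfl | hn
    · simp
    have hsq : IsSquare (n : IsLocalRing.ResidueField O) := by
      rcases hk (n : IsLocalRing.ResidueField O) with h1 | ⟨t, ht⟩
      · exact h1
      · exfalso
        apply real
        obtain ⟨m, rfl⟩ := Nat.exists_eq_succ_of_ne_zero hn.ne'
        have : (-1 : IsLocalRing.ResidueField O) = (m : IsLocalRing.ResidueField O) + t * t := by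
          rw [← ht]; push_cast; ring
        rw [this]
        exact (IsSumSq.natCast m).add (IsSumSq.mul_self t)
    obtain ⟨r, hr⟩ := hsq
    have hr0 : r ≠ 0 := by
      rintro rfl
      exact res_nat real n hn.ne' (by rw [hr, zero_mul])
    have h1 := liftsq (n : O) r hr0 (by rw [map_natCast, hr])
    simpa using h1

end Pool.Agent.HPY
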