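import Mathlib

/-! Row INEQ of project HPY (MP_862048_al). -/

set_option autoImplicit false

namespace Pool.Agent.HPY

/-- INEQ -/
theorem third_bdd (n : ℕ) : ∃ k : ℕ, ∀ (F : Type) [Field F] [LinearOrder F]
    [IsStrictOrderedRing F] (W A B : F), 0 < W → W ≤ 1 → 0 < A → A ≤ 1 → 0 < B → B ≤ 1 →
    4 * W * A - (W + A - B) ^ 2 = 4 * W * A * B → 1 ≤ (n : F) * (A + B) →
    1 ≤ (k : F) * (W + A) ∧ 1 ≤ (k : F) * (W + B) := by
  refine ⟨3 * n, ?_⟩
  intro F _ _ _ W A B hW _ hA _ hB _ hid hn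
  have hn0 : (0 : F) ≤ n := Nat.cast_nonneg n
  have hWAB : 0 < W * A * B := by positivity
  have hB2 : B ≤ 2 * (W + A) := by
    by_contra hc
    push Not at hc
    nlinarith [sq_nonneg (W - A), mul_pos hW hA]
  have hA2 : A ≤ 2 * (W + B) := by
    by_contra hc
    push Not at hc
    nlinarith [sq_nonneg (W - B), mul_pos hW hB]
  push_cast
  constructor
  · nlinarith [mul_le_mul_of_nonneg_left hB2 hn0, mul_nonneg hn0 hW.le]
  · nlinarith [mul_le_mul_of_nonneg_left hA2 hn0, mul_nonneg hn0 hW.le]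

/-- INEQ -/
theorem ineq (n : ℕ) : ∃ k : ℕ, ∀ (F : Type) [Field F] [LinearOrder F] [IsStrictOrderedRing F]
    (W A B r1 r2 : F), 0 < W → W ≤ 1 → 0 < A → A ≤ 1 → 0 < B → B ≤ 1 →
    4 * W * A - (W + A - B) ^ 2 = 4 * W * A * B → 1 ≤ (n : F) * (A + B) →
    (k : F) * (r1 - 1) ^ 2 ≤ B → (k : F) * (r1 - 1) ^ 2 ≤ W →
    (k : F) * (r2 - 1) ^ 2 ≤ A → (k : F) * (r2 - 1) ^ 2 ≤ W →
    0 < 4 * W * (r1 * A) - (W + r1 * A - r2 * B) ^ 2 := by
  obtain ⟨k0, hk0⟩ := third_bdd n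
  refine ⟨128 * k0, ?_⟩
  intro F _ _ _ W A B r1 r2 hW hW1 hA hA1 hB hB1 hid hn h1 h2 h3 h4
  obtain ⟨hWA, hWB⟩ := hk0 F W A B hW hW1 hA hA1 hB hB1 hid hn
  have hk : (0 : F) ≤ k0 := Nat.cast_nonneg k0
  obtain ⟨a, rfl⟩ : ∃ a, r1 = 1 + a := ⟨r1 - 1, by ring⟩
  obtain ⟨b, rfl⟩ : ∃ b, r2 = 1 + b := ⟨r2 - 1, by ring⟩
  push_cast at h1 h2 h3 h4
  have e1 : (1 + a - 1) ^ 2 = a ^ 2 := by ring
  have e2 : (1 + b - 1) ^ 2 = b ^ 2 := by ring
  rw [e1] at h1 h2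
  rw [e2] at h3 h4
  have hWAB : 0 < W * A * B := by positivity
  -- small a, b
  have ha : 64 * a ^ 2 ≤ W * B := by
    have q1 : 128 * (k0 : F) * a ^ 2 * W ≤ B * W := mul_le_mul_of_nonneg_right h1 hW.le
    have q2 : 128 * (k0 : F) * a ^ 2 * B ≤ W * B := mul_le_mul_of_nonneg_right h2 hB.le
    have q3 : a ^ 2 * 1 ≤ a ^ 2 * ((k0 : F) * (W + B)) :=
      mul_le_mul_of_nonneg_left hWB (sq_nonneg a)
    nlinarith [q1, q2, q3]
  have hb : 64 * b ^ 2 ≤ W * A := by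
    have q1 : 128 * (k0 : F) * b ^ 2 * W ≤ A * W := mul_le_mul_of_nonneg_right h3 hW.le
    have q2 : 128 * (k0 : F) * b ^ 2 * A ≤ W * A := mul_le_mul_of_nonneg_right h4 hA.le
    have q3 : b ^ 2 * 1 ≤ b ^ 2 * ((k0 : F) * (W + A)) :=
      mul_le_mul_of_nonneg_left hWA (sq_nonneg b)
    nlinarith [q1, q2, q3]
  have hu : (W - A + B) ^ 2 ≤ 4 * W * B := by nlinarith
  have hv : (W + A - B) ^ 2 ≤ 4 * W * A := by nlinarith
  have t1 : |2 * a * A * (W - A + B)| ≤ W * A * B / 2 := by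
    apply abs_le_of_sq_le_sq _ (by positivity)
    have p1 : a ^ 2 * (W - A + B) ^ 2 ≤ (W * B / 64) * (4 * W * B) :=
      mul_le_mul (by linarith) hu (sq_nonneg _) (by positivity)
    have p2 := mul_le_mul_of_nonneg_left p1 (by positivity : (0 : F) ≤ 4 * A ^ 2)
    calc (2 * a * A * (W - A + B)) ^ 2 = 4 * A ^ 2 * (a ^ 2 * (W - A + B) ^ 2) := by ring
      _ ≤ 4 * A ^ 2 * ((W * B / 64) * (4 * W * B)) := p2
      _ = (W * A * B / 2) ^ 2 := by ring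
  have t2 : |2 * b * B * (W + A - B)| ≤ W * A * B / 2 := by
    apply abs_le_of_sq_le_sq _ (by positivity)
    have p1 : b ^ 2 * (W + A - B) ^ 2 ≤ (W * A / 64) * (4 * W * A) :=
      mul_le_mul (by linarith) hv (sq_nonneg _) (by positivity)
    have p2 := mul_le_mul_of_nonneg_left p1 (by positivity : (0 : F) ≤ 4 * B ^ 2)
    calc (2 * b * B * (W + A - B)) ^ 2 = 4 * B ^ 2 * (b ^ 2 * (W + A - B) ^ 2) := by ring
      _ ≤ 4 * B ^ 2 * ((W * A / 64) * (4 * W * A)) := p2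
      _ = (W * A * B / 2) ^ 2 := by ring
  have t3 : (a * A - b * B) ^ 2 ≤ W * A * B := by
    have r1 : a ^ 2 * A ^ 2 ≤ W * A * B / 64 := by
      have : a ^ 2 * A ^ 2 ≤ (W * B / 64) * A ^ 2 :=
        mul_le_mul_of_nonneg_right (by linarith) (sq_nonneg A)
      have h5 : A ^ 2 ≤ A := by nlinarith
      have h6 : (W * B / 64) * A ^ 2 ≤ (W * B / 64) * A :=
        mul_le_mul_of_nonneg_left h5 (by positivity)
      linarith
    have r2 : b ^ 2 * B ^ 2 ≤ W * A * B / 64 := by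
      have : b ^ 2 * B ^ 2 ≤ (W * A / 64) * B ^ 2 :=
        mul_le_mul_of_nonneg_right (by linarith) (sq_nonneg B)
      have h5 : B ^ 2 ≤ B := by nlinarith
      have h6 : (W * A / 64) * B ^ 2 ≤ (W * A / 64) * B :=
        mul_le_mul_of_nonneg_left h5 (by positivity)
      linarith
    nlinarith [sq_nonneg (a * A + b * B)]
  have key : 4 * W * ((1 + a) * A) - (W + (1 + a) * A - (1 + b) * B) ^ 2 =
      4 * W * A * B + 2 * a * A * (W - A + B) + 2 * b * B * (W + A - B) -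
        (a * A - b * B) ^ 2 := by
    linear_combination hid
  rw [key]
  have s1 := (abs_le.mp t1).1
  have s2 := (abs_le.mp t2).1
  nlinarith

end Pool.Agent.HPY
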