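import Pool.Agent.HPY.Defs
import Pool.Agent.PDF.AS

/-! # HPY, row CPT: compactness of the space of orderings -/

set_option autoImplicit false

namespace Pool.Agent.HPY

open Pool.Agent.PDF.ASaux

variable {F : Type} [Field F]

/-- a preordering is contained in the positive cone of an ordering -/
theorem exists_order_ge (P₀ : RingPreordering F) :
    ∃ (_ : LinearOrder F) (_ : IsStrictOrderedRing F), ∀ x ∈ P₀, 0 ≤ x := by
  obtain ⟨P, hP0, hmax⟩ := zorn_le_nonempty_Ici₀ P₀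
    (fun c _ hc2 y hy => chain_bdd c hc2 y hy) P₀ le_rfl
  have hP : ∀ x, x ∈ P ∨ -x ∈ P := by
    intro x
    by_cases hx : x ∈ P
    · exact Or.inl hx
    · right
      exact hmax (le_adj P x hx) (neg_mem_adj P x hx)
  obtain ⟨LO, SO, hO⟩ := exists_order P hP
  exact ⟨LO, SO, fun x hx => (hO x).2 (hP0 hx)⟩

/-- CPT -/
theorem cpt (s : ℕ → F) (h : ∀ N : ℕ, ∃ (_ : LinearOrder F) (_ : IsStrictOrderedRing F),
    ∀ i ≤ N, 0 ≤ s i) :
    ∃ (_ : LinearOrder F) (_ : IsStrictOrderedRing F), ∀ i, 0 ≤ s i := by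
  let T : RingPreordering F := RingPreordering.mk'
    {x | ∃ N : ℕ, ∀ (_ : LinearOrder F) (_ : IsStrictOrderedRing F), (∀ i ≤ N, 0 ≤ s i) → 0 ≤ x}
    (by
      rintro x y ⟨N, hx⟩ ⟨M, hy⟩
      refine ⟨max N M, fun LO SO hs => ?_⟩
      exact add_nonneg (hx LO SO fun i hi => hs i (hi.trans (le_max_left _ _)))
        (hy LO SO fun i hi => hs i (hi.trans (le_max_right _ _))))
    (by
      rintro x y ⟨N, hx⟩ ⟨M, hy⟩
      refine ⟨max N M, fun LO SO hs => ?_⟩
      exact mul_nonneg (hx LO SO fun i hi => hs i (hi.trans (le_max_left _ _)))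
        (hy LO SO fun i hi => hs i (hi.trans (le_max_right _ _))))
    (by
      intro x
      exact ⟨0, fun LO SO _ => mul_self_nonneg x⟩)
    (by
      rintro ⟨N, hN⟩
      obtain ⟨LO, SO, hs⟩ := h N
      have h1 : (0 : F) ≤ -1 := hN LO SO hs
      have h2 : (0 : F) < 1 := one_pos
      linarith)
  have hT : ∀ i, s i ∈ T := fun i => ⟨i, fun LO SO hs => hs i le_rfl⟩
  obtain ⟨LO, SO, hO⟩ := exists_order_ge T
  exact ⟨LO, SO, fun i => hO _ (hT i)⟩

end Pool.Agent.HPY
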