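import Pool.Agent.HPY.HLa

/-!
# MP_862048: the splitting of a primitive polynomial
-/

set_option autoImplicit false

namespace Pool.Agent.HPY.HL

open Polynomial IsLocalRing

section psi

variable {A B : Type*} [CommRing A] [IsLocalRing A] [CommRing B] [IsLocalRing B] [Algebra A B]

/-- extension of a real place to a complex place of an integral local extension -/
theorem exists_psi [Algebra.IsIntegral A B] [IsLocalHom (algebraMap A B)] (φ : A →+* ℝ)
    [IsLocalHom φ] : ∃ ψ : B →+* ℂ, IsLocalHom ψ ∧ ∀ a, ψ (algebraMap A B a) = (φ a : ℂ) := by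
  let φ' : ResidueField A →+* ℂ := Complex.ofRealHom.comp (ResidueField.lift φ)
  let _ : Algebra (ResidueField A) ℂ := φ'.toAlgebra
  have halg : Algebra.IsAlgebraic (ResidueField A) (ResidueField B) := by
    constructor
    intro x
    obtain ⟨b, rfl⟩ := residue_surjective x
    obtain ⟨f, hf, hfb⟩ := Algebra.IsIntegral.isIntegral (R := A) b
    refine ⟨f.map (residue A), (hf.map _).ne_zero, ?_⟩
    rw [aeval_def, eval₂_map]
    have h1 : (algebraMap (ResidueField A) (ResidueField B)).comp (residue A) =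
        (residue B).comp (algebraMap A B) := by
      ext a
      rfl
    rw [h1, ← hom_eval₂, hfb, map_zero]
  let L : ResidueField B →ₐ[ResidueField A] ℂ := IsAlgClosed.lift
  refine ⟨(L : ResidueField B →+* ℂ).comp (residue B), ⟨fun b hb => ?_⟩, fun a => ?_⟩
  · by_contra hn
    have h1 : residue B b = 0 := (residue_eq_zero_iff b).2 ((mem_maximalIdeal _).2 hn)
    rw [RingHom.comp_apply, h1, map_zero] at hb
    exact not_isUnit_zero hb
  · have h1 : residue B (algebraMap A B a) =
        algebraMap (ResidueField A) (ResidueField B) (residue A a) := rfl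
    rw [RingHom.comp_apply, h1]
    exact L.commutes _

variable {ψ : B →+* ℂ} {φ : A →+* ℝ}

theorem psi_aeval (hψ : ∀ a, ψ (algebraMap A B a) = (φ a : ℂ)) {y : B} {η : ℝ}
    (hy : ψ y = (η : ℂ)) (f : A[X]) : ψ (aeval y f) = ((eval₂ φ η f : ℝ) : ℂ) := by
  have h1 : (ψ.comp (algebraMap A B)) = Complex.ofRealHom.comp φ := by
    ext a
    exact hψ a
  rw [aeval_def, hom_eval₂, h1, hy]
  have h2 := hom_eval₂ f φ Complex.ofRealHom η
  exact h2.symm

theorem mem_of_psi [IsLocalHom ψ] {b : B} (h : ψ b = 0) : b ∈ maximalIdeal B := by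
  rw [mem_maximalIdeal]
  intro hu
  have h1 := hu.map ψ
  rw [h] at h1
  exact not_isUnit_zero h1

theorem psi_of_mem [IsLocalHom ψ] {b : B} (h : b ∈ maximalIdeal B) : ψ b = 0 := by
  by_contra hn
  exact ((mem_maximalIdeal _).1 h) (isUnit_of_map_unit ψ b (isUnit_iff_ne_zero.2 hn))

/-- A root whose image is real and positive is good. -/
theorem good_of_psi [IsLocalHom ψ] (hψ : ∀ a, ψ (algebraMap A B a) = (φ a : ℂ)) {y : B} {η : ℝ}
    (hη : 0 < η) (hy : ψ y = (η : ℂ)) : Good A y := by
  refine ⟨fun h => ?_, fun f g => ⟨fun h => ?_, fun h => ?_⟩⟩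
  · have h1 := psi_of_mem (ψ := ψ) h
    rw [hy] at h1
    exact hη.ne' (by exact_mod_cast h1)
  · have h1 := psi_of_mem (ψ := ψ) h
    rw [map_add, map_pow, map_pow, psi_aeval hψ hy, psi_aeval hψ hy] at h1
    have h2 : (eval₂ φ η f) ^ 2 + (eval₂ φ η g) ^ 2 = 0 := by exact_mod_cast h1
    apply mem_of_psi (ψ := ψ)
    rw [psi_aeval hψ hy]
    have h3 : (eval₂ φ η f) ^ 2 = 0 := by
      have := sq_nonneg (eval₂ φ η f)
      have := sq_nonneg (eval₂ φ η g)
      linarith
    rw [pow_eq_zero_iff two_ne_zero] at h3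
    rw [h3, Complex.ofReal_zero]
  · have h1 := psi_of_mem (ψ := ψ) h
    rw [map_add, map_mul, map_pow, map_pow, psi_aeval hψ hy, psi_aeval hψ hy, hy] at h1
    have h2 : (eval₂ φ η f) ^ 2 + η * (eval₂ φ η g) ^ 2 = 0 := by exact_mod_cast h1
    apply mem_of_psi (ψ := ψ)
    rw [psi_aeval hψ hy]
    have h3 : (eval₂ φ η f) ^ 2 = 0 := by
      have := sq_nonneg (eval₂ φ η f)
      have := mul_nonneg hη.le (sq_nonneg (eval₂ φ η g))
      linarith
    rw [pow_eq_zero_iff two_ne_zero] at h3
    rw [h3, Complex.ofReal_zero]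

end psi

section closure

variable {A K C : Type*} [CommRing A] [IsDomain A] [IsLocalRing A] [IsIntegrallyClosed A]
  [Field K] [Algebra A K] [IsFractionRing A K] [CharZero K] [Field C] [Algebra K C] [Algebra A C]
  [IsScalarTower A K C] [IsAlgClosure K C]

variable (A C) in
/-- the integral closure -/
abbrev BB : Type _ := integralClosure A C

theorem BB_cond (hH : ∀ x : C, IsIntegral A x ∨ IsIntegral A x⁻¹) (a b : BB A C) :
    ∃ c, a * c = b ∨ b * c = a := by
  by_cases ha : (a : C) = 0
  · refine ⟨0, Or.inr ?_⟩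
    apply Subtype.ext
    rw [mul_zero, ha]
    rfl
  by_cases hb : (b : C) = 0
  · refine ⟨0, Or.inl ?_⟩
    apply Subtype.ext
    rw [mul_zero, hb]
    rfl
  rcases hH ((b : C) / a) with h | h
  · refine ⟨⟨_, h⟩, Or.inl ?_⟩
    apply Subtype.ext
    change (a : C) * ((b : C) / (a : C)) = (b : C)
    field_simp
  · refine ⟨⟨_, h⟩, Or.inr ?_⟩
    apply Subtype.ext
    change (b : C) * ((b : C) / (a : C))⁻¹ = (a : C)
    field_simp

theorem BB_local (hH : ∀ x : C, IsIntegral A x ∨ IsIntegral A x⁻¹) : IsLocalRing (BB A C) := by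
  have : ValuationRing (BB A C) := { cond' := BB_cond hH }
  infer_instance

variable (A) in
/-- the restriction of an automorphism -/
noncomputable def sB (σ : C ≃ₐ[K] C) : BB A C ≃ₐ[A] BB A C :=
  (σ.restrictScalars A).mapIntegralClosure

omit [IsDomain A] [IsLocalRing A] [IsIntegrallyClosed A] [IsFractionRing A K] [CharZero K]
  [IsAlgClosure K C] in
theorem sB_coe (σ : C ≃ₐ[K] C) (b : BB A C) : ((sB A σ b : BB A C) : C) = σ b := rfl

omit [IsLocalRing A] in
/-- Galois descent of polynomials -/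
theorem descent (q : (BB A C)[X])
    (hq : ∀ σ : C ≃ₐ[K] C, q.map ((sB A σ : BB A C ≃ₐ[A] BB A C) : BB A C →+* BB A C) = q) :
    ∃ q0 : A[X], q0.map (algebraMap A (BB A C)) = q := by
  have h1 : q ∈ Polynomial.lifts (algebraMap A (BB A C)) := by
    rw [Polynomial.lifts_iff_coeff_lifts]
    intro n
    have h2 : ∀ σ : C ≃ₐ[K] C, σ (q.coeff n : C) = q.coeff n := by
      intro σ
      have h3 := congrArg (fun r => ((r.coeff n : BB A C) : C)) (hq σ)
      simp only [coeff_map] at h3
      exact h3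
    obtain ⟨k, hk⟩ := (InfiniteGalois.mem_range_algebraMap_iff_fixed (k := K) (K := C) _).2 h2
    have h4 : IsIntegral A k := by
      have h5 : IsIntegral A (algebraMap K C k) := by
        rw [hk]
        exact (q.coeff n).2
      exact (isIntegral_algebraMap_iff (algebraMap K C).injective).1 h5
    obtain ⟨a, ha⟩ := IsIntegrallyClosed.isIntegral_iff.1 h4
    refine ⟨a, ?_⟩
    apply Subtype.ext
    rw [← hk, ← ha, ← IsScalarTower.algebraMap_apply A K C]
    rfl
  exact (Polynomial.mem_lifts q).1 h1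


/-- `x` is in the maximal ideal of the integral closure -/
def NU (A : Type*) {C : Type*} [CommRing A] [Field C] [Algebra A C] (x : C) : Prop :=
  x = 0 ∨ ¬ IsIntegral A x⁻¹

theorem mem_of_NU [IsLocalRing (BB A C)] {b : BB A C} (h : NU A (b : C)) :
    b ∈ maximalIdeal (BB A C) := by
  rw [mem_maximalIdeal]
  rintro ⟨u, hu⟩
  have h1 : (b : C) * ((↑u⁻¹ : BB A C) : C) = 1 := by
    have h2 : b * ↑u⁻¹ = 1 := by rw [← hu, Units.mul_inv]
    exact congrArg (fun x : BB A C => (x : C)) h2
  rcases h with h | h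
  · rw [h, zero_mul] at h1
    exact zero_ne_one h1
  · apply h
    rw [← eq_inv_of_mul_eq_one_right h1]
    exact (↑u⁻¹ : BB A C).2

theorem exists_sqrt [IsAlgClosed C] (y : BB A C) : ∃ w : BB A C, w ^ 2 = y := by
  obtain ⟨w, hw⟩ := IsAlgClosed.exists_pow_nat_eq (y : C) two_pos
  have h1 : IsIntegral A w := by
    apply IsIntegral.of_pow two_pos
    rw [hw]
    exact y.2
  exact ⟨⟨w, h1⟩, Subtype.ext hw⟩

end closure

section lists

variable {R T : Type*} [CommRing R] [CommRing T]

theorem PP_perm {l l' : List R} (h : l.Perm l') : PP l = PP l' := (h.map _).prod_eq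

theorem PP_map (f : R →+* T) (l : List R) : (PP l).map f = PP (l.map f) := by
  induction l with
  | nil => simp [PP_nil]
  | cons a l ih => simp [PP_cons, ih]

theorem PP_root [IsDomain T] {f : R →+* T} {l : List R} {η : T} (h : eval₂ f η (PP l) = 0) :
    ∃ a ∈ l, f a ^ 2 = η := by
  induction l with
  | nil => simp [PP_nil] at h
  | cons a l ih =>
    rw [PP_cons, eval₂_mul, eval₂_sub, eval₂_X, eval₂_C, mul_eq_zero] at h
    rcases h with h | h
    · exact ⟨a, List.mem_cons_self, by rw [← map_pow]; exact (sub_eq_zero.1 h).symm⟩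
    · obtain ⟨b, hb, hb'⟩ := ih h
      exact ⟨b, List.mem_cons_of_mem _ hb, hb'⟩

theorem uniq' [IsDomain R] (l : List R) (Q Q' S S' : R[X]) (hd : Q.degree < l.length)
    (hd' : Q'.degree < l.length) (h : Q ^ 2 - X = PP l * S) (h' : Q' ^ 2 - X = PP l * S')
    (hs : ∀ a ∈ l, Q.eval (a ^ 2) + Q'.eval (a ^ 2) ≠ 0) : Q = Q' := by
  let f := algebraMap R (FractionRing R)
  have hf : Function.Injective f := IsFractionRing.injective R (FractionRing R)
  apply Polynomial.map_injective f hf
  refine uniq (l.map f) _ _ (S.map f) (S'.map f) ?_ ?_ ?_ ?_ ?_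
  · rw [List.length_map]
    exact degree_map_le.trans_lt hd
  · rw [List.length_map]
    exact degree_map_le.trans_lt hd'
  · rw [← PP_map, ← Polynomial.map_mul, ← h, Polynomial.map_sub, Polynomial.map_pow, map_X]
  · rw [← PP_map, ← Polynomial.map_mul, ← h', Polynomial.map_sub, Polynomial.map_pow, map_X]
  · intro a ha
    obtain ⟨b, hb, rfl⟩ := List.mem_map.1 ha
    rw [← map_pow, eval_map_apply, eval_map_apply, ← map_add]
    intro h0
    exact hs b hb (hf (by rw [h0, map_zero]))

end lists

section main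

variable {A K C : Type*} [CommRing A] [IsDomain A] [IsLocalRing A] [IsIntegrallyClosed A]
  [Field K] [Algebra A K] [IsFractionRing A K] [CharZero K] [Field C] [Algebra K C] [Algebra A C]
  [IsScalarTower A K C] [IsAlgClosure K C]

theorem roots_map_sB (p : A[X]) (σ : BB A C ≃ₐ[A] BB A C) :
    ((p.map (algebraMap A (BB A C))).roots).map σ = (p.map (algebraMap A (BB A C))).roots := by
  classical
  ext y
  obtain ⟨x, rfl⟩ := σ.surjective y
  rw [Multiset.count_map_eq_count' _ _ σ.injective, count_roots, count_roots,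
    eq_rootMultiplicity_map (f := (σ : BB A C →+* BB A C)) σ.injective]
  congr 1
  rw [Polynomial.map_map]
  congr 1
  ext a
  simp

end main

end Pool.Agent.HPY.HL
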