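import Pool.Agent.HPY.Defs
import Pool.Agent.HPY.HLb

/-!
# MP_862048: the residue field of the integral closure is hereditarily euclidean
-/

set_option autoImplicit false

namespace Pool.Agent.HPY

open Polynomial IsLocalRing

variable {K : Type} [Field K] {O : ValuationSubring K}

theorem isIntegral_iff_itg (x : AlgebraicClosure K) : IsIntegral O x ↔ Itg O x := by
  constructor
  · rintro ⟨f, hf, hfx⟩
    refine ⟨f.map (algebraMap O K), hf.map _, fun i => ?_, ?_⟩
    · rw [coeff_map]
      exact (f.coeff i).2
    · rw [aeval_map_algebraMap]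
      exact hfx
  · rintro ⟨p, hp, hpO, hpx⟩
    have hl : p ∈ Polynomial.lifts (algebraMap O K) := by
      rw [Polynomial.lifts_iff_coeff_lifts]
      intro n
      exact ⟨⟨p.coeff n, hpO n⟩, rfl⟩
    obtain ⟨q, hq, -, hqm⟩ := Polynomial.lifts_and_natDegree_eq_and_monic hl hp
    refine ⟨q, hqm, ?_⟩
    have h1 : Polynomial.aeval x (q.map (algebraMap O K)) = 0 := by rw [hq]; exact hpx
    rw [Polynomial.aeval_map_algebraMap] at h1
    exact h1

/-- the converse of `HL.mem_of_NU` -/
theorem NU_of_mem [IsLocalRing (HL.BB O (AlgebraicClosure K))] {b : HL.BB O (AlgebraicClosure K)}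
    (h : b ∈ maximalIdeal (HL.BB O (AlgebraicClosure K))) :
    HL.NU O (b : AlgebraicClosure K) := by
  by_cases hb : (b : AlgebraicClosure K) = 0
  · exact Or.inl hb
  refine Or.inr fun hi => ?_
  rw [mem_maximalIdeal] at h
  apply h
  refine IsUnit.of_mul_eq_one (⟨(b : AlgebraicClosure K)⁻¹, hi⟩ : HL.BB O (AlgebraicClosure K)) ?_
  apply Subtype.ext
  exact mul_inv_cancel₀ hb

theorem her_res (h : HP K O) (y : AlgebraicClosure K) (hy : IsIntegral O y) :
    ∃ f : (↥O)[X], HL.NU ↥O (aeval y f ^ 2 + 1) ∨ HL.NU ↥O (aeval y f ^ 2 + y) ∨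
      HL.NU ↥O (aeval y f ^ 2 - y) := by
  have hH : ∀ x : AlgebraicClosure K, IsIntegral O x ∨ IsIntegral O x⁻¹ := by
    intro x
    rw [isIntegral_iff_itg, isIntegral_iff_itg]
    exact h.hens x
  have hloc : IsLocalRing (HL.BB O (AlgebraicClosure K)) := HL.BB_local hH
  have hinj : Function.Injective (algebraMap O (HL.BB O (AlgebraicClosure K))) := by
    intro a b hab
    have h1 : algebraMap O (AlgebraicClosure K) a = algebraMap O (AlgebraicClosure K) b :=
      congrArg (fun x : HL.BB O (AlgebraicClosure K) => (x : AlgebraicClosure K)) hab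
    rw [IsScalarTower.algebraMap_apply O K (AlgebraicClosure K),
      IsScalarTower.algebraMap_apply O K (AlgebraicClosure K)] at h1
    exact Subtype.ext ((algebraMap K (AlgebraicClosure K)).injective h1)
  have hint : Algebra.IsIntegral O (HL.BB O (AlgebraicClosure K)) := inferInstance
  have hlh : IsLocalHom (algebraMap O (HL.BB O (AlgebraicClosure K))) :=
    (algebraMap_isIntegral_iff.mpr hint).isLocalHom hinj
  set k := ResidueField O with hk
  set kB := ResidueField (HL.BB O (AlgebraicClosure K)) with hkB
  let yb : HL.BB O (AlgebraicClosure K) := ⟨y, hy⟩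
  have hyb : (yb : AlgebraicClosure K) = y := rfl
  let η : kB := residue _ yb
  have hcomm : (algebraMap k kB).comp (residue O) =
      (residue (HL.BB O (AlgebraicClosure K))).comp (algebraMap O (HL.BB O (AlgebraicClosure K))) := by
    ext a
    rfl
  have hres : ∀ f : O[X], residue _ (aeval yb f) = aeval η (f.map (residue O)) := by
    intro f
    rw [aeval_def, hom_eval₂, ← hcomm, aeval_def, eval₂_map]
  have hηint : IsIntegral k η := by
    obtain ⟨f, hf, hfy⟩ := hint.isIntegral yb
    refine ⟨f.map (residue O), hf.map _, ?_⟩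
    have h1 := hres f
    have h2 : aeval yb f = 0 := hfy
    rw [h2, map_zero] at h1
    exact h1.symm
  have hfd : FiniteDimensional k (IntermediateField.adjoin k {η}) :=
    IntermediateField.adjoin.finiteDimensional hηint
  -- the elements of `k(η)` are values of polynomials over `O`
  have hel : ∀ r : IntermediateField.adjoin k {η}, ∃ f : O[X],
      residue _ (aeval yb f) = (r : kB) := by
    intro r
    have h1 : (r : kB) ∈ Algebra.adjoin k {η} := by
      have h2 := r.2
      rw [← IntermediateField.mem_toSubalgebra,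
        IntermediateField.adjoin_simple_toSubalgebra_of_isAlgebraic hηint.isAlgebraic] at h2
      exact h2
    rw [Algebra.adjoin_singleton_eq_range_aeval] at h1
    obtain ⟨g, hg⟩ := h1
    obtain ⟨f, hf⟩ := Polynomial.map_surjective (residue O) residue_surjective g
    refine ⟨f, ?_⟩
    rw [hres, hf]
    exact hg
  have hcoe : ∀ f : O[X], ((aeval yb f : HL.BB O (AlgebraicClosure K)) : AlgebraicClosure K) =
      aeval y f := by
    intro f
    rw [← Subalgebra.coe_val, ← aeval_algHom_apply]
    rfl
  rcases h.her (IntermediateField.adjoin k {η}) with ⟨r, hr⟩ | hsq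
  · obtain ⟨f, hf⟩ := hel r
    refine ⟨f, Or.inl ?_⟩
    have h1 : aeval yb f ^ 2 + 1 ∈ maximalIdeal (HL.BB O (AlgebraicClosure K)) := by
      rw [← residue_eq_zero_iff, map_add, map_pow, map_one, hf]
      have h2 : ((-1 : IntermediateField.adjoin k {η}) : kB) = (r : kB) * (r : kB) := by
        rw [hr]
        rfl
      have h3 : ((-1 : IntermediateField.adjoin k {η}) : kB) = -1 := rfl
      rw [pow_two, ← h2, h3]
      ring
    have h2 := NU_of_mem h1
    have h3 : ((aeval yb f ^ 2 + 1 : HL.BB O (AlgebraicClosure K)) : AlgebraicClosure K) =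
        aeval y f ^ 2 + 1 := by
      rw [← hcoe]
      rfl
    rw [h3] at h2
    exact h2
  · rcases hsq ⟨η, IntermediateField.mem_adjoin_simple_self k η⟩ with ⟨r, hr⟩ | ⟨r, hr⟩
    · obtain ⟨f, hf⟩ := hel r
      refine ⟨f, Or.inr (Or.inr ?_)⟩
      have h1 : aeval yb f ^ 2 - yb ∈ maximalIdeal (HL.BB O (AlgebraicClosure K)) := by
        rw [← residue_eq_zero_iff, map_sub, map_pow, hf]
        have h2 : η = (r : kB) * (r : kB) := congrArg Subtype.val hr
        change (r : kB) ^ 2 - η = 0
        exact sub_eq_zero.2 ((pow_two _).trans h2.symm)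
      have h2 := NU_of_mem h1
      have h3 : ((aeval yb f ^ 2 - yb : HL.BB O (AlgebraicClosure K)) : AlgebraicClosure K) =
          aeval y f ^ 2 - y := by
        rw [← hcoe]
        rfl
      rw [h3] at h2
      exact h2
    · obtain ⟨f, hf⟩ := hel r
      refine ⟨f, Or.inr (Or.inl ?_)⟩
      have h1 : aeval yb f ^ 2 + yb ∈ maximalIdeal (HL.BB O (AlgebraicClosure K)) := by
        rw [← residue_eq_zero_iff, map_add, map_pow, hf]
        have h2 : -η = (r : kB) * (r : kB) := congrArg Subtype.val hr
        change (r : kB) ^ 2 + η = 0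
        rw [pow_two, ← h2]
        exact neg_add_cancel η
      have h2 := NU_of_mem h1
      have h3 : ((aeval yb f ^ 2 + yb : HL.BB O (AlgebraicClosure K)) : AlgebraicClosure K) =
          aeval y f ^ 2 + y := by
        rw [← hcoe]
        rfl
      rw [h3] at h2
      exact h2

end Pool.Agent.HPY
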