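import Pool.Agent.HPY.Defs

/-!
# MP_862048: standard parts at an ordering
-/

set_option autoImplicit false

namespace Pool.Agent.HPY

open Polynomial ArchimedeanClass

section st

variable {F : Type} [Field F] [LinearOrder F] [IsStrictOrderedRing F]

theorem mk_nonneg_of_le {x : F} {n : ℕ} (h : |x| ≤ n) : 0 ≤ ArchimedeanClass.mk x := by
  rw [← ArchimedeanClass.mk_one (R := F), ArchimedeanClass.mk_le_mk]
  exact ⟨n, by simpa using h⟩

theorem st_zero_iff {x : F} (hx : 0 ≤ ArchimedeanClass.mk x) :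
    stdPart x = 0 ↔ ∀ n : ℕ, (n : F) * |x| ≤ 1 := by
  rw [stdPart_eq_zero]
  constructor
  · intro h n
    have h1 : 0 < ArchimedeanClass.mk x := lt_of_le_of_ne hx h.symm
    rw [← ArchimedeanClass.mk_one (R := F), ArchimedeanClass.mk_lt_mk] at h1
    have h2 := h1 n
    rw [abs_one, nsmul_eq_mul] at h2
    exact h2.le
  · intro h h0
    have h1 : ArchimedeanClass.mk x ≤ 0 := h0.le
    rw [← ArchimedeanClass.mk_one (R := F), ArchimedeanClass.mk_le_mk] at h1
    obtain ⟨n, hn⟩ := h1
    rw [abs_one, nsmul_eq_mul] at hn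
    have h2 := h (n + n)
    push_cast at h2
    rw [add_mul] at h2
    linarith

theorem st_pos {x : F} {n : ℕ} (hx : 0 ≤ ArchimedeanClass.mk x) (h : 1 ≤ (n : F) * x) :
    0 < stdPart x := by
  have hn : (0 : F) < n := by
    rcases Nat.eq_zero_or_pos n with h0 | h0
    · subst h0
      simp at h
      exact absurd h (not_le.2 one_pos)
    · exact_mod_cast h0
  have hx0 : 0 < x := by
    by_contra h1
    have h2 : (n : F) * x ≤ 0 := mul_nonpos_of_nonneg_of_nonpos hn.le (not_lt.1 h1)
    exact absurd (h.trans h2) (not_le.2 one_pos)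
  refine lt_of_le_of_ne (stdPart_nonneg hx0.le) fun h1 => ?_
  have h2 := (st_zero_iff hx).1 h1.symm (n + n)
  rw [abs_of_pos hx0] at h2
  push_cast at h2
  rw [add_mul] at h2
  have h3 : (1 : F) + 1 ≤ 1 := (add_le_add h h).trans h2
  exact absurd h3 (by norm_num)

/-- the real place of the subring `O` given by the ordering -/
noncomputable def stHom {K : Type} [Field K] [Algebra K F] (O : ValuationSubring K)
    (hO : ∀ a ∈ O, 0 ≤ ArchimedeanClass.mk (algebraMap K F a)) : O →+* ℝ where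
  toFun a := stdPart (algebraMap K F (a : K))
  map_one' := by simp
  map_mul' a b := by
    rw [MulMemClass.coe_mul, map_mul, stdPart_mul (hO _ a.2) (hO _ b.2)]
  map_zero' := by simp
  map_add' a b := by
    rw [AddMemClass.coe_add, map_add, stdPart_add (hO _ a.2) (hO _ b.2)]

theorem mk_add_nonneg {x y : F} (hx : 0 ≤ ArchimedeanClass.mk x)
    (hy : 0 ≤ ArchimedeanClass.mk y) : 0 ≤ ArchimedeanClass.mk (x + y) :=
  (le_min hx hy).trans (ArchimedeanClass.min_le_mk_add x y)

theorem mk_mul_nonneg {x y : F} (hx : 0 ≤ ArchimedeanClass.mk x)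
    (hy : 0 ≤ ArchimedeanClass.mk y) : 0 ≤ ArchimedeanClass.mk (x * y) := by
  rw [ArchimedeanClass.mk_mul]
  exact add_nonneg hx hy

theorem mk_pow_nonneg {x : F} (hx : 0 ≤ ArchimedeanClass.mk x) (n : ℕ) :
    0 ≤ ArchimedeanClass.mk (x ^ n) := by
  rw [ArchimedeanClass.mk_pow]
  exact nsmul_nonneg hx n

theorem stdPart_pow' {x : F} (hx : 0 ≤ ArchimedeanClass.mk x) (n : ℕ) :
    stdPart (x ^ n) = stdPart x ^ n := by
  induction n with
  | zero => simp
  | succ n ih => rw [pow_succ, stdPart_mul (mk_pow_nonneg hx n) hx, ih, pow_succ]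

theorem stHom_eval {K : Type} [Field K] [Algebra K F] (O : ValuationSubring K)
    (hO : ∀ a ∈ O, 0 ≤ ArchimedeanClass.mk (algebraMap K F a)) {u : F}
    (hu : 0 ≤ ArchimedeanClass.mk u) (f : (↥O)[X]) :
    0 ≤ ArchimedeanClass.mk (eval₂ ((algebraMap K F).comp (algebraMap O K)) u f) ∧
      stdPart (eval₂ ((algebraMap K F).comp (algebraMap O K)) u f) =
        eval₂ (stHom O hO) (stdPart u) f := by
  induction f using Polynomial.induction_on' with
  | add f g hf hg =>
    rw [eval₂_add, eval₂_add]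
    exact ⟨mk_add_nonneg hf.1 hg.1, by rw [stdPart_add hf.1 hg.1, hf.2, hg.2]⟩
  | monomial n a =>
    rw [eval₂_monomial, eval₂_monomial]
    have h1 : ((algebraMap K F).comp (algebraMap O K)) a = algebraMap K F (a : K) := rfl
    rw [h1]
    refine ⟨mk_mul_nonneg (hO _ a.2) (mk_pow_nonneg hu n), ?_⟩
    rw [stdPart_mul (hO _ a.2) (mk_pow_nonneg hu n), stdPart_pow' hu]
    rfl

end st

end Pool.Agent.HPY
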