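import Pool.Agent.HPY.Defs

/-! Project HPY (MP_862048_al), row ORD: the valuation ring at the orderings -/

set_option autoImplicit false

namespace Pool.Agent.HPY

section mm

variable {C : Type} [Field C] (V : ValuationSubring C)

theorem mem_of_MM {x : C} (hx : x ∈ MM V) : x ∈ V := by
  rcases hx with hx | hx
  · rw [hx]
    exact zero_mem V
  · exact (V.mem_or_inv_mem x).resolve_right hx

theorem inv_mem_of_not_MM {x : C} (hx : x ∉ MM V) : x ≠ 0 ∧ x⁻¹ ∈ V := by
  refine ⟨fun h => hx (Or.inl h), ?_⟩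
  by_contra h
  exact hx (Or.inr h)

theorem mul_MM {x y : C} (hx : x ∈ V) (hy : y ∈ MM V) : x * y ∈ MM V := by
  by_cases h0 : x * y = 0
  · exact Or.inl h0
  rcases hy with hy | hy
  · exact absurd (by rw [hy, mul_zero]) h0
  refine Or.inr fun h => hy ?_
  have hx0 : x ≠ 0 := fun h => h0 (by rw [h, zero_mul])
  have : y⁻¹ = x * (x * y)⁻¹ := by
    rw [mul_inv, ← mul_assoc, mul_inv_cancel₀ hx0, one_mul]
  rw [this]
  exact mul_mem hx h

end mm

section ord

variable {K F : Type} [Field K] [Field F] [Algebra K F] {O : ValuationSubring K}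

theorem sq_nonneg_map {x : K} (hx : IsSquare x) (_ : LinearOrder F) (_ : IsStrictOrderedRing F) :
    0 ≤ algebraMap K F x := by
  obtain ⟨s, hs⟩ := hx
  rw [hs, map_mul]
  exact mul_self_nonneg _

/-- ORD -/
theorem ord_bdd (h : HP K O) {x : K} (hx : x ∈ O) : ∃ n : ℕ,
    ∀ (_ : LinearOrder F) (_ : IsStrictOrderedRing F), |algebraMap K F x| ≤ n := by
  obtain ⟨n, hn⟩ := h.arch x hx
  obtain ⟨m, hm⟩ := h.arch (-x) (neg_mem hx)
  refine ⟨n + m, fun o1 o2 => ?_⟩
  have h1 := sq_nonneg_map (F := F) hn o1 o2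
  have h2 := sq_nonneg_map (F := F) hm o1 o2
  rw [map_sub, map_natCast] at h1 h2
  rw [map_neg] at h2
  have h3 : (0 : F) ≤ (n : F) := Nat.cast_nonneg n
  have h4 : (0 : F) ≤ (m : F) := Nat.cast_nonneg m
  push_cast
  rw [abs_le]
  constructor <;> linarith

/-- ORD -/
theorem ord_inf (h : HP K O) {x : K} (hx : x ∈ MM O) (n : ℕ) :
    ∀ (_ : LinearOrder F) (_ : IsStrictOrderedRing F), (n : F) * |algebraMap K F x| ≤ 1 := by
  intro o1 o2
  have key : ∀ y : K, y ∈ MM O → -1 ≤ algebraMap K F y := by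
    intro y hy
    by_cases h0 : y = 0
    · rw [h0, map_zero]
      linarith [zero_le_one (α := F)]
    rcases hy with hy | hy
    · exact absurd hy h0
    have h1 := sq_nonneg_map (F := F)
      (h.small y ((O.mem_or_inv_mem y).resolve_right hy) hy) o1 o2
    rw [map_add, map_one] at h1
    linarith
  have hn : (n : K) ∈ O := natCast_mem O n
  have h1 := key _ (mul_MM O hn hx)
  have h2 := key _ (mul_MM O (neg_mem hn) hx)
  rw [map_mul, map_natCast] at h1
  rw [map_mul, map_neg, map_natCast] at h2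
  have h3 : (0 : F) ≤ (n : F) := Nat.cast_nonneg n
  rw [← abs_of_nonneg h3, ← abs_mul, abs_le]
  constructor <;> linarith

/-- ORD -/
theorem ord_unit (h : HP K O) {x : K} (hx : x ∉ MM O) : ∃ n : ℕ,
    ∀ (_ : LinearOrder F) (_ : IsStrictOrderedRing F), 1 ≤ (n : F) * |algebraMap K F x| := by
  obtain ⟨h0, h1⟩ := inv_mem_of_not_MM O hx
  obtain ⟨n, hn⟩ := ord_bdd (F := F) h h1
  refine ⟨n, fun o1 o2 => ?_⟩
  have h2 := hn o1 o2
  have h3 : |algebraMap K F x⁻¹| * |algebraMap K F x| = 1 := by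
    rw [← abs_mul, ← map_mul, inv_mul_cancel₀ h0, map_one, abs_one]
  calc (1 : F) = |algebraMap K F x⁻¹| * |algebraMap K F x| := h3.symm
    _ ≤ (n : F) * |algebraMap K F x| := mul_le_mul_of_nonneg_right h2 (abs_nonneg _)

end ord

end Pool.Agent.HPY
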