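import Pool.Agent.HPY.HLc
import Pool.Agent.HPY.HLd
import Pool.Agent.HPY.HER
import Pool.Agent.HPY.CPT
import Pool.Agent.HPY.ORD
import Pool.Agent.HPY.LIP

/-!
# MP_862048: the Hensel lemma at the orderings
-/

set_option autoImplicit false

namespace Pool.Agent.HPY

open Polynomial ArchimedeanClass

/-- an element which is infinitesimal at no ordering is bounded from below -/
theorem unif_lower {F : Type} [Field F] {x : F}
    (h : ∀ (_ : LinearOrder F) (_ : IsStrictOrderedRing F), ∃ n : ℕ, ¬ (n : F) * |x| ≤ 1) :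
    ∃ n : ℕ, ∀ (_ : LinearOrder F) (_ : IsStrictOrderedRing F), 1 ≤ (n : F) * |x| := by
  by_contra hcon
  push Not at hcon
  obtain ⟨o1, o2, h1⟩ := cpt (fun i : ℕ => 1 - ((i : F) * x) ^ 2) (fun N => by
    obtain ⟨o1, o2, h1⟩ := hcon N
    refine ⟨o1, o2, fun i hi => ?_⟩
    have h2 : (i : F) * |x| ≤ 1 :=
      (mul_le_mul_of_nonneg_right (by exact_mod_cast hi) (abs_nonneg x)).trans h1.le
    have h3 : |(i : F) * x| ≤ 1 := by rwa [abs_mul, Nat.abs_cast]
    have h4 : ((i : F) * x) ^ 2 ≤ 1 := by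
      rw [← sq_abs]
      exact pow_le_one₀ (abs_nonneg _) h3
    exact sub_nonneg.2 h4)
  obtain ⟨n, hn⟩ := h o1 o2
  apply hn
  have h2 := h1 n
  have h3 : ((n : F) * x) ^ 2 ≤ 1 := sub_nonneg.1 h2
  have h4 : |(n : F) * x| ≤ 1 := by
    rw [← sq_abs] at h3
    exact (pow_le_one_iff_of_nonneg (abs_nonneg _) two_ne_zero).1 h3
  rwa [abs_mul, Nat.abs_cast] at h4

/-- uniform positivity where `x` is infinitesimal -/
theorem unif_pos {F : Type} [Field F] {x y : F}
    (h : ∀ (_ : LinearOrder F) (_ : IsStrictOrderedRing F), (∀ n : ℕ, (n : F) * |x| ≤ 1) →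
      ∃ n : ℕ, 1 < (n : F) * y) :
    ∃ n : ℕ, ∀ (_ : LinearOrder F) (_ : IsStrictOrderedRing F), (n : F) * |x| ≤ 1 →
      1 < (n : F) * y := by
  by_contra hcon
  push Not at hcon
  obtain ⟨o1, o2, h1⟩ := cpt (fun i : ℕ => if i % 2 = 0 then 1 - (((i / 2 : ℕ) : F) * x) ^ 2 else
      1 - ((i / 2 : ℕ) : F) * y) (fun N => by
    obtain ⟨o1, o2, h1, h2⟩ := hcon N
    refine ⟨o1, o2, fun i hi => ?_⟩
    have hi2 : i / 2 ≤ N := (Nat.div_le_self _ _).trans hi
    by_cases h3 : i % 2 = 0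
    · rw [if_pos h3]
      have h2 : ((i / 2 : ℕ) : F) * |x| ≤ 1 :=
        (mul_le_mul_of_nonneg_right (by exact_mod_cast hi2) (abs_nonneg x)).trans h1
      have h3 : |((i / 2 : ℕ) : F) * x| ≤ 1 := by rwa [abs_mul, Nat.abs_cast]
      have h4 : (((i / 2 : ℕ) : F) * x) ^ 2 ≤ 1 := by
        rw [← sq_abs]
        exact pow_le_one₀ (abs_nonneg _) h3
      exact sub_nonneg.2 h4
    · rw [if_neg h3]
      rw [sub_nonneg]
      rcases le_total 0 y with hy | hy
      · exact (mul_le_mul_of_nonneg_right (by exact_mod_cast hi2) hy).trans h2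
      · exact (mul_nonpos_of_nonneg_of_nonpos (Nat.cast_nonneg _) hy).trans zero_le_one)
  obtain ⟨n, hn⟩ := h o1 o2 (fun n => by
    have h2 := h1 (2 * n)
    have h5 : 2 * n / 2 = n := by omega
    have h6 : 2 * n % 2 = 0 := by omega
    simp only [h5, h6, if_true] at h2
    have h3 : ((n : F) * x) ^ 2 ≤ 1 := sub_nonneg.1 h2
    have h4 : |(n : F) * x| ≤ 1 := by
      rw [← sq_abs] at h3
      exact (pow_le_one_iff_of_nonneg (abs_nonneg _) two_ne_zero).1 h3
    rwa [abs_mul, Nat.abs_cast] at h4)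
  have h2 := h1 (2 * n + 1)
  have h5 : (2 * n + 1) / 2 = n := by omega
  have h6 : (2 * n + 1) % 2 = 1 := by omega
  simp only [h5, h6, one_ne_zero, if_false] at h2
  exact absurd (sub_nonneg.1 h2) (not_le.2 hn)

/-- HL -/
theorem hl {K : Type} [Field K] {O : ValuationSubring K} (h : HP K O) {F : Type} [Field F]
    [Algebra K F] {p : Polynomial K} (hp : Prim O p)
    {u : F} (hu : Unt u) : ∃ (E : F) (n : ℕ),
    ∀ (_ : LinearOrder F) (_ : IsStrictOrderedRing F), (n : F) * |Polynomial.aeval u p| ≤ 1 →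
      0 < E ∧ |E ^ 2 - u| ≤ n * |Polynomial.aeval u p| := by
  have hchar : CharZero K := charZero_of_inj_zero fun n hn => by
    by_contra h0
    exact h.char n h0 hn
  -- the polynomial over `O`
  obtain ⟨p', hp'⟩ : ∃ p' : (↥O)[X], p'.map (algebraMap O K) = p := by
    have h1 : p ∈ Polynomial.lifts (algebraMap O K) := by
      rw [Polynomial.lifts_iff_coeff_lifts]
      intro n
      exact ⟨⟨p.coeff n, hp.1 n⟩, rfl⟩
    exact (Polynomial.mem_lifts p).1 h1
  have hres : p'.map (IsLocalRing.residue O) ≠ 0 := by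
    obtain ⟨i, hi⟩ := hp.2
    intro h0
    have h1 := congrArg (fun r => r.coeff i) h0
    simp only [coeff_map, coeff_zero] at h1
    have h2 := (IsLocalRing.mem_maximalIdeal _).1 ((IsLocalRing.residue_eq_zero_iff _).1 h1)
    apply h2
    obtain ⟨h3, h4⟩ := inv_mem_of_not_MM O hi
    have h5 : ((p'.coeff i : O) : K) = p.coeff i := by rw [← hp', coeff_map]; rfl
    refine IsUnit.of_mul_eq_one ⟨(p.coeff i)⁻¹, h4⟩ ?_
    apply Subtype.ext
    change ((p'.coeff i : O) : K) * (p.coeff i)⁻¹ = 1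
    rw [h5, mul_inv_cancel₀ h3]
  have hH : ∀ x : AlgebraicClosure K, IsIntegral O x ∨ IsIntegral O x⁻¹ := by
    intro x
    rw [isIntegral_iff_itg, isIntegral_iff_itg]
    exact h.hens x
  obtain ⟨Q, S, p1, p2, hpp, hQS, hmain⟩ := HL.split (A := O) (C := AlgebraicClosure K) K hH
    (fun y hy => her_res h y hy) p' hres
  -- evaluation in `F`
  set ι : O →+* F := (algebraMap K F).comp (algebraMap O K) with hι
  have hpu : aeval u p = eval₂ ι u p' := by
    rw [← hp', aeval_def, eval₂_map]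
  have hO : ∀ (_ : LinearOrder F) (_ : IsStrictOrderedRing F), ∀ a ∈ O,
      0 ≤ ArchimedeanClass.mk (algebraMap K F a) := by
    intro o1 o2 a ha
    obtain ⟨n, hn⟩ := ord_bdd (F := F) h ha
    exact mk_nonneg_of_le (hn o1 o2)
  obtain ⟨nu, hnu⟩ := hu
  have hφ : ∀ (o1 : LinearOrder F) (o2 : IsStrictOrderedRing F), IsLocalHom (stHom O (hO o1 o2)) := by
    intro o1 o2
    constructor
    intro a ha
    by_contra hna
    have h1 : (a : K) ∈ MM O := by
      by_contra h2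
      obtain ⟨h3, h4⟩ := inv_mem_of_not_MM O h2
      apply hna
      refine IsUnit.of_mul_eq_one ⟨(a : K)⁻¹, h4⟩ ?_
      apply Subtype.ext
      exact mul_inv_cancel₀ h3
    have h2 : stdPart (algebraMap K F (a : K)) = 0 :=
      (st_zero_iff (hO o1 o2 _ a.2)).2 fun n => ord_inf h h1 n o1 o2
    have h3 : stHom O (hO o1 o2) a = 0 := h2
    rw [h3] at ha
    exact not_isUnit_zero ha
  have hu1 : ∀ (_ : LinearOrder F) (_ : IsStrictOrderedRing F),
      0 ≤ ArchimedeanClass.mk u ∧ 0 < stdPart u ∧ |u| ≤ nu := by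
    intro o1 o2
    obtain ⟨h1, h2⟩ := hnu o1 o2
    have h3 : 0 < u := by
      by_contra h4
      have h5 : (nu : F) * u ≤ 0 := mul_nonpos_of_nonneg_of_nonpos (Nat.cast_nonneg _) (not_lt.1 h4)
      exact absurd (h1.trans h5) (not_le.2 one_pos)
    have h4 : |u| ≤ nu := by rwa [abs_of_pos h3]
    have h5 := mk_nonneg_of_le h4
    exact ⟨h5, st_pos h5 h1, h4⟩
  -- the second factor is bounded from below
  obtain ⟨n2, hn2⟩ := unif_lower (x := eval₂ ι u p2) (fun o1 o2 => by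
    obtain ⟨h1, h2, -⟩ := hu1 o1 o2
    have h3 := (hmain (stHom O (hO o1 o2)) (hφ o1 o2) _ h2).1
    obtain ⟨h4, h5⟩ := stHom_eval O (hO o1 o2) h1 p2
    rw [← h5] at h3
    by_contra h6
    push Not at h6
    exact h3 ((st_zero_iff h4).2 h6))
  -- the square root is positive where the first factor is small
  obtain ⟨nQ, hnQ⟩ := unif_pos (x := eval₂ ι u p1) (y := eval₂ ι u Q) (fun o1 o2 hx => by
    obtain ⟨h1, h2, -⟩ := hu1 o1 o2
    have h3 := (hmain (stHom O (hO o1 o2)) (hφ o1 o2) _ h2).2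
    obtain ⟨h4, h5⟩ := stHom_eval O (hO o1 o2) h1 p1
    obtain ⟨h6, h7⟩ := stHom_eval O (hO o1 o2) h1 Q
    rw [← h5, ← h7] at h3
    have h8 := h3 ((st_zero_iff h4).2 hx)
    have h9 : stdPart (eval₂ ι u Q) ≠ 0 := h8.ne'
    rw [Ne, st_zero_iff h6] at h9
    push Not at h9
    obtain ⟨n, hn⟩ := h9
    have h10 : 0 < eval₂ ι u Q := by
      by_contra h11
      exact absurd (stdPart_nonpos (not_lt.1 h11)) (not_le.2 h8)
    rw [abs_of_pos h10] at hn
    exact ⟨n, hn⟩)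
  obtain ⟨nS, hnS⟩ := lip (F := F) h (f := S.map (algebraMap O K)) (fun i => by
    rw [coeff_map]
    exact (S.coeff i).2) nu
  refine ⟨eval₂ ι u Q, nQ * n2 + nS * n2, fun o1 o2 hsmall => ?_⟩
  have hSu : |eval₂ ι u S| ≤ nS := by
    have h1 := (hnS o1 o2 u u (hu1 o1 o2).2.2 (hu1 o1 o2).2.2).1
    rwa [aeval_def, eval₂_map] at h1
  have hn2' := hn2 o1 o2
  have hprod : |aeval u p| = |eval₂ ι u p1| * |eval₂ ι u p2| := by
    rw [hpu, hpp, eval₂_mul, abs_mul]
  have h1 : |eval₂ ι u p1| ≤ n2 * |aeval u p| := by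
    rw [hprod]
    have h2 : |eval₂ ι u p1| * 1 ≤ |eval₂ ι u p1| * (n2 * |eval₂ ι u p2|) :=
      mul_le_mul_of_nonneg_left hn2' (abs_nonneg _)
    linarith
  have h0 : 0 ≤ |aeval u p| := abs_nonneg _
  have hn20 : (0 : F) ≤ n2 := Nat.cast_nonneg _
  have hnS0 : (0 : F) ≤ nS := Nat.cast_nonneg _
  have hnQ0 : (0 : F) ≤ nQ := Nat.cast_nonneg _
  push_cast at hsmall ⊢
  have h2 : (nQ : F) * |eval₂ ι u p1| ≤ 1 := by
    have h3 : (nQ : F) * |eval₂ ι u p1| ≤ nQ * (n2 * |aeval u p|) :=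
      mul_le_mul_of_nonneg_left h1 hnQ0
    have h4 : 0 ≤ (nS : F) * n2 * |aeval u p| := by positivity
    linarith
  have h3 := hnQ o1 o2 h2
  constructor
  · by_contra h4
    have h5 : (nQ : F) * eval₂ ι u Q ≤ 0 := mul_nonpos_of_nonneg_of_nonpos hnQ0 (not_lt.1 h4)
    exact absurd (h3.trans_le h5) (not_lt.2 zero_le_one)
  · have h4 : eval₂ ι u Q ^ 2 - u = eval₂ ι u p1 * eval₂ ι u S := by
      have h5 := congrArg (eval₂ ι u) hQS
      rw [eval₂_sub, eval₂_pow, eval₂_X, eval₂_mul] at h5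
      exact h5
    rw [h4, abs_mul]
    have h5 : |eval₂ ι u p1| * |eval₂ ι u S| ≤ (n2 * |aeval u p|) * nS :=
      mul_le_mul h1 hSu (abs_nonneg _) (by positivity)
    have h6 : 0 ≤ (nQ : F) * n2 * |aeval u p| := by positivity
    linarith

end Pool.Agent.HPY
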