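import Pool.Agent.HPY.Defs

/-! Project HPY, row NWT: from `E² ≈ v` up to `O(g - c)` to `Loc`. -/

set_option autoImplicit false

namespace Pool.Agent.HPY

set_option maxHeartbeats 4000000 in
theorem newton_aux {F : Type} [Field F] [LinearOrder F] [IsStrictOrderedRing F] {v g c s E : F}
    {n m k : ℕ} (hm : 1 ≤ (m : F) * v) (hk : 1 + c ^ 2 ≤ (k : F)) (hn : 1 ≤ n)
    (hs : s = (g - c) ^ 2 / ((1 + c ^ 2) * (1 + g ^ 2)))
    (hE : (n : F) * |g - c| ≤ 1 → 0 < E ∧ |E ^ 2 - v| ≤ n * |g - c|)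
    (hM : ((n ^ 2 * m ^ 2 * k ^ 2 * 100 : ℕ) : F) * s ≤ 1) :
    0 < (E ^ 2 + v) / (2 * E) ∧
      |((E ^ 2 + v) / (2 * E)) ^ 2 - v| ≤ ((n ^ 2 * m ^ 2 * k ^ 2 * 100 : ℕ) : F) * s := by
  have hv : 0 < v := by
    by_contra h
    push Not at h
    have h1 : (m : F) * v ≤ 0 := mul_nonpos_of_nonneg_of_nonpos (Nat.cast_nonneg m) h
    linarith
  have hm1 : (1 : F) ≤ m := by
    have : (m : ℕ) ≠ 0 := by
      rintro rfl
      simp at hm
      linarith
    exact_mod_cast Nat.one_le_iff_ne_zero.mpr this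
  have hn1 : (1 : F) ≤ n := by exact_mod_cast hn
  have hc1 : (1 : F) ≤ 1 + c ^ 2 := by linarith [sq_nonneg c]
  have hk1 : (1 : F) ≤ k := hc1.trans hk
  obtain ⟨N, hN⟩ : ∃ N : F, N = n ^ 2 * m ^ 2 := ⟨_, rfl⟩
  have hn2 : (1 : F) ≤ n ^ 2 := one_le_pow₀ hn1
  have hm2 : (1 : F) ≤ m ^ 2 := one_le_pow₀ hm1
  have hN1 : 1 ≤ N := by
    rw [hN]
    calc (1 : F) = 1 * 1 := by ring
      _ ≤ n ^ 2 * m ^ 2 := mul_le_mul hn2 hm2 (by norm_num) (by positivity)
  set d := (g - c) ^ 2 with hd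
  have hd0 : 0 ≤ d := sq_nonneg _
  have hds : d = s * ((1 + c ^ 2) * (1 + g ^ 2)) := by rw [hs]; field_simp
  have hs0 : 0 ≤ s := by rw [hs]; positivity
  -- `1 + g² ≤ 2 k + 2 d`
  have hg : 1 + g ^ 2 ≤ 2 * k + 2 * d := by
    have : 2 * c ^ 2 + 2 * (g - c) ^ 2 - g ^ 2 = (g - 2 * c) ^ 2 := by ring
    have h7 := sq_nonneg (g - 2 * c)
    linarith
  set M := ((n ^ 2 * m ^ 2 * k ^ 2 * 100 : ℕ) : F) with hMd
  have hMe : M = N * k ^ 2 * 100 := by rw [hMd, hN]; push_cast; ring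
  have hks2 : (k : F) ^ 2 * s * 100 ≤ M * s := by
    rw [hMe]
    have : (k : F) ^ 2 * s * 100 = 1 * ((k : F) ^ 2 * 100 * s) := by ring
    rw [this]
    have : N * (k : F) ^ 2 * 100 * s = N * ((k : F) ^ 2 * 100 * s) := by ring
    rw [this]
    exact mul_le_mul_of_nonneg_right hN1 (by positivity)
  have hks : (k : F) * s ≤ 1 / 100 := by
    have h1 : (k : F) * s ≤ (k : F) ^ 2 * s := by
      apply mul_le_mul_of_nonneg_right _ hs0
      exact le_self_pow₀ hk1 (by norm_num)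
    linarith
  -- `d ≤ 4 k² s`
  have hd1 : d ≤ 4 * k ^ 2 * s := by
    have h1 : d ≤ s * (k * (2 * k + 2 * d)) := by
      calc d = s * ((1 + c ^ 2) * (1 + g ^ 2)) := hds
        _ ≤ s * (k * (2 * k + 2 * d)) := by
          apply mul_le_mul_of_nonneg_left _ hs0
          apply mul_le_mul hk hg (by positivity) (by positivity)
    have h2 : s * (k * (2 * k + 2 * d)) = 2 * (k ^ 2 * s) + 2 * (k * s) * d := by ring
    have h3 : 2 * (k * s) * d ≤ 2 * (1 / 100) * d := by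
      apply mul_le_mul_of_nonneg_right _ hd0
      linarith
    rw [h2] at h1
    have h4 : 4 * (k : F) ^ 2 * s = 4 * (k ^ 2 * s) := by ring
    rw [h4]
    have h5 : 0 ≤ (k : F) ^ 2 * s := by positivity
    linarith
  -- `n² m² d ≤ M s / 25`
  have hNd : N * d ≤ M * s / 25 := by
    have h1 : N * d ≤ N * (4 * k ^ 2 * s) := mul_le_mul_of_nonneg_left hd1 (by linarith)
    have h2 : N * (4 * k ^ 2 * s) = M * s / 25 := by rw [hMe]; ring
    linarith
  have hn2d : (n : F) ^ 2 * d ≤ N * d := by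
    apply mul_le_mul_of_nonneg_right _ hd0
    rw [hN]
    exact le_mul_of_one_le_right (by positivity) hm2
  set a := (n : F) * |g - c| with ha
  have ha0 : 0 ≤ a := by positivity
  have ha2 : a ^ 2 = n ^ 2 * d := by rw [ha, hd, mul_pow, sq_abs]
  have ha1 : a ≤ 1 := by
    by_contra h
    push Not at h
    have : 1 < a ^ 2 := one_lt_pow₀ h (by norm_num)
    rw [ha2] at this
    linarith
  obtain ⟨hE0, hE1⟩ := hE ha1
  have hEne : E ≠ 0 := hE0.ne'
  -- `2 a ≤ v`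
  have hav : 2 * a ≤ v := by
    by_contra h
    push Not at h
    have h1 : (m : F) * v < m * (2 * a) := mul_lt_mul_of_pos_left h (by linarith)
    have h2 : 1 < 2 * (m * a) := by linarith
    have h3 : 1 < (2 * (m * a)) ^ 2 := one_lt_pow₀ h2 (by norm_num)
    have h4 : (2 * ((m : F) * a)) ^ 2 = 4 * (N * d) := by
      rw [hN]
      calc (2 * ((m : F) * a)) ^ 2 = 4 * m ^ 2 * a ^ 2 := by ring
        _ = _ := by rw [ha2]; ring
    rw [h4] at h3
    linarith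
  have hE2 : v / 2 ≤ E ^ 2 := by
    have := (abs_le.mp hE1).1
    linarith
  refine ⟨by positivity, ?_⟩
  have e : ((E ^ 2 + v) / (2 * E)) ^ 2 - v = (E ^ 2 - v) ^ 2 / (4 * E ^ 2) := by
    field_simp; ring
  rw [e, abs_of_nonneg (by positivity), div_le_iff₀ (by positivity)]
  have h1 : (E ^ 2 - v) ^ 2 ≤ a ^ 2 := by
    rw [← sq_abs (E ^ 2 - v)]
    exact pow_le_pow_left₀ (abs_nonneg _) hE1 2
  have h2 : M * s * (2 * v) ≤ M * s * (4 * E ^ 2) := by
    apply mul_le_mul_of_nonneg_left _ (by positivity)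
    linarith
  -- `a² ≤ 2 v M s`
  have h3 : a ^ 2 ≤ M * s * (2 * v) := by
    have h4 : (m : F) ^ 2 * a ^ 2 ≤ M * s / 25 := by
      rw [ha2]
      calc (m : F) ^ 2 * (n ^ 2 * d) = N * d := by rw [hN]; ring
        _ ≤ _ := hNd
    have h5 : 0 ≤ M * s := by positivity
    have h6 : a ^ 2 ≤ (m * v) * a ^ 2 := le_mul_of_one_le_left (sq_nonneg a) hm
    have h7 : (m : F) * v * a ^ 2 ≤ m ^ 2 * a ^ 2 * v := by
      have : (m : F) * v * a ^ 2 = m * (v * a ^ 2) := by ring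
      rw [this]
      have : (m : F) ^ 2 * a ^ 2 * v = m ^ 2 * (v * a ^ 2) := by ring
      rw [this]
      apply mul_le_mul_of_nonneg_right _ (by positivity)
      exact le_self_pow₀ hm1 (by norm_num)
    have h8 : (m : F) ^ 2 * a ^ 2 * v ≤ M * s / 25 * v := mul_le_mul_of_nonneg_right h4 hv.le
    have h9 : 0 ≤ M * s * v := by positivity
    linarith
  linarith

theorem newton {F : Type} [Field F] {v g x y E : F} {c : ℚ} {n : ℕ} (hv : Unt v) (hx : x ≠ 0)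
    (hxy : g = y / x)
    (hE : ∀ (_ : LinearOrder F) (_ : IsStrictOrderedRing F), (n : F) * |g - c| ≤ 1 →
      0 < E ∧ |E ^ 2 - v| ≤ n * |g - c|) : Loc v (sg (c : F) x y) := by
  obtain ⟨m, hm⟩ := hv
  obtain ⟨k, hk⟩ : ∃ k : ℕ, 1 + c ^ 2 ≤ (k : ℚ) := exists_nat_ge _
  refine ⟨(E ^ 2 + v) / (2 * E), (n + 1) ^ 2 * m ^ 2 * k ^ 2 * 100, ?_⟩
  intro lo so hM
  have hk' : 1 + (c : F) ^ 2 ≤ (k : F) := by exact_mod_cast hk
  have hs : sg (c : F) x y = (g - c) ^ 2 / ((1 + (c : F) ^ 2) * (1 + g ^ 2)) := by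
    rw [sg, hxy]
    have h1 : 0 < 1 + (c : F) ^ 2 := by positivity
    have h2 : x ^ 2 + y ^ 2 ≠ 0 := by positivity
    have h3 : 1 + (y / x) ^ 2 = (x ^ 2 + y ^ 2) / x ^ 2 := by field_simp
    rw [h3]
    field_simp
  apply newton_aux (hm lo so).1 hk' (Nat.succ_le_succ (Nat.zero_le n)) hs _ hM
  intro h
  have h0 : 0 ≤ |g - c| := abs_nonneg _
  have h1 : (n : F) * |g - c| ≤ ((n + 1 : ℕ) : F) * |g - c| := by
    push_cast; nlinarith
  obtain ⟨h2, h3⟩ := hE lo so (h1.trans h)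
  exact ⟨h2, h3.trans h1⟩

end Pool.Agent.HPY
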