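import Pool.Agent.HPY.SPC
import Pool.Agent.HPY.HL
import Pool.Agent.HPY.NWT

/-! Project HPY, row LCL: local square roots near the zeros of `sg τ x y`. -/

set_option autoImplicit false

namespace Pool.Agent.HPY

open Filter

variable {K F : Type} [Field K] [Field F] [Algebra K F] {O : ValuationSubring K}

theorem loc_const {v : F} {s : F} {n : ℕ}
    (h : ∀ (_ : LinearOrder F) (_ : IsStrictOrderedRing F), 1 < (n : F) * s) : Loc v s :=
  ⟨1, n, fun lo so h1 => absurd h1 (not_le.mpr (h lo so))⟩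

/-- LCL -/
theorem local_ (h : HP K O) (hF : FF1 K F) {v x y : F} (hv : Unt v) (hxy : x ≠ 0 ∨ y ≠ 0) :
    ∀ᶠ τ : ℚ in cofinite, Loc v (sg (τ : F) x y) := by
  rcases eq_or_ne x 0 with rfl | hx
  · have hy : y ≠ 0 := by simpa using hxy
    refine Filter.Eventually.of_forall fun τ => ?_
    obtain ⟨n, hn⟩ : ∃ n : ℕ, 1 + τ ^ 2 < (n : ℚ) := exists_nat_gt _
    apply loc_const (n := n)
    intro lo so
    have hn' : 1 + (τ : F) ^ 2 < (n : F) := by exact_mod_cast hn
    have h1 : 0 < 1 + (τ : F) ^ 2 := by positivity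
    have e : sg (τ : F) 0 y = 1 / (1 + (τ : F) ^ 2) := by
      rw [sg]
      field_simp
      ring
    rw [e, mul_one_div, lt_div_iff₀ h1]
    linarith
  · filter_upwards [spec h hF v (y / x)] with c hc
    obtain ⟨p, hp, hm⟩ := hc
    obtain ⟨m, hm'⟩ := hv
    obtain ⟨n, hn⟩ := hm m
    obtain ⟨E, n', hE⟩ := hl h hp (⟨m, hm'⟩ : Unt v)
    refine newton (n := (n + 1) * (n' + 1)) (E := E) ⟨m, hm'⟩ hx rfl ?_
    intro lo so hle
    have hv0 : 0 ≤ v := by
      have h1 := (hm' lo so).1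
      by_contra h2
      push Not at h2
      have : (m : F) * v ≤ 0 := mul_nonpos_of_nonneg_of_nonpos (Nat.cast_nonneg m) h2.le
      linarith
    have hvm : |v| ≤ m := by rw [abs_of_nonneg hv0]; exact (hm' lo so).2
    set d := |y / x - c| with hd
    have hd0 : 0 ≤ d := abs_nonneg _
    have hcast : (((n + 1) * (n' + 1) : ℕ) : F) = ((n : F) + 1) * ((n' : F) + 1) := by push_cast; ring
    rw [hcast] at hle ⊢
    have hn0 : (0 : F) ≤ n := Nat.cast_nonneg n
    have hn'0 : (0 : F) ≤ n' := Nat.cast_nonneg n'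
    have hnn : 0 ≤ (n : F) * n' := mul_nonneg hn0 hn'0
    have hd1 : d ≤ 1 := by
      have : d ≤ ((n : F) + 1) * ((n' : F) + 1) * d := by
        apply le_mul_of_one_le_left hd0
        nlinarith
      linarith
    have h1 : |Polynomial.aeval v p| ≤ n * d := hn lo so hvm hd1
    have h2 : (n' : F) * |Polynomial.aeval v p| ≤ ((n : F) + 1) * ((n' : F) + 1) * d := by
      calc (n' : F) * |Polynomial.aeval v p| ≤ n' * (n * d) := mul_le_mul_of_nonneg_left h1 hn'0
        _ = (n * n') * d := by ring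
        _ ≤ ((n : F) + 1) * ((n' : F) + 1) * d := by
          apply mul_le_mul_of_nonneg_right _ hd0
          nlinarith
    obtain ⟨h3, h4⟩ := hE lo so (h2.trans hle)
    exact ⟨h3, h4.trans h2⟩

end Pool.Agent.HPY
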