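import Pool.Agent.HPY.Defs

/-! Row PATCH of project HPY (MP_862048_al): approximate square roots near `s1 = 0`, near `s2 = 0`
and elsewhere are glued to one approximate square root. -/

set_option autoImplicit false

namespace Pool.Agent.HPY

namespace Patch

/-- Newton iteration for the square root of `v` -/
def nw {F : Type} [Field F] (v : F) : ℕ → F
  | 0 => v + 1
  | j + 1 => (nw v j + v / nw v j) / 2

/-- the glued function -/
def gl {F : Type} [Field F] (A r s1 s2 E1 E2 : F) : F :=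
  r + s2 / (s2 + A * s1) * (E1 - r) + s1 / (s1 + A * s2) * (E2 - r)

theorem gl_symm {F : Type} [Field F] (A r s1 s2 E1 E2 : F) :
    gl A r s1 s2 E1 E2 = gl A r s2 s1 E2 E1 := by
  unfold gl
  ring

variable {F : Type} [Field F] [LinearOrder F] [IsStrictOrderedRing F]

theorem nw_spec {n v : F} (hn : 1 ≤ n) (h1 : 1 ≤ n * v) (h2 : v ≤ n) (j : ℕ) :
    0 < nw v j ∧ v ≤ nw v j ^ 2 ∧ nw v j ≤ n + 1 ∧ 4 ^ j * (nw v j ^ 2 - v) ≤ 3 * n ^ 2 := by
  have hv : 0 < v := by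
    by_contra h
    push Not at h
    nlinarith
  induction j with
  | zero =>
    simp only [nw, pow_zero, one_mul]
    refine ⟨by linarith, by nlinarith, by linarith, by nlinarith⟩
  | succ j ih =>
    obtain ⟨i1, i2, i3, i4⟩ := ih
    set r := nw v j with hr
    have h3 : nw v (j + 1) = (r + v / r) / 2 := by
      rw [hr]
      rfl
    have h4 : 0 < v / r := div_pos hv i1
    have h5 : v / r ≤ r := by
      rw [div_le_iff₀ i1]
      nlinarith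
    have h6 : (v / r) * r = v := by
      field_simp
    have h7 : nw v (j + 1) ^ 2 - v = ((r - v / r) / 2) ^ 2 := by
      rw [h3]
      linear_combination h6
    have h8 : 4 * (nw v (j + 1) ^ 2 - v) ≤ r ^ 2 - v := by
      rw [h7]
      nlinarith
    refine ⟨by rw [h3]; linarith, ?_, by rw [h3]; linarith, ?_⟩
    · have h9 : 0 ≤ ((r - v / r) / 2) ^ 2 := sq_nonneg _
      linarith
    · have h9 : (0 : F) ≤ 4 ^ j := by positivity
      calc (4 : F) ^ (j + 1) * (nw v (j + 1) ^ 2 - v)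
          = 4 ^ j * (4 * (nw v (j + 1) ^ 2 - v)) := by ring
        _ ≤ 4 ^ j * (r ^ 2 - v) := mul_le_mul_of_nonneg_left h8 h9
        _ ≤ 3 * n ^ 2 := i4

theorem E_bdd {s e : F} (hs : 0 < s) : 4 * s * (e / (1 + s * e ^ 2)) ^ 2 ≤ 1 := by
  have h1 : 0 < 1 + s * e ^ 2 := by positivity
  rw [div_pow, ← mul_div_assoc, div_le_one (by positivity)]
  nlinarith [sq_nonneg (1 - s * e ^ 2)]

theorem E_loc {n v s e : F} (hn : 1 ≤ n) (h2 : v ≤ n) (hs : 0 < s) (hns : n * s ≤ 1)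
    (he : 0 < e) (hev : |e ^ 2 - v| ≤ n * s) :
    0 < e / (1 + s * e ^ 2) ∧
      |(e / (1 + s * e ^ 2)) ^ 2 - v| ≤ (n + 2 * (n + 1) ^ 2) * s := by
  have h1 : 0 < 1 + s * e ^ 2 := by positivity
  refine ⟨div_pos he h1, ?_⟩
  obtain ⟨h3, h4⟩ := abs_le.mp hev
  have h5 : e ^ 2 ≤ n + 1 := by linarith
  have h6 : 0 < e ^ 2 := by positivity
  -- `t = s e²`
  set t := s * e ^ 2 with ht
  have h7 : 0 < t := by positivity
  have h8 : (e / (1 + t)) ^ 2 = e ^ 2 / (1 + t) ^ 2 := div_pow _ _ _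
  have h9 : e ^ 2 / (1 + t) ^ 2 ≤ e ^ 2 := by
    rw [div_le_iff₀ (by positivity)]
    have h14 : 1 ≤ (1 + t) ^ 2 := by nlinarith
    exact le_mul_of_one_le_right h6.le h14
  have h10 : e ^ 2 * (1 - 2 * t) ≤ e ^ 2 / (1 + t) ^ 2 := by
    rw [le_div_iff₀ (by positivity)]
    have h11 : (1 - 2 * t) * (1 + t) ^ 2 ≤ 1 := by nlinarith [sq_nonneg t, mul_pos h7 h7, mul_pos (mul_pos h7 h7) h7]
    nlinarith
  have h12 : e ^ 2 * t ≤ (n + 1) ^ 2 * s := by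
    rw [ht]
    have h13 : e ^ 2 * e ^ 2 ≤ (n + 1) * (n + 1) := mul_le_mul h5 h5 h6.le (by linarith)
    nlinarith
  rw [h8, abs_le]
  constructor
  · nlinarith
  · nlinarith [sq_nonneg (n + 1), mul_pos hs (by positivity : (0 : F) < (n + 1) ^ 2)]

/-- near `s1 = 0` -/
theorem near {n A v s1 s2 r E1 E2 C1 ε : F} (hn : 1 ≤ n) (hA : 1 ≤ A) (h2 : v ≤ n)
    (hs1 : 0 < s1) (hs2 : 0 < s2)
    (h12 : 1 ≤ n * (s1 + s2)) (hδ : 2 * n * s1 ≤ 1)
    (hr : 0 < r) (hr1 : 1 ≤ n * r) (hr2 : r ≤ n + 1) (hrv : v ≤ r ^ 2) (hrε : r ^ 2 - v ≤ ε)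
    (hE1 : 0 < E1) (hC1 : 1 ≤ C1) (hE1v : |E1 ^ 2 - v| ≤ C1 * s1) (hE2 : 4 * s2 * E2 ^ 2 ≤ 1)
    (hε : 2 * n ^ 2 * A * ε ≤ 1) :
    |gl A r s1 s2 E1 E2 ^ 2 - v| ≤
      ((n * C1 + 1 + 6 * n ^ 2) * (2 * (n + C1) + (n * C1 + 1 + 6 * n ^ 2)) + C1) * s1 := by
  have hε0 : 0 ≤ ε := by linarith
  have hs2n : 1 ≤ 2 * n * s2 := by nlinarith
  have hd1 : 0 < s2 + A * s1 := by positivity
  have hd2 : 0 < s1 + A * s2 := by positivity
  -- `1 - k1`
  have hk1 : 0 ≤ A * s1 / (s2 + A * s1) ∧ A * s1 / (s2 + A * s1) ≤ 1 ∧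
      A * s1 / (s2 + A * s1) ≤ 2 * n * A * s1 := by
    refine ⟨by positivity, ?_, ?_⟩
    · rw [div_le_one hd1]
      linarith
    · rw [div_le_iff₀ hd1]
      have h3 : 0 < A * s1 := by positivity
      nlinarith [mul_le_mul_of_nonneg_left hs2n h3.le, mul_pos h3 h3]
  have hk2 : 0 ≤ s1 / (s1 + A * s2) ∧ s1 / (s1 + A * s2) ≤ 2 * n * s1 := by
    refine ⟨by positivity, ?_⟩
    rw [div_le_iff₀ hd2]
    have h3 : 1 ≤ 2 * n * (s1 + A * s2) := by nlinarith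
    nlinarith
  -- `|E1 - r|`
  have hE1r : |r - E1| ≤ n * (C1 * s1 + ε) := by
    have h3 : |r - E1| * (r + E1) ≤ C1 * s1 + ε := by
      have h4 : |r - E1| * (r + E1) = |(r ^ 2 - v) - (E1 ^ 2 - v)| := by
        rw [← abs_of_pos (by linarith : 0 < r + E1), ← abs_mul]
        congr 1
        ring
      rw [h4]
      calc |(r ^ 2 - v) - (E1 ^ 2 - v)| ≤ |r ^ 2 - v| + |E1 ^ 2 - v| := abs_sub _ _
        _ ≤ ε + C1 * s1 := add_le_add (abs_le.mpr ⟨by linarith, hrε⟩) hE1v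
        _ = C1 * s1 + ε := by ring
    have h5 : |r - E1| * r ≤ |r - E1| * (r + E1) :=
      mul_le_mul_of_nonneg_left (by linarith) (abs_nonneg _)
    have h6 : |r - E1| * 1 ≤ |r - E1| * (n * r) :=
      mul_le_mul_of_nonneg_left hr1 (abs_nonneg _)
    nlinarith [abs_nonneg (r - E1)]
  -- `|E2 - r|`
  have hE2r : |E2 - r| ≤ 3 * n := by
    have h3 : E2 ^ 2 ≤ n ^ 2 := by
      have h4 : 1 * E2 ^ 2 ≤ 2 * n * s2 * E2 ^ 2 := mul_le_mul_of_nonneg_right hs2n (sq_nonneg _)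
      nlinarith [sq_nonneg E2]
    have h5 : |E2| ≤ n := abs_le_of_sq_le_sq h3 (by linarith)
    obtain ⟨h6, h7⟩ := abs_le.mp h5
    rw [abs_le]
    constructor <;> linarith
  -- `f - E1`
  set f := gl A r s1 s2 E1 E2 with hf
  have hfE : f - E1 = A * s1 / (s2 + A * s1) * (r - E1) + s1 / (s1 + A * s2) * (E2 - r) := by
    rw [hf]
    unfold gl
    have h3 : s2 / (s2 + A * s1) = 1 - A * s1 / (s2 + A * s1) := by
      field_simp
      ring
    rw [h3]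
    ring
  have hfE1 : |f - E1| ≤ (n * C1 + 1 + 6 * n ^ 2) * s1 := by
    rw [hfE]
    have h3 : |A * s1 / (s2 + A * s1) * (r - E1)| ≤ (n * C1 + 1) * s1 := by
      rw [abs_mul, abs_of_nonneg hk1.1]
      calc A * s1 / (s2 + A * s1) * |r - E1|
          ≤ A * s1 / (s2 + A * s1) * (n * (C1 * s1 + ε)) :=
            mul_le_mul_of_nonneg_left hE1r hk1.1
        _ = A * s1 / (s2 + A * s1) * (n * C1 * s1) + A * s1 / (s2 + A * s1) * (n * ε) := by ring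
        _ ≤ 1 * (n * C1 * s1) + 2 * n * A * s1 * (n * ε) := by
            refine add_le_add (mul_le_mul_of_nonneg_right hk1.2.1 (by positivity))
              (mul_le_mul_of_nonneg_right hk1.2.2 (by positivity))
        _ = n * C1 * s1 + (2 * n ^ 2 * A * ε) * s1 := by ring
        _ ≤ n * C1 * s1 + 1 * s1 := by
            refine add_le_add le_rfl (mul_le_mul_of_nonneg_right hε hs1.le)
        _ = (n * C1 + 1) * s1 := by ring
    have h4 : |s1 / (s1 + A * s2) * (E2 - r)| ≤ 6 * n ^ 2 * s1 := by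
      rw [abs_mul, abs_of_nonneg hk2.1]
      calc s1 / (s1 + A * s2) * |E2 - r| ≤ 2 * n * s1 * (3 * n) :=
            mul_le_mul hk2.2 hE2r (abs_nonneg _) (by positivity)
        _ = 6 * n ^ 2 * s1 := by ring
    calc |A * s1 / (s2 + A * s1) * (r - E1) + s1 / (s1 + A * s2) * (E2 - r)|
        ≤ (n * C1 + 1) * s1 + 6 * n ^ 2 * s1 := (abs_add_le _ _).trans (add_le_add h3 h4)
      _ = (n * C1 + 1 + 6 * n ^ 2) * s1 := by ring
  have hs1' : s1 ≤ 1 := by nlinarith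
  have hE1n : E1 ≤ n + C1 := by
    obtain ⟨-, h3⟩ := abs_le.mp hE1v
    have h4 : E1 ^ 2 ≤ (n + C1) ^ 2 := by nlinarith
    exact (le_abs_self _).trans (abs_le_of_sq_le_sq h4 (by linarith))
  set C2 := n * C1 + 1 + 6 * n ^ 2 with hC2
  have hC20 : 0 ≤ C2 := by positivity
  have hfE2 : |f + E1| ≤ 2 * (n + C1) + C2 := by
    have h3 : |f - E1| ≤ C2 := hfE1.trans (by nlinarith)
    obtain ⟨h4, h5⟩ := abs_le.mp h3
    rw [abs_le]
    constructor <;> linarith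
  have h3 : f ^ 2 - v = (f - E1) * (f + E1) + (E1 ^ 2 - v) := by ring
  rw [h3]
  calc |(f - E1) * (f + E1) + (E1 ^ 2 - v)| ≤ |(f - E1) * (f + E1)| + |E1 ^ 2 - v| :=
        abs_add_le _ _
    _ ≤ C2 * s1 * (2 * (n + C1) + C2) + C1 * s1 := by
        refine add_le_add ?_ hE1v
        rw [abs_mul]
        exact mul_le_mul hfE1 hfE2 (abs_nonneg _) (by positivity)
    _ = (C2 * (2 * (n + C1) + C2) + C1) * s1 := by ring

/-- far from `s1 = 0` and `s2 = 0` -/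
theorem far {n A v s1 s2 r E1 E2 D ε η : F} (hn : 1 ≤ n) (hA : 1 ≤ A)
    (hD : 1 ≤ D) (hs1 : 0 < s1) (hs2 : 0 < s2) (hs1' : s1 ≤ 1) (hs2' : s2 ≤ 1)
    (hD1 : 1 ≤ D * s1) (hD2 : 1 ≤ D * s2)
    (hr : 0 < r) (hr2 : r ≤ n + 1) (hrv : v ≤ r ^ 2) (hrε : r ^ 2 - v ≤ ε)
    (hE1 : 4 * s1 * E1 ^ 2 ≤ 1) (hE2 : 4 * s2 * E2 ^ 2 ≤ 1)
    (hη : 2 * D * (D + n + 1) ≤ A * η) (hη1 : η ≤ 1) :
    |gl A r s1 s2 E1 E2 ^ 2 - v| ≤ η * (2 * n + 3) + ε := by
  have hA0 : 0 < A := by linarith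
  have hη0 : 0 ≤ η := by
    by_contra h
    push Not at h
    have h3 : A * η < 0 := mul_neg_of_pos_of_neg hA0 h
    have h4 : 0 ≤ 2 * D * (D + n + 1) := by positivity
    linarith
  have key : ∀ s E t : F, 0 < s → 1 ≤ D * s → 4 * s * E ^ 2 ≤ 1 → 0 < t → t ≤ 1 →
      |t / (t + A * s) * (E - r)| ≤ D / A * (D + n + 1) := by
    intro s E t hs hDs hE ht ht'
    have h1 : |E| ≤ D := by
      refine abs_le_of_sq_le_sq ?_ (by linarith)
      have h2 : 1 * E ^ 2 ≤ D * s * E ^ 2 := mul_le_mul_of_nonneg_right hDs (sq_nonneg _)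
      nlinarith [sq_nonneg E]
    have h2 : |E - r| ≤ D + n + 1 := by
      obtain ⟨h3, h4⟩ := abs_le.mp h1
      rw [abs_le]
      constructor <;> linarith
    have h3 : 0 ≤ t / (t + A * s) := by positivity
    have h4 : t / (t + A * s) ≤ D / A := by
      rw [div_le_div_iff₀ (by positivity) hA0]
      have h5 : A * 1 ≤ A * (D * s) := mul_le_mul_of_nonneg_left hDs hA0.le
      have h6 : t * A ≤ 1 * A := mul_le_mul_of_nonneg_right ht' hA0.le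
      have h7 : 0 < D * t := by positivity
      nlinarith
    rw [abs_mul, abs_of_nonneg h3]
    exact mul_le_mul h4 h2 (abs_nonneg _) (by positivity)
  set f := gl A r s1 s2 E1 E2 with hf
  have hfr : |f - r| ≤ η := by
    have h1 : f - r = s2 / (s2 + A * s1) * (E1 - r) + s1 / (s1 + A * s2) * (E2 - r) := by
      rw [hf]
      unfold gl
      ring
    rw [h1]
    calc |s2 / (s2 + A * s1) * (E1 - r) + s1 / (s1 + A * s2) * (E2 - r)|
        ≤ D / A * (D + n + 1) + D / A * (D + n + 1) :=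
          (abs_add_le _ _).trans (add_le_add (key s1 E1 s2 hs1 hD1 hE1 hs2 hs2')
            (key s2 E2 s1 hs2 hD2 hE2 hs1 hs1'))
      _ = 2 * D * (D + n + 1) / A := by ring
      _ ≤ η := by
          rw [div_le_iff₀ hA0]
          linarith
  have hfr2 : |f + r| ≤ 2 * n + 3 := by
    obtain ⟨h3, h4⟩ := abs_le.mp hfr
    rw [abs_le]
    constructor <;> linarith
  have h3 : f ^ 2 - v = (f - r) * (f + r) + (r ^ 2 - v) := by ring
  rw [h3]
  calc |(f - r) * (f + r) + (r ^ 2 - v)| ≤ |(f - r) * (f + r)| + |r ^ 2 - v| := abs_add_le _ _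
    _ ≤ η * (2 * n + 3) + ε := by
        refine add_le_add ?_ (abs_le.mpr ⟨by linarith, hrε⟩)
        rw [abs_mul]
        exact mul_le_mul hfr hfr2 (abs_nonneg _) hη0

theorem fin_near {k C3 D x s1 s2 n : F} (hk : 0 ≤ k) (hx0 : |x| ≤ C3 * s1) (hD : k * C3 ^ 2 ≤ D)
    (hs1 : 0 < s1) (hD1 : D * s1 ≤ 1) (hn : 0 < n) (hδ : 2 * n * s1 ≤ 1)
    (h12 : 1 ≤ n * (s1 + s2)) : k * x ^ 2 ≤ s1 ∧ k * x ^ 2 ≤ s2 := by
  have h1 : x ^ 2 ≤ (C3 * s1) ^ 2 := by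
    rw [← sq_abs x]
    exact pow_le_pow_left₀ (abs_nonneg _) hx0 2
  have h2 : k * x ^ 2 ≤ s1 := by
    calc k * x ^ 2 ≤ k * (C3 * s1) ^ 2 := mul_le_mul_of_nonneg_left h1 hk
      _ = (k * C3 ^ 2) * (s1 * s1) := by ring
      _ ≤ D * (s1 * s1) := mul_le_mul_of_nonneg_right hD (by positivity)
      _ = (D * s1) * s1 := by ring
      _ ≤ 1 * s1 := mul_le_mul_of_nonneg_right hD1 hs1.le
      _ = s1 := one_mul _
  refine ⟨h2, h2.trans ?_⟩
  have h3 : n * s1 ≤ n * s2 := by linarith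
  exact le_of_mul_le_mul_left h3 hn

theorem fin_far {k D x s : F} (hk : 0 ≤ k) (hD : 1 ≤ D) (hx : D * (k + 1) * |x| ≤ 1)
    (hD1 : 1 ≤ D * s) : k * x ^ 2 ≤ s := by
  have h0 : 0 ≤ |x| := abs_nonneg _
  have h1 : |x| ≤ 1 := by
    have h2 : 1 * |x| ≤ D * (k + 1) * |x| := mul_le_mul_of_nonneg_right (by nlinarith) h0
    linarith
  have h2 : D * (k * x ^ 2) ≤ 1 := by
    rw [← sq_abs x]
    calc D * (k * |x| ^ 2) = (D * k * |x|) * |x| := by ring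
      _ ≤ 1 * 1 := by
          refine mul_le_mul ?_ h1 h0 zero_le_one
          have h3 : D * k * |x| ≤ D * (k + 1) * |x| := mul_le_mul_of_nonneg_right (by nlinarith) h0
          linarith
      _ = 1 := one_mul _
  exact le_of_mul_le_mul_left (h2.trans hD1) (by linarith)

/-- one ordered field, with natural constants -/
theorem core (n k : ℕ) (hn : 1 ≤ n) : ∃ A j : ℕ, ∀ (F : Type) [Field F] [LinearOrder F]
    [IsStrictOrderedRing F] (v s1 s2 e1 e2 : F), 1 ≤ (n : F) * v → v ≤ n → 0 < s1 → s1 ≤ 1 →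
    0 < s2 → s2 ≤ 1 → 1 ≤ (n : F) * (s1 + s2) →
    ((n : F) * s1 ≤ 1 → 0 < e1 ∧ |e1 ^ 2 - v| ≤ n * s1) →
    ((n : F) * s2 ≤ 1 → 0 < e2 ∧ |e2 ^ 2 - v| ≤ n * s2) →
    (k : F) * (gl (A : F) (nw v j) s1 s2 (e1 / (1 + s1 * e1 ^ 2)) (e2 / (1 + s2 * e2 ^ 2)) ^ 2 -
      v) ^ 2 ≤ s1 ∧
    (k : F) * (gl (A : F) (nw v j) s1 s2 (e1 / (1 + s1 * e1 ^ 2)) (e2 / (1 + s2 * e2 ^ 2)) ^ 2 -
      v) ^ 2 ≤ s2 := by
  -- the constants
  obtain ⟨C1, hC1⟩ : ∃ C1 : ℕ, C1 = n + 2 * (n + 1) ^ 2 := ⟨_, rfl⟩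
  obtain ⟨C3, hC3⟩ : ∃ C3 : ℕ, C3 = (n * C1 + 1 + 6 * n ^ 2) * (2 * (n + C1) +
    (n * C1 + 1 + 6 * n ^ 2)) + C1 := ⟨_, rfl⟩
  obtain ⟨D, hD⟩ : ∃ D : ℕ, D = k * C3 ^ 2 + 2 * n := ⟨_, rfl⟩
  have hD1 : 1 ≤ D := by omega
  obtain ⟨A, hA⟩ : ∃ A : ℕ, A = 4 * D ^ 2 * (D + n + 1) * (k + 1) * (2 * n + 3) := ⟨_, rfl⟩
  have hA1 : 1 ≤ A := by
    rw [hA]
    exact Nat.one_le_iff_ne_zero.mpr (by positivity)
  obtain ⟨M, hM⟩ : ∃ M : ℕ, M = 2 * n ^ 2 * A + 2 * D * (k + 1) := ⟨_, rfl⟩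
  have hM1 : 1 ≤ M := by
    rw [hM]
    have : 1 ≤ 2 * D * (k + 1) := Nat.one_le_iff_ne_zero.mpr (by positivity)
    omega
  refine ⟨A, 3 * n ^ 2 * M, ?_⟩
  intro F _ _ _ v s1 s2 e1 e2 hv1 hv2 hs1 hs1' hs2 hs2' h12 he1 he2
  have hnF : (1 : F) ≤ n := by exact_mod_cast hn
  have hAF : (1 : F) ≤ A := by exact_mod_cast hA1
  have hDF : (1 : F) ≤ D := by exact_mod_cast hD1
  have hMF : (1 : F) ≤ M := by exact_mod_cast hM1
  have hkF : (0 : F) ≤ k := Nat.cast_nonneg k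
  have hC1' : (C1 : F) = n + 2 * (n + 1) ^ 2 := by rw [hC1]; push_cast; ring
  have hC3' : (C3 : F) = (n * C1 + 1 + 6 * n ^ 2) * (2 * (n + C1) +
    (n * C1 + 1 + 6 * n ^ 2)) + C1 := by rw [hC3]; push_cast; ring
  have hD' : (D : F) = k * C3 ^ 2 + 2 * n := by rw [hD]; push_cast; ring
  have hA' : (A : F) = 4 * D ^ 2 * (D + n + 1) * (k + 1) * (2 * n + 3) := by
    rw [hA]; push_cast; ring
  have hM' : (M : F) = 2 * n ^ 2 * A + 2 * D * (k + 1) := by rw [hM]; push_cast; ring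
  obtain ⟨r1, r2, r3, r4⟩ := nw_spec hnF hv1 hv2 (3 * n ^ 2 * M)
  set r := nw v (3 * n ^ 2 * M) with hr
  have hv0 : 0 < v := by
    by_contra h
    push Not at h
    nlinarith
  -- `r² - v ≤ 1 / M`
  have hrM : r ^ 2 - v ≤ 1 / M := by
    have h1 : ((3 * n ^ 2 * M : ℕ) : F) ≤ 4 ^ (3 * n ^ 2 * M) := by
      exact_mod_cast (Nat.lt_pow_self (by norm_num : 1 < 4)).le
    have h2 : 0 ≤ r ^ 2 - v := by linarith
    have h3 : ((3 * n ^ 2 * M : ℕ) : F) * (r ^ 2 - v) ≤ 3 * n ^ 2 :=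
      (mul_le_mul_of_nonneg_right h1 h2).trans r4
    push_cast at h3
    rw [le_div_iff₀ (by linarith)]
    have h4 : (3 * (n : F) ^ 2) * ((r ^ 2 - v) * M) ≤ (3 * (n : F) ^ 2) * 1 := by
      calc (3 * (n : F) ^ 2) * ((r ^ 2 - v) * M) = 3 * (n : F) ^ 2 * M * (r ^ 2 - v) := by ring
        _ ≤ 3 * (n : F) ^ 2 := h3
        _ = (3 * (n : F) ^ 2) * 1 := by ring
    exact le_of_mul_le_mul_left h4 (by positivity)
  have hnr : 1 ≤ (n : F) * r := by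
    by_contra h
    push Not at h
    have h1 : (n : F) * r ^ 2 < 1 := by
      have h2 : (n : F) * r ^ 2 ≤ ((n : F) * r) * ((n : F) * r) := by nlinarith
      have h3 : ((n : F) * r) * ((n : F) * r) < 1 := by
        have h4 : 0 < (n : F) * r := by positivity
        nlinarith
      linarith
    nlinarith
  have hC1F : (1 : F) ≤ C1 := by rw [hC1']; nlinarith
  have hkC : (k : F) * C3 ^ 2 ≤ D := by rw [hD']; linarith
  have h2nD : 2 * (n : F) ≤ D := by rw [hD']; nlinarith [mul_nonneg hkF (sq_nonneg (C3 : F))]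
  have hεA : 2 * (n : F) ^ 2 * A * (1 / M) ≤ 1 := by
    rw [mul_one_div, div_le_one (by linarith), hM']
    nlinarith
  have hE1b := E_bdd (e := e1) hs1
  have hE2b := E_bdd (e := e2) hs2
  by_cases c1 : (D : F) * s1 ≤ 1
  · -- near `s1 = 0`
    have hδ : 2 * (n : F) * s1 ≤ 1 := (mul_le_mul_of_nonneg_right h2nD hs1.le).trans c1
    have hns : (n : F) * s1 ≤ 1 := by nlinarith
    obtain ⟨g1, g2⟩ := he1 hns
    obtain ⟨l1, l2⟩ := E_loc hnF hv2 hs1 hns g1 g2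
    rw [← hC1'] at l2
    have key := near hnF hAF hv2 hs1 hs2 h12 hδ r1 hnr r3 r2 hrM l1 hC1F l2 hE2b hεA
    rw [← hC3'] at key
    exact fin_near hkF key hkC hs1 c1 (by linarith) hδ h12
  by_cases c2 : (D : F) * s2 ≤ 1
  · -- near `s2 = 0`
    have hδ : 2 * (n : F) * s2 ≤ 1 := (mul_le_mul_of_nonneg_right h2nD hs2.le).trans c2
    have hns : (n : F) * s2 ≤ 1 := by nlinarith
    obtain ⟨g1, g2⟩ := he2 hns
    obtain ⟨l1, l2⟩ := E_loc hnF hv2 hs2 hns g1 g2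
    rw [← hC1'] at l2
    have h21 : 1 ≤ (n : F) * (s2 + s1) := by rw [add_comm]; exact h12
    have key := near hnF hAF hv2 hs2 hs1 h21 hδ r1 hnr r3 r2 hrM l1 hC1F l2 hE1b hεA
    rw [← hC3'] at key
    rw [gl_symm]
    exact (fin_near hkF key hkC hs2 c2 (by linarith) hδ h21).symm
  push Not at c1 c2
  -- far from both
  have hk1 : (0 : F) < k + 1 := by linarith
  have hn3 : (0 : F) < 2 * n + 3 := by linarith
  have hD0 : (0 : F) < D := by linarith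
  have key := far (n := (n : F)) (A := (A : F)) (v := v) (D := (D : F)) (ε := 1 / M)
    (η := 1 / (2 * D * (k + 1) * (2 * n + 3))) hnF hAF hDF hs1 hs2 hs1' hs2' c1.le c2.le r1 r3 r2
    hrM hE1b hE2b (by
      rw [hA']
      apply le_of_eq
      field_simp
      ring) (by
      rw [div_le_one (by positivity)]
      have h1 : 1 ≤ (D : F) * (k + 1) := by nlinarith
      nlinarith)
  have hx : (D : F) * (k + 1) * |gl (A : F) r s1 s2 (e1 / (1 + s1 * e1 ^ 2))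
      (e2 / (1 + s2 * e2 ^ 2)) ^ 2 - v| ≤ 1 := by
    have h1 : (D : F) * (k + 1) * (1 / (2 * D * (k + 1) * (2 * n + 3)) * (2 * n + 3)) = 1 / 2 := by
      field_simp
    have h2 : (D : F) * (k + 1) * (1 / M) ≤ 1 / 2 := by
      rw [mul_one_div, div_le_div_iff₀ (by linarith) (by norm_num), hM']
      have h3 : 0 ≤ 2 * (n : F) ^ 2 * A := by positivity
      nlinarith
    calc (D : F) * (k + 1) * |gl (A : F) r s1 s2 (e1 / (1 + s1 * e1 ^ 2))
          (e2 / (1 + s2 * e2 ^ 2)) ^ 2 - v|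
        ≤ (D : F) * (k + 1) * (1 / (2 * D * (k + 1) * (2 * n + 3)) * (2 * n + 3) + 1 / M) :=
          mul_le_mul_of_nonneg_left key (by positivity)
      _ = (D : F) * (k + 1) * (1 / (2 * D * (k + 1) * (2 * n + 3)) * (2 * n + 3)) +
          (D : F) * (k + 1) * (1 / M) := by ring
      _ ≤ 1 := by rw [h1]; linarith
  exact ⟨fin_far hkF hDF hx c1.le, fin_far hkF hDF hx c2.le⟩

end Patch

open Patch in
/-- PATCH -/
theorem patch {F : Type} [Field F] {v s1 s2 : F} (hv : Unt v)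
    (hs : ∃ n : ℕ, ∀ (_ : LinearOrder F) (_ : IsStrictOrderedRing F),
      0 < s1 ∧ s1 ≤ 1 ∧ 0 < s2 ∧ s2 ≤ 1 ∧ 1 ≤ (n : F) * (s1 + s2))
    (h1 : Loc v s1) (h2 : Loc v s2) (k : ℕ) :
    ∃ f : F, ∀ (_ : LinearOrder F) (_ : IsStrictOrderedRing F),
      (k : F) * (f ^ 2 - v) ^ 2 ≤ s1 ∧ (k : F) * (f ^ 2 - v) ^ 2 ≤ s2 := by
  obtain ⟨n0, hv⟩ := hv
  obtain ⟨n1, hs⟩ := hs
  obtain ⟨e1, m1, he1⟩ := h1
  obtain ⟨e2, m2, he2⟩ := h2
  obtain ⟨A, j, h⟩ := core (n0 + n1 + m1 + m2 + 1) k (by omega)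
  refine ⟨gl (A : F) (nw v j) s1 s2 (e1 / (1 + s1 * e1 ^ 2)) (e2 / (1 + s2 * e2 ^ 2)), ?_⟩
  intro i1 i2
  obtain ⟨a1, a2⟩ := hv i1 i2
  obtain ⟨b1, b2, b3, b4, b5⟩ := hs i1 i2
  have hn0 : (0 : F) ≤ n0 := Nat.cast_nonneg _
  have hn1 : (0 : F) ≤ n1 := Nat.cast_nonneg _
  have hm1 : (0 : F) ≤ m1 := Nat.cast_nonneg _
  have hm2 : (0 : F) ≤ m2 := Nat.cast_nonneg _
  have hv0 : 0 < v := by
    by_contra hc
    push Not at hc
    nlinarith
  have hc : ((n0 + n1 + m1 + m2 + 1 : ℕ) : F) = n0 + n1 + m1 + m2 + 1 := by push_cast; ring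
  refine h F v s1 s2 e1 e2 ?_ ?_ b1 b2 b3 b4 ?_ ?_ ?_
  · rw [hc]
    nlinarith [mul_nonneg hn1 hv0.le, mul_nonneg hm1 hv0.le, mul_nonneg hm2 hv0.le]
  · rw [hc]
    linarith
  · rw [hc]
    have h3 : 0 < s1 + s2 := by linarith
    nlinarith [mul_nonneg hn0 h3.le, mul_nonneg hm1 h3.le, mul_nonneg hm2 h3.le]
  · intro h3
    rw [hc] at h3 ⊢
    have h4 : (m1 : F) * s1 ≤ (n0 + n1 + m1 + m2 + 1) * s1 :=
      mul_le_mul_of_nonneg_right (by linarith) b1.le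
    obtain ⟨h5, h6⟩ := he1 i1 i2 (h4.trans h3)
    exact ⟨h5, h6.trans h4⟩
  · intro h3
    rw [hc] at h3 ⊢
    have h4 : (m2 : F) * s2 ≤ (n0 + n1 + m1 + m2 + 1) * s2 :=
      mul_le_mul_of_nonneg_right (by linarith) b3.le
    obtain ⟨h5, h6⟩ := he2 i1 i2 (h4.trans h3)
    exact ⟨h5, h6.trans h4⟩

end Pool.Agent.HPY
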