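import Pool.Agent.HPY.Defs
import Pool.Agent.HPY.AV

set_option autoImplicit false

namespace Pool.Agent.HPY

open Filter

section ord

variable {K F : Type} [Field K] [Field F] [Algebra K F] {O : ValuationSubring K}

/-- sum of the squares of a list -/
def sqs (l : List F) : F := (l.map fun a => a ^ 2).sum

theorem sqs_nil : sqs ([] : List F) = 0 := rfl

theorem sqs_cons (a : F) (l : List F) : sqs (a :: l) = a ^ 2 + sqs l := by
  simp [sqs]

theorem sqs_nonneg [LinearOrder F] [IsStrictOrderedRing F] (l : List F) : 0 ≤ sqs l := by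
  induction l with
  | nil => exact le_of_eq sqs_nil.symm
  | cons a l ih =>
    rw [sqs_cons]
    exact add_nonneg (sq_nonneg a) ih

theorem exists_list {t : F} (ht : IsSumSq t) : ∃ l : List F, t = sqs l := by
  induction ht with
  | zero => exact ⟨[], sqs_nil.symm⟩
  | sq_add a hs ih =>
    obtain ⟨l, hl⟩ := ih
    exact ⟨a :: l, by rw [sqs_cons, ← hl, sq]⟩

theorem two_list (h : HP K O) (hF : FF1 K F) : ∀ (m : ℕ) (l : List F), l.length ≤ m →
    ∃ b1 b2 : F, ∃ n : ℕ, ∀ (_ : LinearOrder F) (_ : IsStrictOrderedRing F),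
      sqs l ≤ n * (b1 ^ 2 + b2 ^ 2) ∧ b1 ^ 2 + b2 ^ 2 ≤ n * sqs l := by
  intro m
  induction m with
  | zero =>
    intro l hl
    have : l = [] := List.length_eq_zero_iff.1 (Nat.le_zero.1 hl)
    subst this
    refine ⟨0, 0, 1, fun _ _ => ?_⟩
    rw [sqs_nil]
    simp
  | succ m ih =>
    intro l hl
    match l, hl with
    | [], _ =>
      refine ⟨0, 0, 1, fun _ _ => ?_⟩
      rw [sqs_nil]
      simp
    | [a], _ =>
      refine ⟨a, 0, 1, fun _ _ => ?_⟩
      rw [sqs_cons, sqs_nil]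
      simp
    | [a, b], _ =>
      refine ⟨a, b, 1, fun _ _ => ?_⟩
      rw [sqs_cons, sqs_cons, sqs_nil]
      simp
    | a :: b :: e :: l', hl =>
      by_cases he : e = 0
      · obtain ⟨b1, b2, n, hn⟩ := ih (a :: b :: l') (by simp at hl ⊢; omega)
        refine ⟨b1, b2, n, fun ho hs => ?_⟩
        have := hn ho hs
        rw [sqs_cons, sqs_cons] at this
        rw [sqs_cons, sqs_cons, sqs_cons, he, zero_pow two_ne_zero, zero_add]
        exact this
      · obtain ⟨c, hc⟩ := (avoid h hF (a / e) (b / e)).exists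
        obtain ⟨d, n0, h0⟩ := hc.exists
        obtain ⟨C, hC⟩ := exists_nat_ge (c ^ 2 + d ^ 2)
        obtain ⟨b1, b2, n, hn⟩ := ih ((a - d * e) :: (b - c * e) :: l') (by simp at hl ⊢; omega)
        refine ⟨b1, b2, n * (2 + (2 * C + 1) * n0) + n * (2 + 2 * C), fun ho hs => ?_⟩
        have hC' : (c : F) ^ 2 + (d : F) ^ 2 ≤ (C : F) := by
          have h4 : ((c ^ 2 + d ^ 2 : ℚ) : F) ≤ ((C : ℚ) : F) := Rat.cast_le.2 hC
          push_cast at h4
          exact h4
        have hq := hn ho hs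
        rw [sqs_cons, sqs_cons] at hq
        rw [sqs_cons, sqs_cons, sqs_cons]
        set S : F := sqs l' with hS
        have hS0 : 0 ≤ S := sqs_nonneg l'
        set a' : F := a - d * e with ha'
        set b' : F := b - c * e with hb'
        have hcoef : (0 : F) ≤ n := Nat.cast_nonneg n
        have hn0 : (0 : F) ≤ n0 := Nat.cast_nonneg n0
        have hCn : (0 : F) ≤ C := Nat.cast_nonneg C
        have he2 : 0 ≤ e ^ 2 := sq_nonneg e
        have ha2 := sq_nonneg a'
        have hb2 := sq_nonneg b'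
        have h5 : e ^ 2 ≤ (n0 : F) * (b' ^ 2 + a' ^ 2) := by
          have h6 := mul_le_mul_of_nonneg_right (h0 ho hs) he2
          have e1 : (n0 : F) * ((b / e - c) ^ 2 + (a / e - d) ^ 2) * e ^ 2 =
              (n0 : F) * (b' ^ 2 + a' ^ 2) := by
            rw [ha', hb']
            field_simp
          rw [one_mul, e1] at h6
          exact h6
        -- a² + b² + e² + S ≤ N1 (a'² + b'² + S)
        have hcd : (c : F) ^ 2 * e ^ 2 + (d : F) ^ 2 * e ^ 2 ≤ C * e ^ 2 := by
          rw [← add_mul]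
          exact mul_le_mul_of_nonneg_right hC' he2
        have h7 : a ^ 2 + b ^ 2 ≤ 2 * (a' ^ 2 + b' ^ 2) + 2 * (C * e ^ 2) := by
          have e2 : a = a' + d * e := by rw [ha']; ring
          have e3 : b = b' + c * e := by rw [hb']; ring
          rw [e2, e3]
          nlinarith [sq_nonneg (a' - d * e), sq_nonneg (b' - c * e)]
        have h8 : a' ^ 2 + b' ^ 2 ≤ 2 * (a ^ 2 + b ^ 2) + 2 * (C * e ^ 2) := by
          rw [ha', hb']
          nlinarith [sq_nonneg (a + d * e), sq_nonneg (b + c * e)]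
        set q' : F := a' ^ 2 + (b' ^ 2 + S) with hq'
        have hq0 : 0 ≤ q' := by positivity
        have h9 : a ^ 2 + (b ^ 2 + (e ^ 2 + S)) ≤ (2 + (2 * C + 1) * n0) * q' := by
          have h10 : (2 * (C : F) + 1) * e ^ 2 ≤ (2 * C + 1) * ((n0 : F) * (b' ^ 2 + a' ^ 2)) :=
            mul_le_mul_of_nonneg_left h5 (by positivity)
          have h11 : 0 ≤ (2 * (C : F) + 1) * n0 * S := by positivity
          have e4 : (2 + (2 * (C : F) + 1) * n0) * q' = 2 * (a' ^ 2 + b' ^ 2) + 2 * S +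
              (2 * C + 1) * ((n0 : F) * (b' ^ 2 + a' ^ 2)) + (2 * (C : F) + 1) * n0 * S := by
            rw [hq']; ring
          rw [e4]
          linarith
        have h12 : q' ≤ (2 + 2 * C) * (a ^ 2 + (b ^ 2 + (e ^ 2 + S))) := by
          have h13 : 0 ≤ (2 * (C : F)) * (a ^ 2 + b ^ 2) := by positivity
          have h14 : 0 ≤ (2 * (C : F)) * S := by positivity
          have e5 : (2 + 2 * (C : F)) * (a ^ 2 + (b ^ 2 + (e ^ 2 + S))) =
              2 * (a ^ 2 + b ^ 2) + 2 * e ^ 2 + 2 * S + (2 * (C : F)) * (a ^ 2 + b ^ 2) +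
                2 * (C * e ^ 2) + (2 * (C : F)) * S := by ring
          rw [e5, hq']
          linarith
        have hB : 0 ≤ b1 ^ 2 + b2 ^ 2 := by positivity
        have hQ : 0 ≤ a ^ 2 + (b ^ 2 + (e ^ 2 + S)) := by positivity
        have hN1 : (0 : F) ≤ 2 + (2 * C + 1) * n0 := by positivity
        have hN2 : (0 : F) ≤ 2 + 2 * C := by positivity
        push_cast
        constructor
        · calc a ^ 2 + (b ^ 2 + (e ^ 2 + S)) ≤ (2 + (2 * C + 1) * n0) * q' := h9
            _ ≤ (2 + (2 * C + 1) * n0) * (n * (b1 ^ 2 + b2 ^ 2)) :=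
                mul_le_mul_of_nonneg_left hq.1 hN1
            _ ≤ _ := by
                have : 0 ≤ (n : F) * (2 + 2 * C) * (b1 ^ 2 + b2 ^ 2) := by positivity
                linarith
        · calc b1 ^ 2 + b2 ^ 2 ≤ n * q' := hq.2
            _ ≤ n * ((2 + 2 * C) * (a ^ 2 + (b ^ 2 + (e ^ 2 + S)))) :=
                mul_le_mul_of_nonneg_left h12 hcoef
            _ ≤ _ := by
                have : 0 ≤ (n : F) * (2 + (2 * C + 1) * n0) *
                    (a ^ 2 + (b ^ 2 + (e ^ 2 + S))) := by positivity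
                linarith

/-- TWO -/
theorem two (h : HP K O) (hF : FF1 K F) {t : F} (ht : IsSumSq t) (h0 : t ≠ 0) :
    ∃ b1 b2 : F, (b1 ≠ 0 ∨ b2 ≠ 0) ∧ ∃ n : ℕ,
    ∀ (_ : LinearOrder F) (_ : IsStrictOrderedRing F),
      t ≤ n * (b1 ^ 2 + b2 ^ 2) ∧ b1 ^ 2 + b2 ^ 2 ≤ n * t := by
  obtain ⟨l, rfl⟩ := exists_list ht
  obtain ⟨b1, b2, n, hn⟩ := two_list h hF l.length l le_rfl
  by_cases hb : b1 ≠ 0 ∨ b2 ≠ 0
  · exact ⟨b1, b2, hb, n, hn⟩
  · push Not at hb
    refine ⟨1, 0, Or.inl one_ne_zero, 0, fun ho hs => ?_⟩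
    exfalso
    have h1 := (hn ho hs).1
    rw [hb.1, hb.2] at h1
    have h2 : sqs l ≤ 0 := by
      refine h1.trans (le_of_eq ?_)
      ring
    exact h0 (le_antisymm h2 (sqs_nonneg l))

end ord

end Pool.Agent.HPY
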