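import Pool.Agent.HPY.ART
import Pool.Agent.HPY.SG
import Pool.Agent.HPY.INEQ
import Pool.Agent.HPY.PATCH
import Pool.Agent.HPY.AV2
import Pool.Agent.HPY.TWO
import Pool.Agent.HPY.LCL
import Pool.Agent.HPY.HENS

/-! Project HPY, row ASM: the main theorem from the rows. -/

set_option autoImplicit false

namespace Pool.Agent.HPY

open Filter

section

variable {K F : Type} [Field K] [Field F] [Algebra K F] {O : ValuationSubring K}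

theorem charZero_F (h : HP K O) (F : Type) [Field F] [Algebra K F] : CharZero F := by
  apply charZero_of_inj_zero
  intro n hn
  by_contra h0
  apply h.char n h0
  have h2 : algebraMap K F (n : K) = 0 := by rw [map_natCast]; exact hn
  rwa [map_eq_zero] at h2

theorem isSquare_nat (h : HP K O) (F : Type) [Field F] [Algebra K F] (n : ℕ) :
    IsSquare (n : F) := by
  obtain ⟨r, hr⟩ := h.ratsq n
  exact ⟨algebraMap K F r, by rw [← map_mul, ← hr, map_natCast]⟩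

theorem isSquare_rat (h : HP K O) (F : Type) [Field F] [Algebra K F] (q : ℚ) :
    ∃ r : F, r ^ 2 = 1 + (q : F) ^ 2 ∧ r ≠ 0 := by
  have := charZero_F h F
  obtain ⟨s, hs⟩ := isSquare_nat h F (q.num.natAbs ^ 2 + q.den ^ 2)
  have hden : (q.den : F) ≠ 0 := by exact_mod_cast q.den_ne_zero
  have hnum : ((q.num.natAbs : F)) ^ 2 = (q.num : F) ^ 2 := by
    have h3 : (((q.num.natAbs : ℕ) : ℤ)) ^ 2 = q.num ^ 2 := Int.natAbs_sq q.num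
    have h4 : ((((q.num.natAbs : ℕ) : ℤ) ^ 2 : ℤ) : F) = ((q.num ^ 2 : ℤ) : F) := by rw [h3]
    rw [Int.cast_pow, Int.cast_pow, Int.cast_natCast] at h4
    exact h4
  have hq : (q : F) = (q.num : F) / (q.den : F) := by
    rw [Rat.cast_def]
  have h1 : (s / q.den) ^ 2 = 1 + (q : F) ^ 2 := by
    rw [div_pow, sq s, ← hs, hq]
    push_cast
    rw [hnum]
    field_simp
    ring
  refine ⟨s / q.den, h1, ?_⟩
  intro h0
  rw [h0] at h1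
  have h2 : (1 : ℚ) + q ^ 2 = 0 := by
    have : ((1 + q ^ 2 : ℚ) : F) = 0 := by
      push_cast
      rw [← h1]
      simp
    exact_mod_cast this
  have := sq_nonneg q
  linarith

end

section pure

variable {F : Type} [Field F]

/-- nonreal case -/
theorem main_nonreal (h2 : (2 : F) ≠ 0) (hn : IsSumSq (-1 : F)) (t1 t2 : F) :
    ∃ t : F, t ≠ 0 ∧ IsSumSq t ∧ (∃ x y : F, t1 = x ^ 2 + t * y ^ 2) ∧
      (∃ x y : F, t2 = x ^ 2 + t * y ^ 2) := by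
  refine ⟨-1, by simp, hn, ⟨(t1 + 1) / 2, (t1 - 1) / 2, ?_⟩, ⟨(t2 + 1) / 2, (t2 - 1) / 2, ?_⟩⟩
  · field_simp; ring
  · field_simp; ring

/-- the algebraic identity at the end -/
theorem final_id {w P Q t1 t2 : F} (h2 : (2 : F) ≠ 0) (hw : w ≠ 0) (hP : P ≠ 0) (hQ : Q ≠ 0) :
    t1 = (((w ^ 2 + P ^ 2 * t1 - Q ^ 2 * t2) / 2) / (P * w)) ^ 2 +
      (w ^ 2 * (P ^ 2 * t1) - ((w ^ 2 + P ^ 2 * t1 - Q ^ 2 * t2) / 2) ^ 2) * (1 / (P * w)) ^ 2 ∧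
    t2 = ((w ^ 2 - ((w ^ 2 + P ^ 2 * t1 - Q ^ 2 * t2) / 2)) / (Q * w)) ^ 2 +
      (w ^ 2 * (P ^ 2 * t1) - ((w ^ 2 + P ^ 2 * t1 - Q ^ 2 * t2) / 2) ^ 2) * (1 / (Q * w)) ^ 2 := by
  constructor
  · field_simp; ring
  · field_simp; ring

/-- from a strict triangle to the form `⟨1, t⟩` -/
theorem of_triangle (hF : ∃ (_ : LinearOrder F) (_ : IsStrictOrderedRing F), True)
    {w P Q t1 t2 : F}
    (H : TPos (4 * w ^ 2 * (P ^ 2 * t1) - (w ^ 2 + P ^ 2 * t1 - Q ^ 2 * t2) ^ 2)) :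
    ∃ t : F, t ≠ 0 ∧ IsSumSq t ∧ (∃ x y : F, t1 = x ^ 2 + t * y ^ 2) ∧
      (∃ x y : F, t2 = x ^ 2 + t * y ^ 2) := by
  obtain ⟨lo, so, -⟩ := hF
  have h2 : (2 : F) ≠ 0 := by norm_num
  have H0 := H lo so
  have hw : w ≠ 0 := by
    rintro rfl
    nlinarith [sq_nonneg (0 ^ 2 + P ^ 2 * t1 - Q ^ 2 * t2)]
  have hP : P ≠ 0 := by
    rintro rfl
    nlinarith [sq_nonneg (w ^ 2 + 0 ^ 2 * t1 - Q ^ 2 * t2)]
  have hQ : Q ≠ 0 := by
    rintro rfl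
    nlinarith [sq_nonneg (w ^ 2 - P ^ 2 * t1)]
  set t := w ^ 2 * (P ^ 2 * t1) - ((w ^ 2 + P ^ 2 * t1 - Q ^ 2 * t2) / 2) ^ 2 with ht
  have hT : TPos t := by
    intro lo' so'
    have H1 := H lo' so'
    rw [ht]
    have e : w ^ 2 * (P ^ 2 * t1) - ((w ^ 2 + P ^ 2 * t1 - Q ^ 2 * t2) / 2) ^ 2 =
      (4 * w ^ 2 * (P ^ 2 * t1) - (w ^ 2 + P ^ 2 * t1 - Q ^ 2 * t2) ^ 2) / 4 := by ring
    rw [e]
    positivity
  obtain ⟨e1, e2⟩ := final_id (t1 := t1) (t2 := t2) h2 hw hP hQ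
  refine ⟨t, ?_, art h2 hT, ⟨_, _, e1⟩, ⟨_, _, e2⟩⟩
  have := hT lo so
  exact this.ne'

theorem ev_neg {P : ℚ → Prop} (h : ∀ᶠ τ : ℚ in cofinite, P τ) : ∀ᶠ σ : ℚ in cofinite, P (-σ) :=
  (neg_injective.tendsto_cofinite).eventually h

theorem ev_mob (τ : ℚ) {P : ℚ → Prop} (h : ∀ᶠ τ' : ℚ in cofinite, P τ') :
    ∀ᶠ σ : ℚ in cofinite, 1 + σ * τ ≠ 0 → P ((τ - σ) / (1 + σ * τ)) := by
  rw [Filter.eventually_cofinite] at h ⊢
  have hinj : Set.InjOn (fun σ : ℚ => (τ - σ) / (1 + σ * τ))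
      ((fun σ : ℚ => (τ - σ) / (1 + σ * τ)) ⁻¹' {x | ¬ P x} ∩ {σ | 1 + σ * τ ≠ 0}) := by
    intro a ha b hb hab
    have ha' : 1 + a * τ ≠ 0 := ha.2
    have hb' : 1 + b * τ ≠ 0 := hb.2
    simp only at hab
    rw [div_eq_div_iff ha' hb'] at hab
    have h3 : (a - b) * (1 + τ ^ 2) = 0 := by linear_combination -hab
    have h4 : (1 + τ ^ 2) ≠ 0 := by positivity
    have h5 := (mul_eq_zero.mp h3).resolve_right h4
    linarith
  refine Set.Finite.subset (Set.Finite.of_finite_image (s := ((fun σ : ℚ => (τ - σ) / (1 + σ * τ)) ⁻¹' {x | ¬ P x} ∩ {σ | 1 + σ * τ ≠ 0})) (f := fun σ : ℚ => (τ - σ) / (1 + σ * τ)) ?_ hinj) ?_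
  · exact h.subset (by rintro _ ⟨x, hx, rfl⟩; exact hx.1)
  · intro σ hσ
    simp only [Set.mem_ofPred_eq, Classical.not_imp] at hσ
    exact ⟨hσ.2, hσ.1⟩

theorem ev_den (τ : ℚ) : ∀ᶠ σ : ℚ in cofinite, 1 + σ * τ ≠ 0 := by
  rw [Filter.eventually_cofinite]
  refine Set.Finite.subset (Set.finite_singleton (-1 / τ)) ?_
  intro σ hσ
  simp only [Set.mem_ofPred_eq, not_not] at hσ
  rw [Set.mem_singleton_iff]
  rcases eq_or_ne τ 0 with rfl | h0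
  · simp at hσ
  · field_simp
    linarith

theorem ev_ne [CharZero F] {x y : F} (h : x ≠ 0 ∨ y ≠ 0) : ∀ᶠ τ : ℚ in cofinite, y ≠ (τ : F) * x := by
  rw [Filter.eventually_cofinite]
  rcases eq_or_ne x 0 with rfl | hx
  · have hy : y ≠ 0 := by simpa using h
    refine Set.Finite.subset Set.finite_empty ?_
    intro τ hτ
    simp only [Set.mem_ofPred_eq, not_not] at hτ
    exact hy (by simpa using hτ)
  · have : Set.Subsingleton {τ : ℚ | ¬ y ≠ (τ : F) * x} := by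
      intro a ha b hb
      simp only [Set.mem_ofPred_eq, not_not] at ha hb
      have : (a : F) = b := mul_right_cancel₀ hx (ha.symm.trans hb)
      exact_mod_cast this
    exact this.finite

theorem sq_add_pos {x y : F} (h : x ≠ 0 ∨ y ≠ 0) : TPos (x ^ 2 + y ^ 2) := by
  intro lo so
  rcases h with h | h
  · have := sq_nonneg y
    have : 0 < x ^ 2 := by positivity
    linarith
  · have := sq_nonneg x
    have : 0 < y ^ 2 := by positivity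
    linarith

theorem unt_div {t b1 b2 : F} {n : ℕ}
    (h : ∀ (_ : LinearOrder F) (_ : IsStrictOrderedRing F),
      t ≤ n * (b1 ^ 2 + b2 ^ 2) ∧ b1 ^ 2 + b2 ^ 2 ≤ n * t) (ht : TPos t) :
    ∀ (_ : LinearOrder F) (_ : IsStrictOrderedRing F),
      1 ≤ (n : F) * ((b1 ^ 2 + b2 ^ 2) / t) ∧ (b1 ^ 2 + b2 ^ 2) / t ≤ n := by
  intro lo so
  obtain ⟨h1, h2⟩ := h lo so
  have h3 := ht lo so
  constructor
  · rw [mul_div_assoc', le_div_iff₀ h3]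
    linarith
  · rw [div_le_iff₀ h3]
    exact h2

theorem sg_pos {τ x y : F} (hxy : x ≠ 0 ∨ y ≠ 0) (h : y ≠ τ * x) : TPos (sg τ x y) := by
  intro lo so
  obtain ⟨h1, h2, h3⟩ := sg_bdd lo so τ x y
  exact lt_of_le_of_ne h1 (fun h0 => h (h3 h0.symm hxy))

end pure

section

variable {K F : Type} [Field K] [Field F] [Algebra K F] {O : ValuationSubring K}

theorem tpos_sumsq {t : F} (ht : IsSumSq t) (h0 : t ≠ 0) : TPos t := by
  intro lo so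
  exact lt_of_le_of_ne ht.nonneg h0.symm

/-- the key step: from the patched functions to the strict triangle -/
theorem triangle_pos {n k n1 n2 : ℕ}
    (hk : ∀ (F : Type) [Field F] [LinearOrder F] [IsStrictOrderedRing F]
      (W A B r1 r2 : F), 0 < W → W ≤ 1 → 0 < A → A ≤ 1 → 0 < B → B ≤ 1 →
      4 * W * A - (W + A - B) ^ 2 = 4 * W * A * B → 1 ≤ (n : F) * (A + B) →
      (k : F) * (r1 - 1) ^ 2 ≤ B → (k : F) * (r1 - 1) ^ 2 ≤ W →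
      (k : F) * (r2 - 1) ^ 2 ≤ A → (k : F) * (r2 - 1) ^ 2 ≤ W →
      0 < 4 * W * (r1 * A) - (W + r1 * A - r2 * B) ^ 2)
    [LinearOrder F] [IsStrictOrderedRing F] {W A B v1 v2 f1 f2 : F}
    (hW : 0 < W) (hW1 : W ≤ 1) (hA : 0 < A) (hA1 : A ≤ 1) (hB : 0 < B) (hB1 : B ≤ 1)
    (hid : 4 * W * A - (W + A - B) ^ 2 = 4 * W * A * B) (hn : 1 ≤ (n : F) * (A + B))
    (hv1 : 0 < v1) (hv2 : 0 < v2)
    (hn1 : 1 ≤ (n1 : F) * v1) (hn2 : 1 ≤ (n2 : F) * v2)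
    (h1B : ((k * n1 ^ 2 : ℕ) : F) * (f1 ^ 2 - v1) ^ 2 ≤ B)
    (h1W : ((k * n1 ^ 2 : ℕ) : F) * (f1 ^ 2 - v1) ^ 2 ≤ W)
    (h2A : ((k * n2 ^ 2 : ℕ) : F) * (f2 ^ 2 - v2) ^ 2 ≤ A)
    (h2W : ((k * n2 ^ 2 : ℕ) : F) * (f2 ^ 2 - v2) ^ 2 ≤ W) :
    0 < 4 * W * (f1 ^ 2 / v1 * A) - (W + f1 ^ 2 / v1 * A - f2 ^ 2 / v2 * B) ^ 2 := by
  have key : ∀ (n' : ℕ) (v f : F), 0 < v → 1 ≤ (n' : F) * v →
      (k : F) * (f ^ 2 / v - 1) ^ 2 ≤ ((k * n' ^ 2 : ℕ) : F) * (f ^ 2 - v) ^ 2 := by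
    intro n' v f hv hn'
    have e : f ^ 2 / v - 1 = (f ^ 2 - v) / v := by field_simp
    rw [e, div_pow]
    push_cast
    rw [mul_assoc]
    apply mul_le_mul_of_nonneg_left _ (Nat.cast_nonneg k)
    rw [div_le_iff₀ (by positivity)]
    have h3 : 1 ≤ (n' : F) ^ 2 * v ^ 2 := by
      have : 1 ≤ ((n' : F) * v) ^ 2 := one_le_pow₀ hn'
      rwa [mul_pow] at this
    nlinarith [sq_nonneg (f ^ 2 - v)]
  apply hk F W A B _ _ hW hW1 hA hA1 hB hB1 hid hn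
  · exact (key n1 v1 f1 hv1 hn1).trans h1B
  · exact (key n1 v1 f1 hv1 hn1).trans h1W
  · exact (key n2 v2 f2 hv2 hn2).trans h2A
  · exact (key n2 v2 f2 hv2 hn2).trans h2W

/-- ASM: the main theorem -/
theorem main (h : HP K O) (hF : FF1 K F) {t1 t2 : F} (h1 : IsSumSq t1) (h10 : t1 ≠ 0)
    (h2 : IsSumSq t2) (h20 : t2 ≠ 0) :
    ∃ t : F, t ≠ 0 ∧ IsSumSq t ∧ (∃ x y : F, t1 = x ^ 2 + t * y ^ 2) ∧
      (∃ x y : F, t2 = x ^ 2 + t * y ^ 2) := by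
  have hch := charZero_F h F
  have h2F : (2 : F) ≠ 0 := two_ne_zero
  by_cases hr : ∃ (_ : LinearOrder F) (_ : IsStrictOrderedRing F), True
  swap
  · apply main_nonreal h2F
    apply art h2F
    intro lo so
    exact absurd ⟨lo, so, trivial⟩ hr
  obtain ⟨lo0, so0, -⟩ := hr
  obtain ⟨b1, b2, hb, nb, hb'⟩ := two h hF h1 h10
  obtain ⟨c1, c2, hc, nc, hc'⟩ := two h hF h2 h20
  have T1 := tpos_sumsq h1 h10
  have T2 := tpos_sumsq h2 h20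
  have Pb := sq_add_pos hb
  have Pc := sq_add_pos hc
  have hb0 : b1 ^ 2 + b2 ^ 2 ≠ 0 := (Pb lo0 so0).ne'
  have hc0 : c1 ^ 2 + c2 ^ 2 ≠ 0 := (Pc lo0 so0).ne'
  have U1 := unt_div hb' T1
  have U2 := unt_div hc' T2
  set v1 := (b1 ^ 2 + b2 ^ 2) / t1 with hv1
  set v2 := (c1 ^ 2 + c2 ^ 2) / t2 with hv2
  have V1 : Unt v1 := ⟨nb, U1⟩
  have V2 : Unt v2 := ⟨nc, U2⟩
  -- the choice of `τ`
  obtain ⟨τ, hτ1, hτ2, hτ3⟩ := ((avoid2 h hF hb hc).and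
    ((local_ h hF V1 hb).and (ev_ne hb))).exists
  set X := b1 * c1 + b2 * c2 with hX
  set Y := b1 * c2 - b2 * c1 with hY
  have hXY2 : X ^ 2 + Y ^ 2 = (b1 ^ 2 + b2 ^ 2) * (c1 ^ 2 + c2 ^ 2) := by rw [hX, hY]; ring
  have hXY : X ≠ 0 ∨ Y ≠ 0 := by
    by_contra hcon
    push Not at hcon
    rw [hcon.1, hcon.2] at hXY2
    have : (b1 ^ 2 + b2 ^ 2) * (c1 ^ 2 + c2 ^ 2) ≠ 0 := mul_ne_zero hb0 hc0
    apply this
    rw [← hXY2]
    ring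
  -- the choice of `σ`
  obtain ⟨σ, hσ0, hσ1, hσ2, hσ3, hσ4, hσ5, hσ6⟩ := ((ev_den τ).and ((ev_mob τ hτ1).and
    ((ev_mob τ (local_ h hF V2 hc)).and ((ev_mob τ (ev_ne hc)).and
    ((ev_neg (local_ h hF V1 hXY)).and ((ev_neg (local_ h hF V2 hXY)).and
      (ev_neg (ev_ne hXY)))))))).exists
  have hσ1 := hσ1 hσ0
  have hσ2 := hσ2 hσ0
  have hσ3 := hσ3 hσ0
  set τ' : ℚ := (τ - σ) / (1 + σ * τ) with hτ'
  have cτ' : ((τ' : ℚ) : F) = ((τ : F) - σ) / (1 + σ * τ) := by rw [hτ']; push_cast; rfl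
  have cσ : ((-σ : ℚ) : F) = -(σ : F) := by push_cast; rfl
  obtain ⟨n, hn⟩ := hσ1
  set W := sg ((-σ : ℚ) : F) X Y with hWd
  set A := sg (τ' : F) c1 c2 with hAd
  set B := sg (τ : F) b1 b2 with hBd
  have PW : TPos W := sg_pos hXY hσ6
  have PA : TPos A := sg_pos hc hσ3
  have PB : TPos B := sg_pos hb hτ3
  have hid : 4 * W * A - (W + A - B) ^ 2 = 4 * W * A * B := by
    have q1 : (1 : F) + (τ : F) ^ 2 ≠ 0 := by
      obtain ⟨r, hr, hr0⟩ := isSquare_rat h F τ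
      rw [← hr]; positivity
    have q2 : (1 : F) + (σ : F) ^ 2 ≠ 0 := by
      obtain ⟨r, hr, hr0⟩ := isSquare_rat h F σ
      rw [← hr]; positivity
    have q3 : (1 : F) + (σ : F) * τ ≠ 0 := by
      have : ((1 + σ * τ : ℚ) : F) ≠ 0 := by exact_mod_cast hσ0
      push_cast at this
      exact this
    have := sg_id q1 q2 q3 hb0 hc0
    rw [hWd, hAd, hBd, cτ', cσ]
    exact this
  have bW : ∀ (_ : LinearOrder F) (_ : IsStrictOrderedRing F), W ≤ 1 := fun lo so =>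
    (sg_bdd lo so _ _ _).2.1
  have bA : ∀ (_ : LinearOrder F) (_ : IsStrictOrderedRing F), A ≤ 1 := fun lo so =>
    (sg_bdd lo so _ _ _).2.1
  have bB : ∀ (_ : LinearOrder F) (_ : IsStrictOrderedRing F), B ≤ 1 := fun lo so =>
    (sg_bdd lo so _ _ _).2.1
  have hn' : ∀ (_ : LinearOrder F) (_ : IsStrictOrderedRing F), 1 ≤ (n : F) * (A + B) := by
    intro lo so
    have := hn lo so
    rwa [add_comm] at this
  obtain ⟨k3, hk3⟩ := third_bdd n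
  obtain ⟨k, hk⟩ := ineq n
  have hk3' : ∀ (_ : LinearOrder F) (_ : IsStrictOrderedRing F),
      1 ≤ (k3 : F) * (W + A) ∧ 1 ≤ (k3 : F) * (W + B) := fun lo so =>
    hk3 F W A B (PW lo so) (bW lo so) (PA lo so) (bA lo so) (PB lo so) (bB lo so) hid (hn' lo so)
  obtain ⟨f1, hf1⟩ := patch (s1 := B) (s2 := W) V1 ⟨k3, fun lo so => ⟨PB lo so, bB lo so, PW lo so,
    bW lo so, by have := (hk3' lo so).2; rwa [add_comm] at this⟩⟩ hτ2 hσ4 (k * nb ^ 2)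
  obtain ⟨f2, hf2⟩ := patch (s1 := A) (s2 := W) V2 ⟨k3, fun lo so => ⟨PA lo so, bA lo so, PW lo so,
    bW lo so, by have := (hk3' lo so).1; rwa [add_comm] at this⟩⟩ hσ2 hσ5 (k * nc ^ 2)
  obtain ⟨rσ, hrσ, hrσ0⟩ := isSquare_rat h F σ
  obtain ⟨rτ, hrτ, hrτ0⟩ := isSquare_rat h F τ
  obtain ⟨rτ', hrτ', hrτ'0⟩ := isSquare_rat h F τ'
  have ht10 : t1 ≠ 0 := h10
  have ht20 : t2 ≠ 0 := h20
  have eW : ((Y + σ * X) / rσ) ^ 2 = W * ((b1 ^ 2 + b2 ^ 2) * (c1 ^ 2 + c2 ^ 2)) := by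
    rw [hWd, sg, cσ, hXY2, div_pow, hrσ]
    have q2 : (1 : F) + (σ : F) ^ 2 ≠ 0 := by rw [← hrσ]; positivity
    have q2' : (1 : F) + (-(σ : F)) ^ 2 ≠ 0 := by rw [neg_sq]; exact q2
    field_simp
    ring
  have eA : (f1 * ((c2 - τ' * c1) / rτ')) ^ 2 * t1 =
      (f1 ^ 2 / v1 * A) * ((b1 ^ 2 + b2 ^ 2) * (c1 ^ 2 + c2 ^ 2)) := by
    rw [hAd, sg, hv1, mul_pow, div_pow, hrτ']
    have q2 : (1 : F) + (τ' : F) ^ 2 ≠ 0 := by rw [← hrτ']; positivity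
    field_simp
  have eB : (f2 * ((b2 - τ * b1) / rτ)) ^ 2 * t2 =
      (f2 ^ 2 / v2 * B) * ((b1 ^ 2 + b2 ^ 2) * (c1 ^ 2 + c2 ^ 2)) := by
    rw [hBd, sg, hv2, mul_pow, div_pow, hrτ]
    have q2 : (1 : F) + (τ : F) ^ 2 ≠ 0 := by rw [← hrτ]; positivity
    field_simp
  apply of_triangle ⟨lo0, so0, trivial⟩ (w := (Y + σ * X) / rσ)
    (P := f1 * ((c2 - τ' * c1) / rτ')) (Q := f2 * ((b2 - τ * b1) / rτ))
  intro lo so
  have hpos := triangle_pos hk (PW lo so) (bW lo so) (PA lo so) (bA lo so) (PB lo so) (bB lo so)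
    hid (hn' lo so) (v1 := v1) (v2 := v2) (n1 := nb) (n2 := nc)
    (by rw [hv1]; exact div_pos (Pb lo so) (T1 lo so))
    (by rw [hv2]; exact div_pos (Pc lo so) (T2 lo so)) (U1 lo so).1 (U2 lo so).1
    (hf1 lo so).1 (hf1 lo so).2 (hf2 lo so).1 (hf2 lo so).2
  have eH : 4 * ((Y + σ * X) / rσ) ^ 2 * ((f1 * ((c2 - τ' * c1) / rτ')) ^ 2 * t1) -
      (((Y + σ * X) / rσ) ^ 2 + (f1 * ((c2 - τ' * c1) / rτ')) ^ 2 * t1 -
        (f2 * ((b2 - τ * b1) / rτ)) ^ 2 * t2) ^ 2 =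
      ((b1 ^ 2 + b2 ^ 2) * (c1 ^ 2 + c2 ^ 2)) ^ 2 *
        (4 * W * (f1 ^ 2 / v1 * A) - (W + f1 ^ 2 / v1 * A - f2 ^ 2 / v2 * B) ^ 2) := by
    rw [eW, eA, eB]; ring
  rw [eH]
  have := Pb lo so
  have := Pc lo so
  positivity

end

end Pool.Agent.HPY
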