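import Mathlib

/-!
# Two sums of squares represented by one form `⟨1, t⟩` (MP_862048_al), project HPY: definitions

`K` is a field with a henselian valuation ring `O` whose residue field is archimedean and
hereditarily euclidean, `F / K` is a function field in one variable.
-/

set_option autoImplicit false

namespace Pool.Agent.HPY

/-- `x` is integral over the valuation ring `O` of `K` -/
def Itg {K : Type} [Field K] (O : ValuationSubring K) {L : Type} [Field L] [Algebra K L]
    (x : L) : Prop :=
  ∃ p : Polynomial K, p.Monic ∧ (∀ i, p.coeff i ∈ O) ∧ Polynomial.aeval x p = 0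

/-- the properties of the base field which are used: `O` contains `ℚ`, its elements are bounded by
integers (up to squares), `1 + 𝔪` consists of squares, the natural numbers are squares, the
integral closure of `O` in the algebraic closure is a valuation ring, and the residue field is
hereditarily euclidean -/
structure HP (K : Type) [Field K] (O : ValuationSubring K) : Prop where
  char : ∀ n : ℕ, n ≠ 0 → (n : K) ≠ 0
  rat : ∀ n : ℕ, n ≠ 0 → ((n : K))⁻¹ ∈ O
  arch : ∀ x ∈ O, ∃ n : ℕ, IsSquare ((n : K) - x)
  small : ∀ m : K, m ∈ O → m⁻¹ ∉ O → IsSquare (1 + m)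
  ratsq : ∀ n : ℕ, IsSquare (n : K)
  hens : ∀ x : AlgebraicClosure K, Itg O x ∨ Itg O x⁻¹
  real : ¬ IsSumSq (-1 : IsLocalRing.ResidueField O)
  her : ∀ (L : Type) [Field L] [Algebra (IsLocalRing.ResidueField O) L]
    [FiniteDimensional (IsLocalRing.ResidueField O) L],
    IsSquare (-1 : L) ∨ ∀ x : L, IsSquare x ∨ IsSquare (-x)

/-- `F` is a function field in one variable over `K` -/
def FF1 (K F : Type) [Field K] [Field F] [Algebra K F] : Prop :=
  ∃ g : F, Transcendental K g ∧ FiniteDimensional (IntermediateField.adjoin K {g}) F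

/-- the maximal ideal of a valuation ring -/
def MM {C : Type} [Field C] (V : ValuationSubring C) : Set C := {x | x = 0 ∨ x⁻¹ ∉ V}

/-- a polynomial with coefficients in `O` -/
def OP {C : Type} [Field C] (O : ValuationSubring C) (p : Polynomial C) : Prop :=
  ∀ i, p.coeff i ∈ O

/-- a polynomial with coefficients in `O`, one of which is a unit -/
def Prim {C : Type} [Field C] (O : ValuationSubring C) (p : Polynomial C) : Prop :=
  OP O p ∧ ∃ i, p.coeff i ∉ MM O

/-- `Oc` is the integral closure of `O` in the algebraic closure -/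
def IsOc {K : Type} [Field K] (O : ValuationSubring K)
    (Oc : ValuationSubring (AlgebraicClosure K)) : Prop :=
  ∀ x, x ∈ Oc ↔ Itg O x

/-- `y` is a unit whose residue `η` has the property: `k (η)` is real and `-η` is not a square in
`k (η)` -/
def Good {K : Type} [Field K] (O : ValuationSubring K)
    (Oc : ValuationSubring (AlgebraicClosure K)) (y : AlgebraicClosure K) : Prop :=
  y ∈ Oc ∧ y ∉ MM Oc ∧
    (∀ f : Polynomial K, OP O f → (Polynomial.aeval y f) ^ 2 + 1 ∉ MM Oc) ∧
    (∀ f : Polynomial K, OP O f → (Polynomial.aeval y f) ^ 2 + y ∉ MM Oc)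

/-- `a` is strictly positive at every ordering of `F` -/
def TPos {F : Type} [Field F] (a : F) : Prop :=
  ∀ (_ : LinearOrder F) (_ : IsStrictOrderedRing F), 0 < a

/-- `v` is positive and bounded from above and from below at every ordering -/
def Unt {F : Type} [Field F] (v : F) : Prop :=
  ∃ n : ℕ, ∀ (_ : LinearOrder F) (_ : IsStrictOrderedRing F), 1 ≤ (n : F) * v ∧ v ≤ n

/-- `v` has a positive approximate square root up to `O(s)` where `s` is small -/
def Loc {F : Type} [Field F] (v s : F) : Prop :=
  ∃ (e : F) (n : ℕ), ∀ (_ : LinearOrder F) (_ : IsStrictOrderedRing F),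
    (n : F) * s ≤ 1 → 0 < e ∧ |e ^ 2 - v| ≤ n * s

/-- `(y - τ x)² / ((1 + τ²)(x² + y²))` -/
def sg {F : Type} [Field F] (τ : F) (x y : F) : F :=
  (y - τ * x) ^ 2 / ((1 + τ ^ 2) * (x ^ 2 + y ^ 2))

end Pool.Agent.HPY
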