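import Pool.Agent.HPY.INTP

/-!
# MP_862048: good points and the positive square root
-/

set_option autoImplicit false

namespace Pool.Agent.HPY.HL

open Polynomial IsLocalRing

section good

variable (A : Type*) {B : Type*} [CommRing A] [CommRing B] [IsLocalRing B] [Algebra A B]

/-- `y` is a unit, and in the field generated by its residue neither `-1` nor `-y` is a square -/
def Good (y : B) : Prop :=
  y ∉ maximalIdeal B ∧ ∀ f g : A[X],
    (aeval y f ^ 2 + aeval y g ^ 2 ∈ maximalIdeal B → aeval y f ∈ maximalIdeal B) ∧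
    (aeval y f ^ 2 + y * aeval y g ^ 2 ∈ maximalIdeal B → aeval y f ∈ maximalIdeal B)

/-- `ν` is a square root of `y` whose residue is a square in the field generated by the residue
of `y` -/
def IsNu (y ν : B) : Prop := ν ^ 2 = y ∧ ∃ g : A[X], ν - aeval y g ^ 2 ∈ maximalIdeal B

variable {A}

theorem mem_of_sq {x : B} (h : x ^ 2 ∈ maximalIdeal B) : x ∈ maximalIdeal B :=
  (maximalIdeal.isMaximal B).isPrime.mem_of_pow_mem 2 h

theorem Good.nu_notMem {y ν : B} (hy : Good A y) (hν : ν ^ 2 = y) : ν ∉ maximalIdeal B := by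
  intro h
  apply hy.1
  rw [← hν, pow_two]
  exact Ideal.mul_mem_left _ _ h

theorem exists_nu (hsq : ∀ y : B, ∃ w : B, w ^ 2 = y)
    (hR : ∀ y : B, ∃ f : A[X], aeval y f ^ 2 + 1 ∈ maximalIdeal B ∨
      aeval y f ^ 2 + y ∈ maximalIdeal B ∨ aeval y f ^ 2 - y ∈ maximalIdeal B)
    {y : B} (hy : Good A y) : ∃ ν : B, IsNu A y ν := by
  have hno1 : ∀ f : A[X], aeval y f ^ 2 + 1 ∉ maximalIdeal B := by
    intro f hf
    have h1 := (hy.2 f 1).1 (by simpa using hf)
    have h2 : (1 : B) ∈ maximalIdeal B := by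
      have h3 : (1 : B) = (aeval y f ^ 2 + 1) - aeval y f * aeval y f := by ring
      rw [h3]
      exact Ideal.sub_mem _ hf (Ideal.mul_mem_left _ _ h1)
    exact (Ideal.ne_top_iff_one _).1 (maximalIdeal.isMaximal B).ne_top h2
  have hno2 : ∀ f : A[X], aeval y f ^ 2 + y ∉ maximalIdeal B := by
    intro f hf
    have h1 := (hy.2 f 1).2 (by simpa using hf)
    apply hy.1
    have h3 : y = (aeval y f ^ 2 + y) - aeval y f * aeval y f := by ring
    rw [h3]
    exact Ideal.sub_mem _ hf (Ideal.mul_mem_left _ _ h1)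
  obtain ⟨f, hf⟩ := hR y
  have hf3 : aeval y f ^ 2 - y ∈ maximalIdeal B := by
    rcases hf with h | h | h
    · exact absurd h (hno1 f)
    · exact absurd h (hno2 f)
    · exact h
  obtain ⟨w, hw⟩ := hsq y
  have hprime : (maximalIdeal B).IsPrime := (maximalIdeal.isMaximal B).isPrime
  have hpm : w - aeval y f ∈ maximalIdeal B ∨ w + aeval y f ∈ maximalIdeal B := by
    apply hprime.mem_or_mem
    have h3 : (w - aeval y f) * (w + aeval y f) = -(aeval y f ^ 2 - y) := by
      rw [← hw]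
      ring
    rw [h3]
    exact (maximalIdeal B).neg_mem hf3
  -- a root with residue `f(y)` and one with residue `-f(y)`
  have hroot : ∃ v : B, v ^ 2 = y ∧ v - aeval y f ∈ maximalIdeal B := by
    rcases hpm with h | h
    · exact ⟨w, hw, h⟩
    · refine ⟨-w, by rw [neg_sq, hw], ?_⟩
      have h3 : -w - aeval y f = -(w + aeval y f) := by ring
      rw [h3]
      exact (maximalIdeal B).neg_mem h
  obtain ⟨v, hv, hvf⟩ := hroot
  obtain ⟨h, hh⟩ := hR (aeval y f)
  have hcomp : aeval (aeval y f) h = aeval y (h.comp f) := by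
    rw [aeval_comp]
  rw [hcomp] at hh
  rcases hh with hh | hh | hh
  · exact absurd hh (hno1 _)
  · refine ⟨-v, by rw [neg_sq, hv], h.comp f, ?_⟩
    have h3 : -v - aeval y (h.comp f) ^ 2 = -((aeval y (h.comp f) ^ 2 + aeval y f) +
        (v - aeval y f)) := by ring
    rw [h3]
    exact (maximalIdeal B).neg_mem (Ideal.add_mem _ hh hvf)
  · refine ⟨v, hv, h.comp f, ?_⟩
    have h3 : v - aeval y (h.comp f) ^ 2 = (v - aeval y f) -
        (aeval y (h.comp f) ^ 2 - aeval y f) := by ring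
    rw [h3]
    exact Ideal.sub_mem _ hvf hh

theorem nu_add_unit {y₁ y₂ ν₁ ν₂ : B} (h₁ : Good A y₁)
    (hν₁ : IsNu A y₁ ν₁) (hν₂ : IsNu A y₂ ν₂) : IsUnit (ν₁ + ν₂) := by
  by_contra hn
  have hm : ν₁ + ν₂ ∈ maximalIdeal B := (mem_maximalIdeal _).2 hn
  obtain ⟨hs₁, g₁, hg₁⟩ := hν₁
  obtain ⟨hs₂, g₂, hg₂⟩ := hν₂
  have hy : y₁ - y₂ ∈ maximalIdeal B := by
    have h3 : y₁ - y₂ = (ν₁ + ν₂) * (ν₁ - ν₂) := by rw [← hs₁, ← hs₂]; ring
    rw [h3]
    exact Ideal.mul_mem_right _ _ hm
  have hg : aeval y₁ g₂ - aeval y₂ g₂ ∈ maximalIdeal B := by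
    obtain ⟨d, hd⟩ : (y₁ - y₂) ∣ aeval y₁ g₂ - aeval y₂ g₂ := by
      simp only [aeval_def, eval₂_eq_eval_map]
      exact sub_dvd_eval_sub _ _ _
    rw [hd]
    exact Ideal.mul_mem_right _ _ hy
  have hsum : aeval y₁ g₁ ^ 2 + aeval y₁ g₂ ^ 2 ∈ maximalIdeal B := by
    have h3 : aeval y₁ g₁ ^ 2 + aeval y₁ g₂ ^ 2 = (ν₁ + ν₂) - (ν₁ - aeval y₁ g₁ ^ 2) -
        (ν₂ - aeval y₂ g₂ ^ 2) +
        (aeval y₁ g₂ - aeval y₂ g₂) * (aeval y₁ g₂ + aeval y₂ g₂) := by ring
    rw [h3]
    exact Ideal.add_mem _ (Ideal.sub_mem _ (Ideal.sub_mem _ hm hg₁) hg₂)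
      (Ideal.mul_mem_right _ _ hg)
  have h4 := (h₁.2 g₁ g₂).1 hsum
  apply h₁.nu_notMem hs₁
  have h5 : ν₁ = (ν₁ - aeval y₁ g₁ ^ 2) + aeval y₁ g₁ * aeval y₁ g₁ := by ring
  rw [h5]
  exact Ideal.add_mem _ hg₁ (Ideal.mul_mem_left _ _ h4)

theorem nu_unique [IsDomain B] {y ν ν' : B} (h : Good A y)
    (hν : IsNu A y ν) (hν' : IsNu A y ν') : ν = ν' := by
  have hu := nu_add_unit h hν hν'
  have h1 : (ν - ν') * (ν + ν') = 0 := by
    have h2 := hν.1
    have h3 := hν'.1
    linear_combination h2 - h3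
  rcases mul_eq_zero.1 h1 with h2 | h2
  · exact sub_eq_zero.1 h2
  · exact absurd h2 hu.ne_zero

section aut

variable (σ : B ≃ₐ[A] B)

theorem aut_mem {x : B} : σ x ∈ maximalIdeal B ↔ x ∈ maximalIdeal B := by
  rw [mem_maximalIdeal, mem_maximalIdeal, mem_nonunits_iff, mem_nonunits_iff, not_iff_not]
  exact MulEquiv.isUnit_map σ

omit [IsLocalRing B] in
theorem aut_aeval (y : B) (f : A[X]) : aeval (σ y) f = σ (aeval y f) :=
  Polynomial.aeval_algHom_apply σ.toAlgHom y f

theorem Good.aut {y : B} (h : Good A y) : Good A (σ y) := by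
  refine ⟨fun h1 => h.1 ((aut_mem σ).1 h1), fun f g => ⟨fun h1 => ?_, fun h1 => ?_⟩⟩
  · rw [aut_aeval, aut_aeval, ← map_pow σ, ← map_pow σ, ← map_add σ, aut_mem] at h1
    rw [aut_aeval, aut_mem]
    exact (h.2 f g).1 h1
  · rw [aut_aeval, aut_aeval, ← map_pow σ, ← map_pow σ, ← map_mul σ, ← map_add σ, aut_mem] at h1
    rw [aut_aeval, aut_mem]
    exact (h.2 f g).2 h1

theorem IsNu.aut {y ν : B} (h : IsNu A y ν) : IsNu A (σ y) (σ ν) := by
  obtain ⟨h1, g, hg⟩ := h
  refine ⟨by rw [← map_pow σ, h1], g, ?_⟩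
  rw [aut_aeval, ← map_pow σ, ← map_sub σ, aut_mem]
  exact hg

end aut

end good

section prim

variable {B F : Type*} [CommRing B] [IsLocalRing B] [Field F] [Algebra B F]

/-- A product of linear factors over `F` is a constant times a polynomial over `B` which is not
zero modulo the maximal ideal and has no roots except the integral ones. -/
theorem prim_prod (hH : ∀ x : F, (∃ b : B, algebraMap B F b = x) ∨
    (∃ b : B, algebraMap B F b * x = 1)) (s : List F) :
    ∃ (d : F) (W : B[X]), d ≠ 0 ∧ (s.map fun y => X - C y).prod = C d * W.map (algebraMap B F) ∧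
      W.map (residue B) ≠ 0 ∧
      ∀ (L : Type) [Field L] (ψ : B →+* L) (_ : IsLocalHom ψ) (η : L), W.eval₂ ψ η = 0 →
        ∃ y : B, algebraMap B F y ∈ s ∧ ψ y = η := by
  induction s with
  | nil =>
    refine ⟨1, 1, one_ne_zero, by simp, by simp, ?_⟩
    intro L _ ψ _ η h
    simp at h
  | cons y s ih =>
    obtain ⟨d, W, hd, hW, hres, hroot⟩ := ih
    by_cases hy : ∃ b : B, algebraMap B F b = y
    · obtain ⟨b, rfl⟩ := hy
      refine ⟨d, (X - C b) * W, hd, ?_, ?_, ?_⟩
      · rw [List.map_cons, List.prod_cons, hW, Polynomial.map_mul, Polynomial.map_sub, map_X,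
          map_C]
        ring
      · rw [Polynomial.map_mul, Polynomial.map_sub, map_X, map_C]
        exact mul_ne_zero (X_sub_C_ne_zero _) hres
      · intro L _ ψ hψ η h
        rw [eval₂_mul, eval₂_sub, eval₂_X, eval₂_C, mul_eq_zero] at h
        rcases h with h | h
        · exact ⟨b, List.mem_cons_self, (sub_eq_zero.1 h).symm⟩
        · obtain ⟨z, hz, hz'⟩ := hroot L ψ hψ η h
          exact ⟨z, List.mem_cons_of_mem _ hz, hz'⟩
    · obtain ⟨b, hb⟩ : ∃ b : B, algebraMap B F b * y = 1 := by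
        rcases hH y with h | h
        · exact absurd h hy
        · exact h
      have hbn : ¬ IsUnit b := by
        rintro ⟨u, rfl⟩
        apply hy
        refine ⟨↑u⁻¹, ?_⟩
        have h1 : algebraMap B F (↑u : B) * algebraMap B F (↑u⁻¹ : B) = 1 := by
          rw [← map_mul, Units.mul_inv, map_one]
        have h2 : algebraMap B F (↑u : B) ≠ 0 := left_ne_zero_of_mul_eq_one h1
        exact mul_left_cancel₀ h2 (h1.trans hb.symm)
      have hy0 : y ≠ 0 := right_ne_zero_of_mul_eq_one hb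
      refine ⟨-y * d, (1 - C b * X) * W, mul_ne_zero (neg_ne_zero.2 hy0) hd, ?_, ?_, ?_⟩
      · rw [List.map_cons, List.prod_cons, hW, Polynomial.map_mul, Polynomial.map_sub,
          Polynomial.map_one, Polynomial.map_mul, map_C, map_X]
        have h1 : (X - C y : F[X]) = C (-y) * (1 - C (algebraMap B F b) * X) := by
          have h2 : C (-y) * (1 - C (algebraMap B F b) * X) =
              -C y + C (algebraMap B F b * y) * X := by
            rw [C_neg, C_mul]
            ring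
          rw [h2, hb, C_1]
          ring
        rw [h1, C_mul]
        ring
      · rw [Polynomial.map_mul, Polynomial.map_sub, Polynomial.map_one, Polynomial.map_mul, map_C,
          map_X]
        have h1 : residue B b = 0 := (residue_eq_zero_iff b).2 ((mem_maximalIdeal _).2 hbn)
        rw [h1, C_0, zero_mul, sub_zero, one_mul]
        exact hres
      · intro L _ ψ hψ η h
        have h1 : ψ b = 0 := by
          by_contra h2
          exact hbn (hψ.map_nonunit b (isUnit_iff_ne_zero.2 h2))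
        rw [eval₂_mul, eval₂_sub, eval₂_one, eval₂_mul, eval₂_X, eval₂_C, h1, zero_mul, sub_zero,
          one_mul] at h
        obtain ⟨z, hz, hz'⟩ := hroot L ψ hψ η h
        exact ⟨z, List.mem_cons_of_mem _ hz, hz'⟩

end prim

end Pool.Agent.HPY.HL
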