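import Pool.Agent.HPY.HLb

/-!
# MP_862048: the splitting theorem
-/

set_option autoImplicit false

namespace Pool.Agent.HPY.HL

open Polynomial IsLocalRing

variable {A K C : Type*} [CommRing A] [IsDomain A] [IsLocalRing A] [IsIntegrallyClosed A]
  [Field K] [Algebra A K] [IsFractionRing A K] [CharZero K] [Field C] [Algebra K C] [Algebra A C]
  [IsScalarTower A K C] [IsAlgClosure K C]

/-- A primitive polynomial over a domain that is not zero modulo `m` and has a factorisation
`C u * W` with `W` not zero modulo `m` -/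
theorem unit_of_prim (hH : ∀ x : C, IsIntegral A x ∨ IsIntegral A x⁻¹) [IsLocalRing (BB A C)]
    {p W : (BB A C)[X]} {u : C} (hu : u ≠ 0) (h : p.map (algebraMap (BB A C) C) =
      Polynomial.C u * W.map (algebraMap (BB A C) C))
    (hW : W.map (residue (BB A C)) ≠ 0) : ∃ b : BB A C, p = Polynomial.C b * W := by
  have hinj : Function.Injective (algebraMap (BB A C) C) := Subtype.val_injective
  rcases hH u with h1 | h1
  · refine ⟨⟨u, h1⟩, ?_⟩
    apply Polynomial.map_injective _ hinj
    rw [h, Polynomial.map_mul, map_C]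
    rfl
  · have h2 : Polynomial.C (⟨u⁻¹, h1⟩ : BB A C) * p = W := by
      apply Polynomial.map_injective _ hinj
      rw [Polynomial.map_mul, h, map_C, ← mul_assoc, ← Polynomial.C_mul]
      have h3 : (algebraMap (BB A C) C) (⟨u⁻¹, h1⟩ : BB A C) * u = 1 := inv_mul_cancel₀ hu
      rw [h3, Polynomial.C_1, one_mul]
    have h3 : IsUnit (⟨u⁻¹, h1⟩ : BB A C) := by
      by_contra hn
      apply hW
      rw [← h2, Polynomial.map_mul, map_C,
        (residue_eq_zero_iff _).2 ((mem_maximalIdeal _).2 hn), Polynomial.C_0, zero_mul]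
    obtain ⟨v, hv⟩ := h3
    refine ⟨↑v⁻¹, ?_⟩
    rw [← h2, ← mul_assoc, ← Polynomial.C_mul, ← hv, Units.inv_mul, Polynomial.C_1, one_mul]

variable (K) in
include K in
theorem split (hH : ∀ x : C, IsIntegral A x ∨ IsIntegral A x⁻¹)
    (hR : ∀ y : C, IsIntegral A y → ∃ f : A[X], NU A (aeval y f ^ 2 + 1) ∨
      NU A (aeval y f ^ 2 + y) ∨ NU A (aeval y f ^ 2 - y))
    (p : A[X]) (hp : p.map (residue A) ≠ 0) :
    ∃ Q S p1 p2 : A[X], p = p1 * p2 ∧ Q ^ 2 - X = p1 * S ∧
      ∀ (φ : A →+* ℝ) (_ : IsLocalHom φ) (η : ℝ), 0 < η →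
        eval₂ φ η p2 ≠ 0 ∧ (eval₂ φ η p1 = 0 → 0 < eval₂ φ η Q) := by
  classical
  have hloc : IsLocalRing (BB A C) := BB_local hH
  have hAC : IsAlgClosed C := IsAlgClosure.isAlgClosed K
  have hAinj : Function.Injective (algebraMap A C) := by
    rw [IsScalarTower.algebraMap_eq A K C]
    exact (algebraMap K C).injective.comp (IsFractionRing.injective A K)
  have hCinj : Function.Injective (algebraMap (BB A C) C) := Subtype.val_injective
  have hinj : Function.Injective (algebraMap A (BB A C)) := by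
    intro a b hab
    exact hAinj (congrArg (fun x : BB A C => (x : C)) hab)
  have hint : Algebra.IsIntegral A (BB A C) := inferInstance
  have hlh : IsLocalHom (algebraMap A (BB A C)) :=
    (algebraMap_isIntegral_iff.mpr hint).isLocalHom hinj
  have hR' : ∀ y : BB A C, ∃ f : A[X], aeval y f ^ 2 + 1 ∈ maximalIdeal (BB A C) ∨
      aeval y f ^ 2 + y ∈ maximalIdeal (BB A C) ∨ aeval y f ^ 2 - y ∈ maximalIdeal (BB A C) := by
    intro y
    obtain ⟨f, hf⟩ := hR (y : C) y.2
    have h1 : aeval (y : C) f = ((aeval y f : BB A C) : C) := by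
      rw [← Subalgebra.coe_val, ← aeval_algHom_apply]
    rw [h1] at hf
    refine ⟨f, ?_⟩
    rcases hf with h | h | h
    · exact Or.inl (mem_of_NU h)
    · exact Or.inr (Or.inl (mem_of_NU h))
    · exact Or.inr (Or.inr (mem_of_NU h))
  have hsq : ∀ y : BB A C, ∃ w : BB A C, w ^ 2 = y := exists_sqrt
  -- the square root function
  let nuf : BB A C → BB A C := fun y => if h : ∃ ν, IsNu A y ν then h.choose else 0
  have hnuf : ∀ y, Good A y → IsNu A y (nuf y) := by
    intro y hy
    have h := exists_nu hsq hR' hy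
    have h1 : nuf y = h.choose := dif_pos h
    rw [h1]
    exact h.choose_spec
  have hnuf_aut : ∀ (σ : BB A C ≃ₐ[A] BB A C) y, Good A y → nuf (σ y) = σ (nuf y) := by
    intro σ y hy
    exact nu_unique (hy.aut σ) (hnuf _ (hy.aut σ)) ((hnuf y hy).aut σ)
  -- the good roots
  set pB := p.map (algebraMap A (BB A C)) with hpB
  have hp0 : p ≠ 0 := by
    rintro rfl
    exact hp (Polynomial.map_zero _)
  have hpB0 : pB ≠ 0 := (Polynomial.map_ne_zero_iff hinj).2 hp0
  set G := pB.roots.filter (Good A) with hG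
  have hGgood : ∀ y ∈ G, Good A y := fun y hy => (Multiset.mem_filter.1 hy).2
  have hGσ : ∀ σ : BB A C ≃ₐ[A] BB A C, G.map σ = G := by
    intro σ
    have h1 : pB.roots.map σ = pB.roots := roots_map_sB p σ
    have h2 : (pB.roots.map σ).filter (Good A) =
        (pB.roots.filter (fun y => Good A (σ y))).map σ := Multiset.filter_map _ _ _
    rw [h1] at h2
    have h3 : pB.roots.filter (fun y => Good A (σ y)) = pB.roots.filter (Good A) := by
      apply Multiset.filter_congr
      intro y _
      refine ⟨fun h => ?_, fun h => h.aut σ⟩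
      have h3 := h.aut σ.symm
      simpa using h3
    rw [h3] at h2
    rw [hG]
    exact h2.symm
  let l := G.toList.map nuf
  have hl : ∀ a ∈ l, ∃ y ∈ G, nuf y = a := by
    intro a ha
    obtain ⟨y, hy, rfl⟩ := List.mem_map.1 ha
    exact ⟨y, Multiset.mem_toList.1 hy, rfl⟩
  have hlcoe : (l : Multiset (BB A C)) = G.map nuf := by
    change ((G.toList.map nuf : List (BB A C)) : Multiset (BB A C)) = G.map nuf
    rw [← Multiset.map_coe, Multiset.coe_toList]
  have hlσ : ∀ σ : BB A C ≃ₐ[A] BB A C, (l.map σ).Perm l := by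
    intro σ
    rw [← Multiset.coe_eq_coe, ← Multiset.map_coe, hlcoe, Multiset.map_map]
    conv_rhs => rw [← hGσ σ]
    rw [Multiset.map_map]
    apply Multiset.map_congr rfl
    intro y hy
    exact (hnuf_aut σ y (hGgood y hy)).symm
  have hunit : ∀ a ∈ l, ∀ b ∈ l, IsUnit (a + b) := by
    intro a ha b hb
    obtain ⟨y, hy, rfl⟩ := hl a ha
    obtain ⟨z, hz, rfl⟩ := hl b hb
    exact nu_add_unit (hGgood y hy) (hnuf y (hGgood y hy)) (hnuf z (hGgood z hz))
  have hPP : PP l = (G.map fun y => X - Polynomial.C y).prod := by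
    have h1 : PP l = ((l : Multiset (BB A C)).map fun a => X - Polynomial.C (a ^ 2)).prod := by
      rw [Multiset.map_coe, Multiset.prod_coe]
      rfl
    rw [h1, hlcoe, Multiset.map_map]
    congr 1
    apply Multiset.map_congr rfl
    intro y hy
    simp only [Function.comp_apply]
    rw [(hnuf y (hGgood y hy)).1]
  obtain ⟨Q, S, hQd, hQe, hQS⟩ := intp l hunit
  -- invariance
  have hQσ : ∀ σ : BB A C ≃ₐ[A] BB A C, Q.map (σ : BB A C →+* BB A C) = Q := by
    intro σ
    have hPσ : (PP l).map (σ : BB A C →+* BB A C) = PP l := by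
      rw [PP_map]
      exact PP_perm (hlσ σ)
    refine (uniq' l Q (Q.map (σ : BB A C →+* BB A C)) S (S.map (σ : BB A C →+* BB A C)) hQd
      (degree_map_le.trans_lt hQd) hQS ?_ ?_).symm
    · have h1 := congrArg (Polynomial.map (σ : BB A C →+* BB A C)) hQS
      rw [Polynomial.map_sub, Polynomial.map_pow, map_X, Polynomial.map_mul, hPσ] at h1
      exact h1
    · intro a ha
      have h1 : a ∈ l.map σ := (hlσ σ).mem_iff.2 ha
      obtain ⟨b, hb, hba⟩ := List.mem_map.1 h1
      have h2 : (Q.map (σ : BB A C →+* BB A C)).eval (a ^ 2) = a := by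
        have h3 : a ^ 2 = (σ : BB A C →+* BB A C) (b ^ 2) := by
          rw [← hba, map_pow]
          rfl
        rw [h3, eval_map_apply, hQe b hb]
        exact hba
      rw [h2, hQe a ha]
      exact (hunit a ha a ha).ne_zero
  obtain ⟨Q0, hQ0⟩ := descent (A := A) (K := K) (C := C) Q fun σ => hQσ (sB A σ)
  obtain ⟨P0, hP0⟩ := descent (A := A) (K := K) (C := C) (PP l) fun σ => by
    rw [PP_map]
    exact PP_perm (hlσ (sB A σ))
  have hP0m : P0.Monic := by
    apply Polynomial.monic_of_injective hinj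
    rw [hP0]
    exact PP_monic l
  have hdvd : PP l ∣ pB := by
    rw [hPP]
    exact (Multiset.prod_dvd_prod_of_le (Multiset.map_le_map (Multiset.filter_le _ _))).trans
      (prod_multiset_X_sub_C_dvd pB)
  obtain ⟨p2, hp2⟩ : P0 ∣ p := by
    rw [← map_dvd_map _ hinj hP0m, hP0]
    exact hdvd
  obtain ⟨S0, hS0⟩ : P0 ∣ Q0 ^ 2 - X := by
    rw [← map_dvd_map _ hinj hP0m, hP0, Polynomial.map_sub, Polynomial.map_pow, hQ0, map_X]
    exact ⟨S, hQS⟩
  refine ⟨Q0, S0, P0, p2, hp2, hS0, fun φ hφ η hη => ?_⟩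
  obtain ⟨ψ, hψloc, hψ⟩ := exists_psi (B := BB A C) φ
  have hev : ∀ f : A[X], eval₂ ψ (η : ℂ) (f.map (algebraMap A (BB A C))) =
      ((eval₂ φ η f : ℝ) : ℂ) := by
    intro f
    rw [eval₂_map]
    have h1 : ψ.comp (algebraMap A (BB A C)) = Complex.ofRealHom.comp φ := by
      ext a
      exact hψ a
    rw [h1]
    exact (hom_eval₂ f φ Complex.ofRealHom η).symm
  constructor
  · intro h0
    -- the second factor
    set qB := p2.map (algebraMap A (BB A C)) with hqB
    have hpq : pB = PP l * qB := by rw [hpB, hp2, Polynomial.map_mul, hP0]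
    have hqB0 : qB ≠ 0 := by
      rintro h
      rw [h, mul_zero] at hpq
      exact hpB0 hpq
    have hres : qB.map (residue (BB A C)) ≠ 0 := by
      intro h
      apply hp
      rw [hp2, Polynomial.map_mul]
      have h1 : p2.map (residue A) = 0 := by
        ext n
        have h2 := congrArg (fun r => r.coeff n) h
        simp only [coeff_map, coeff_zero, hqB] at h2
        have h3 := (mem_maximalIdeal _).1 ((residue_eq_zero_iff _).1 h2)
        rw [coeff_map, coeff_zero, residue_eq_zero_iff, mem_maximalIdeal]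
        intro h4
        exact h3 (h4.map _)
      rw [h1, mul_zero]
    set qC := qB.map (algebraMap (BB A C) C) with hqC
    have hqC0 : qC ≠ 0 := (Polynomial.map_ne_zero_iff hCinj).2 hqB0
    have hsplit := (IsAlgClosed.splits qC).eq_prod_roots
    have hHs : ∀ x : C, (∃ b : BB A C, algebraMap (BB A C) C b = x) ∨
        (∃ b : BB A C, algebraMap (BB A C) C b * x = 1) := by
      intro x
      rcases hH x with h | h
      · exact Or.inl ⟨⟨x, h⟩, rfl⟩
      · by_cases hx : x = 0
        · exact Or.inl ⟨0, by rw [map_zero, hx]⟩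
        · exact Or.inr ⟨⟨x⁻¹, h⟩, inv_mul_cancel₀ hx⟩
    obtain ⟨d, W, hd, hdW, hWres, hWroot⟩ := prim_prod hHs qC.roots.toList
    have hprod : (qC.roots.toList.map fun y => X - Polynomial.C y).prod =
        (qC.roots.map fun y => X - Polynomial.C y).prod := by
      conv_rhs => rw [← Multiset.coe_toList qC.roots]
      rw [Multiset.map_coe, Multiset.prod_coe]
    have hqW : qB.map (algebraMap (BB A C) C) =
        Polynomial.C (qC.leadingCoeff * d) * W.map (algebraMap (BB A C) C) := by
      rw [← hqC, Polynomial.C_mul, mul_assoc, ← hdW, hprod]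
      exact hsplit
    obtain ⟨b, hb⟩ := unit_of_prim hH (mul_ne_zero (leadingCoeff_ne_zero.2 hqC0) hd) hqW hWres
    have hbu : IsUnit b := by
      by_contra hn
      apply hres
      rw [hb, Polynomial.map_mul, map_C,
        (residue_eq_zero_iff _).2 ((mem_maximalIdeal _).2 hn), Polynomial.C_0, zero_mul]
    have hW0 : W.eval₂ ψ (η : ℂ) = 0 := by
      have h1 := hev p2
      rw [h0, ← hqB, hb, eval₂_mul, eval₂_C, Complex.ofReal_zero] at h1
      rcases mul_eq_zero.1 h1 with h2 | h2
      · exact absurd h2 (hbu.map ψ).ne_zero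
      · exact h2
    obtain ⟨y, hy, hyη⟩ := hWroot ℂ ψ hψloc (η : ℂ) hW0
    have hgood : Good A y := good_of_psi hψ hη hyη
    have hyroot : qB.IsRoot y := by
      have h1 : qC.IsRoot (algebraMap (BB A C) C y) :=
        isRoot_of_mem_roots (Multiset.mem_toList.1 hy)
      rw [IsRoot.def, hqC, eval_map_apply] at h1
      rw [IsRoot.def]
      exact hCinj (by rw [h1, map_zero])
    have hm1 : rootMultiplicity y pB = rootMultiplicity y (PP l) + rootMultiplicity y qB := by
      rw [hpq]
      exact rootMultiplicity_mul (by rw [← hpq]; exact hpB0)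
    have hm2 : rootMultiplicity y (PP l) = rootMultiplicity y pB := by
      rw [← count_roots, ← count_roots, hPP, roots_multiset_prod_X_sub_C, hG,
        Multiset.count_filter_of_pos hgood]
    have hm3 : 0 < rootMultiplicity y qB := (rootMultiplicity_pos hqB0).2 hyroot
    omega
  · intro h0
    have h1 := hev P0
    rw [h0, hP0, Complex.ofReal_zero] at h1
    obtain ⟨a, ha, haη⟩ := PP_root h1
    obtain ⟨y, hy, rfl⟩ := hl a ha
    have hgood := hGgood y hy
    have hν := hnuf y hgood
    have hyη : ψ y = (η : ℂ) := by rw [← haη, ← map_pow, hν.1]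
    have h2 : ((eval₂ φ η Q0 : ℝ) : ℂ) = ψ (nuf y) := by
      rw [← psi_aeval hψ hyη]
      congr 1
      rw [← hQe _ ha, hν.1, ← hQ0, eval_map_algebraMap]
    obtain ⟨g, hg⟩ := hν.2
    have h3 : ψ (nuf y) = (((eval₂ φ η g) ^ 2 : ℝ) : ℂ) := by
      have h4 := psi_of_mem (ψ := ψ) hg
      rw [map_sub, map_pow, psi_aeval hψ hyη, sub_eq_zero] at h4
      rw [h4]
      push_cast
      rfl
    rw [h3] at h2
    have h5 : eval₂ φ η Q0 = (eval₂ φ η g) ^ 2 := by exact_mod_cast h2
    rw [h5]
    refine lt_of_le_of_ne (sq_nonneg _) fun h6 => ?_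
    rw [← h6, Complex.ofReal_zero] at h3
    exact hgood.nu_notMem hν.1 (mem_of_psi h3)

end Pool.Agent.HPY.HL
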