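import Mathlib

/-!
# MP_862048: interpolation of the square root over a local domain
-/

set_option autoImplicit false

namespace Pool.Agent.HPY.HL

open Polynomial

section intp

variable {R : Type*} [CommRing R]

/-- the product of the `X - a ^ 2` -/
noncomputable def PP (l : List R) : R[X] := (l.map fun a => X - C (a ^ 2)).prod

theorem PP_nil : PP ([] : List R) = 1 := by simp [PP]

theorem PP_cons (a : R) (l : List R) : PP (a :: l) = (X - C (a ^ 2)) * PP l := by simp [PP]

theorem PP_monic (l : List R) : (PP l).Monic := by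
  induction l with
  | nil => simp [PP_nil]
  | cons a l ih =>
    rw [PP_cons]
    exact (monic_X_sub_C _).mul ih

theorem PP_natDegree [Nontrivial R] (l : List R) : (PP l).natDegree = l.length := by
  induction l with
  | nil => simp [PP_nil]
  | cons a l ih =>
    rw [PP_cons, (monic_X_sub_C _).natDegree_mul (PP_monic l), ih, natDegree_X_sub_C,
      List.length_cons, add_comm]

theorem PP_degree [Nontrivial R] (l : List R) : (PP l).degree = l.length := by
  rw [degree_eq_natDegree (PP_monic l).ne_zero, PP_natDegree]

theorem PP_eval (l : List R) (x : R) : (PP l).eval x = (l.map fun a => x - a ^ 2).prod := by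
  induction l with
  | nil => simp [PP_nil]
  | cons a l ih => simp [PP_cons, ih]

theorem PP_eval_mem {l : List R} {a : R} (ha : a ∈ l) : (PP l).eval (a ^ 2) = 0 := by
  rw [PP_eval]
  apply List.prod_eq_zero
  rw [List.mem_map]
  exact ⟨a, ha, by simp⟩

variable [IsDomain R] [IsLocalRing R]

/-- Interpolation of the square root: if all `a + b` (`a, b` in the list) are units, there is a
polynomial `Q` of degree `< l.length` with `Q (a ^ 2) = a` on the list and `Q ^ 2 - X` divisible by
the product of the `X - a ^ 2` (the list may have repetitions). -/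
theorem intp (l : List R) (hl : ∀ a ∈ l, ∀ b ∈ l, IsUnit (a + b)) :
    ∃ Q S : R[X], Q.degree < l.length ∧ (∀ a ∈ l, Q.eval (a ^ 2) = a) ∧ Q ^ 2 - X = PP l * S := by
  induction l with
  | nil => exact ⟨0, -X, by simp, by simp, by simp [PP_nil]⟩
  | cons ν l ih =>
    obtain ⟨Q, S, hQd, hQe, hQS⟩ := ih fun a ha b hb =>
      hl a (List.mem_cons_of_mem _ ha) b (List.mem_cons_of_mem _ hb)
    have hνν : IsUnit (ν + ν) := hl ν List.mem_cons_self ν List.mem_cons_self
    have hkey : (PP l).eval (ν ^ 2) * S.eval (ν ^ 2) = Q.eval (ν ^ 2) ^ 2 - ν ^ 2 := by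
      have h := congrArg (Polynomial.eval (ν ^ 2)) hQS
      simp only [eval_sub, eval_pow, eval_X, eval_mul] at h
      rw [← h]
    -- it is enough to find the constant `c`
    suffices H : ∃ c : R, Q.eval (ν ^ 2) + c * (PP l).eval (ν ^ 2) = ν ∧
        S.eval (ν ^ 2) + 2 * c * Q.eval (ν ^ 2) + c ^ 2 * (PP l).eval (ν ^ 2) = 0 by
      obtain ⟨c, hc1, hc2⟩ := H
      obtain ⟨T, hT⟩ : (X - C (ν ^ 2)) ∣ (S + 2 * C c * Q + C c ^ 2 * PP l) := by
        rw [dvd_iff_isRoot, IsRoot.def]
        simp only [eval_add, eval_mul, eval_C, eval_pow, eval_ofNat]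
        exact hc2
      refine ⟨Q + C c * PP l, T, ?_, ?_, ?_⟩
      · rw [List.length_cons]
        refine (degree_add_le _ _).trans_lt (max_lt ?_ ?_)
        · exact hQd.trans (by exact_mod_cast Nat.lt_succ_self _)
        · refine (degree_mul_le _ _).trans_lt ?_
          rw [PP_degree]
          calc (C c).degree + (l.length : WithBot ℕ) ≤ 0 + (l.length : WithBot ℕ) := by
                gcongr
                exact degree_C_le
            _ = (l.length : WithBot ℕ) := zero_add _
            _ < ((l.length + 1 : ℕ) : WithBot ℕ) := by exact_mod_cast Nat.lt_succ_self _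
      · intro a ha
        rcases List.mem_cons.1 ha with rfl | ha
        · simp only [eval_add, eval_mul, eval_C]
          exact hc1
        · simp only [eval_add, eval_mul, eval_C]
          rw [hQe a ha, PP_eval_mem ha]
          ring
      · rw [PP_cons]
        calc (Q + C c * PP l) ^ 2 - X = (Q ^ 2 - X) + PP l * (2 * C c * Q + C c ^ 2 * PP l) := by
              ring
          _ = PP l * (S + 2 * C c * Q + C c ^ 2 * PP l) := by
              rw [hQS]
              ring
          _ = (X - C (ν ^ 2)) * PP l * T := by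
              rw [hT]
              ring
    by_cases hu : IsUnit (ν + Q.eval (ν ^ 2))
    · obtain ⟨u, hu⟩ := hu
      have huu : (↑u⁻¹ : R) * (ν + Q.eval (ν ^ 2)) = 1 := by
        rw [← hu]
        exact Units.inv_mul u
      refine ⟨-(↑u⁻¹ * S.eval (ν ^ 2)), ?_, ?_⟩
      · linear_combination -(↑u⁻¹ : R) * hkey + (ν - Q.eval (ν ^ 2)) * huu
      · set v : R := ↑u⁻¹ with hv
        set q := Q.eval (ν ^ 2) with hq
        set s := S.eval (ν ^ 2) with hs
        set p := (PP l).eval (ν ^ 2) with hp
        linear_combination v ^ 2 * s * hkey - s * (1 + v * (ν - q)) * huu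
    · -- then `PP l` is a unit at `ν ^ 2`
      have hPu : IsUnit ((PP l).eval (ν ^ 2)) := by
        by_contra hn
        apply hu
        -- some factor is not a unit
        have h1 : ∃ a ∈ l, ¬ IsUnit (ν ^ 2 - a ^ 2) := by
          by_contra hcon
          push Not at hcon
          apply hn
          rw [PP_eval]
          have : ∀ l' : List R, (∀ a ∈ l', IsUnit (ν ^ 2 - a ^ 2)) →
              IsUnit ((l'.map fun a => ν ^ 2 - a ^ 2).prod) := by
            intro l' hl'
            induction l' with
            | nil => simp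
            | cons a l' ih =>
              rw [List.map_cons, List.prod_cons]
              exact (hl' a List.mem_cons_self).mul
                (ih fun b hb => hl' b (List.mem_cons_of_mem _ hb))
          exact this l hcon
        obtain ⟨a, ha, hna⟩ := h1
        have h2 : ¬ IsUnit (ν - a) := by
          intro h
          apply hna
          have h3 : ν ^ 2 - a ^ 2 = (ν + a) * (ν - a) := by ring
          rw [h3]
          exact (hl ν List.mem_cons_self a (List.mem_cons_of_mem _ ha)).mul h
        have h4 : (ν ^ 2 - a ^ 2) ∣ (Q.eval (ν ^ 2) - Q.eval (a ^ 2)) := sub_dvd_eval_sub _ _ _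
        rw [hQe a ha] at h4
        have h5 : Q.eval (ν ^ 2) - a ∈ IsLocalRing.maximalIdeal R := by
          obtain ⟨d, hd⟩ := h4
          rw [hd]
          exact Ideal.mul_mem_right _ _ ((IsLocalRing.mem_maximalIdeal _).2 hna)
        have h6 : ν - a ∈ IsLocalRing.maximalIdeal R := (IsLocalRing.mem_maximalIdeal _).2 h2
        by_contra hcon
        have h7 : ν + Q.eval (ν ^ 2) ∈ IsLocalRing.maximalIdeal R :=
          (IsLocalRing.mem_maximalIdeal _).2 hcon
        have h8 : ν + ν ∈ IsLocalRing.maximalIdeal R := by
          have h9 : ν + ν = (ν + Q.eval (ν ^ 2)) - (Q.eval (ν ^ 2) - a) + (ν - a) := by ring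
          rw [h9]
          exact Ideal.add_mem _ (Ideal.sub_mem _ h7 h5) h6
        exact (IsLocalRing.mem_maximalIdeal _).1 h8 hνν
      obtain ⟨u, hu'⟩ := hPu
      have huu : (↑u⁻¹ : R) * (PP l).eval (ν ^ 2) = 1 := by
        rw [← hu']
        exact Units.inv_mul u
      refine ⟨(ν - Q.eval (ν ^ 2)) * ↑u⁻¹, ?_, ?_⟩
      · linear_combination (ν - Q.eval (ν ^ 2)) * huu
      · have hne : (PP l).eval (ν ^ 2) ≠ 0 := by
          rw [← hu']
          exact u.ne_zero
        apply mul_left_cancel₀ hne
        rw [mul_zero]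
        set v : R := ↑u⁻¹ with hv
        set q := Q.eval (ν ^ 2) with hq
        set s := S.eval (ν ^ 2) with hs
        set p := (PP l).eval (ν ^ 2) with hp
        linear_combination hkey + (2 * (ν - q) * q + (ν - q) ^ 2 * (v * p + 1)) * huu

end intp

section uniq

variable {F : Type*} [Field F]

/-- Uniqueness of the interpolating square root. -/
theorem uniq (l : List F) (Q Q' S S' : F[X]) (hd : Q.degree < l.length) (hd' : Q'.degree < l.length)
    (h : Q ^ 2 - X = PP l * S) (h' : Q' ^ 2 - X = PP l * S')
    (hs : ∀ a ∈ l, Q.eval (a ^ 2) + Q'.eval (a ^ 2) ≠ 0) : Q = Q' := by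
  have h1 : PP l ∣ (Q - Q') * (Q + Q') := ⟨S - S', by linear_combination h - h'⟩
  have h2 : IsCoprime (PP l) (Q + Q') := by
    clear h h' hd hd' h1
    induction l with
    | nil => simpa [PP_nil] using isCoprime_one_left
    | cons a l ih =>
      rw [PP_cons]
      refine IsCoprime.mul_left ?_ (ih fun b hb => hs b (List.mem_cons_of_mem _ hb))
      rw [(irreducible_X_sub_C (a ^ 2)).coprime_iff_not_dvd, dvd_iff_isRoot, IsRoot.def, eval_add]
      exact hs a List.mem_cons_self
  have h3 : PP l ∣ Q - Q' := h2.dvd_of_dvd_mul_right h1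
  by_contra hne
  have h4 : Q - Q' ≠ 0 := sub_ne_zero.2 hne
  have h5 := degree_le_of_dvd h3 h4
  rw [PP_degree] at h5
  exact absurd ((degree_sub_le _ _).trans_lt (max_lt hd hd')) (not_lt.2 h5)

end uniq

end Pool.Agent.HPY.HL
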