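import Pool.Agent.HPY.ORD

/-! Project HPY (MP_862048_al), row PRC: a primitive polynomial is a unit at almost all rational
numbers -/

set_option autoImplicit false

namespace Pool.Agent.HPY

open Filter

section prc

variable {K : Type} [Field K] {O : ValuationSubring K}

theorem rat_mem (h : HP K O) (d : ℚ) : (d : K) ∈ O := by
  rw [Rat.cast_def, div_eq_mul_inv]
  exact mul_mem (intCast_mem O _) (h.rat _ d.den_ne_zero)

theorem rat_ne_zero (h : HP K O) {d : ℚ} (hd : d ≠ 0) : (d : K) ≠ 0 := by
  rw [Rat.cast_def, div_eq_mul_inv]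
  have h1 : ((d.num.natAbs : ℕ) : K) ≠ 0 :=
    h.char _ (by simpa using hd)
  have h2 : (d.num : K) ≠ 0 := by
    intro h3
    apply h1
    rcases Int.natAbs_eq d.num with h4 | h4
    · rw [h4, Int.cast_natCast] at h3
      exact h3
    · rw [h4, Int.cast_neg, Int.cast_natCast, neg_eq_zero] at h3
      exact h3
  exact mul_ne_zero h2 (inv_ne_zero (h.char _ d.den_ne_zero))

theorem residue_eq_zero {a : O} : IsLocalRing.residue O a = 0 ↔ (a : K) ∈ MM O := by
  rw [IsLocalRing.residue_eq_zero_iff, IsLocalRing.mem_maximalIdeal, mem_nonunits_iff]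
  constructor
  · intro h
    by_contra h1
    obtain ⟨h2, h3⟩ := inv_mem_of_not_MM O h1
    apply h
    refine isUnit_iff_exists_inv.2 ⟨⟨(a : K)⁻¹, h3⟩, ?_⟩
    apply Subtype.ext
    change (a : K) * (a : K)⁻¹ = 1
    exact mul_inv_cancel₀ h2
  · intro h h1
    obtain ⟨b, hb⟩ := isUnit_iff_exists_inv.1 h1
    have hb' : (a : K) * (b : K) = 1 := congrArg Subtype.val hb
    rcases h with h | h
    · rw [h, zero_mul] at hb'
      exact zero_ne_one hb'
    · apply h
      rw [inv_eq_of_mul_eq_one_right hb']
      exact b.2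

theorem exists_lift {p : Polynomial K} (hp : OP O p) :
    ∃ q : Polynomial O, q.map (algebraMap O K) = p := by
  have : p ∈ Polynomial.lifts (algebraMap O K) :=
    (Polynomial.lifts_iff_coeff_lifts p).2 (fun i => ⟨⟨p.coeff i, hp i⟩, rfl⟩)
  exact (Polynomial.mem_lifts p).1 this

/-- PRC -/
theorem prim_eval (h : HP K O) {p : Polynomial K} (hp : Prim O p) :
    ∀ᶠ d : ℚ in cofinite, p.eval (d : K) ∉ MM O := by
  obtain ⟨hp1, i, hi⟩ := hp
  obtain ⟨q, hq⟩ := exists_lift hp1
  have hq0 : q.map (IsLocalRing.residue O) ≠ 0 := by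
    intro h0
    apply hi
    have h1 : (q.map (IsLocalRing.residue O)).coeff i = 0 := by rw [h0, Polynomial.coeff_zero]
    rw [Polynomial.coeff_map, residue_eq_zero] at h1
    rw [← hq, Polynomial.coeff_map]
    exact h1
  rw [Filter.eventually_cofinite]
  have hfin : {z : IsLocalRing.ResidueField O |
      z ∈ (q.map (IsLocalRing.residue O)).roots}.Finite := by
    classical
    refine (Multiset.toFinset (q.map (IsLocalRing.residue O)).roots).finite_toSet.subset ?_
    intro z hz
    exact Finset.mem_coe.2 (Multiset.mem_toFinset.2 hz)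
  refine (hfin.preimage (f := fun d : ℚ => IsLocalRing.residue O ⟨(d : K), rat_mem h d⟩)
    ?_).subset ?_
  · intro d _ d' _ hdd
    by_contra hne
    have h1 : IsLocalRing.residue O (⟨(d : K), rat_mem h d⟩ - ⟨(d' : K), rat_mem h d'⟩) = 0 := by
      rw [map_sub, sub_eq_zero]
      exact hdd
    rw [residue_eq_zero] at h1
    have h2 : (d : K) - (d' : K) ∈ MM O := h1
    have hc : ((d - d' : ℚ) : K) = (d : K) - (d' : K) := by
      have : CharZero K := charZero_of_inj_zero (fun n hn => by
        by_contra hn0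
        exact h.char n hn0 hn)
      push_cast
      ring
    rw [← hc] at h2
    rcases h2 with h2 | h2
    · exact rat_ne_zero h (sub_ne_zero.2 hne) h2
    · apply h2
      have : CharZero K := charZero_of_inj_zero (fun n hn => by
        by_contra hn0
        exact h.char n hn0 hn)
      rw [← Rat.cast_inv]
      exact rat_mem h _
  · intro d hd
    simp only [Set.mem_ofPred_eq, not_not] at hd
    change IsLocalRing.residue O ⟨(d : K), rat_mem h d⟩ ∈ (q.map (IsLocalRing.residue O)).roots
    rw [Polynomial.mem_roots hq0, Polynomial.IsRoot.def, Polynomial.eval_map]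
    have h4 := Polynomial.hom_eval₂ q (RingHom.id O) (IsLocalRing.residue O) ⟨(d : K), rat_mem h d⟩
    rw [RingHom.comp_id] at h4
    rw [← h4, residue_eq_zero]
    have h3 : ((Polynomial.eval₂ (RingHom.id O) ⟨(d : K), rat_mem h d⟩ q : O) : K) =
        p.eval (d : K) := by
      rw [← hq, Polynomial.eval_map]
      have := Polynomial.hom_eval₂ q (RingHom.id O) (algebraMap O K) ⟨(d : K), rat_mem h d⟩
      rw [RingHom.comp_id] at this
      exact this
    rw [h3]
    exact hd

end prc

end Pool.Agent.HPY
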