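import Pool.Agent.HPY.Defs

/-! Project HPY, row TRD: two elements of a function field in one variable are algebraically
dependent. -/

set_option autoImplicit false

namespace Pool.Agent.HPY

variable {K F : Type} [Field K] [Field F] [Algebra K F]

/-- every element of `F` is algebraic over the subalgebra generated by a transcendental element -/
theorem trd_alg (hF : FF1 K F) {y : F} (hy : Transcendental K y) (x : F) :
    IsAlgebraic (Algebra.adjoin K {y}) x := by
  obtain ⟨g, hg, hfin⟩ := hF
  have halg : Algebra.IsAlgebraic (Algebra.adjoin K {g}) F := by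
    constructor
    intro z
    exact IntermediateField.isAlgebraic_adjoin_iff.1 (Algebra.IsAlgebraic.isAlgebraic z)
  have h1 : Algebra.trdeg K F ≤ 1 := by
    have h2 := Algebra.IsAlgebraic.trdeg_le_cardinalMk K ({g} : Set F)
    rw [Cardinal.mk_singleton] at h2
    exact h2
  have h3 : AlgebraicIndependent K (fun _ : Unit => y) :=
    algebraicIndependent_unique_type_iff.2 hy
  have h4 : IsTranscendenceBasis K (fun _ : Unit => y) :=
    h3.isTranscendenceBasis_of_trdeg_le_of_finite (by simpa using h1)
  have h5 := h4.isAlgebraic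
  rw [Set.range_const] at h5
  exact h5.isAlgebraic x

/-- TRD -/
theorem tr_dep (hF : FF1 K F) (x y : F) : ∃ P : Polynomial (Polynomial K), P ≠ 0 ∧
    Polynomial.eval₂ ((Polynomial.aeval y : Polynomial K →ₐ[K] F) : Polynomial K →+* F) x P = 0 := by
  by_cases hy : Transcendental K y
  · obtain ⟨q, hq, hqx⟩ := trd_alg hF hy x
    let f : Polynomial K →ₐ[K] Algebra.adjoin K {y} :=
      Polynomial.aeval (⟨y, Algebra.self_mem_adjoin_singleton K y⟩ : Algebra.adjoin K {y})
    have hfv : ∀ p : Polynomial K, ((f p : Algebra.adjoin K {y}) : F) = Polynomial.aeval y p := by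
      intro p
      have h1 := Polynomial.aeval_algHom_apply (Algebra.adjoin K {y}).val
        (⟨y, Algebra.self_mem_adjoin_singleton K y⟩ : Algebra.adjoin K {y}) p
      exact h1.symm
    have hsurj : Function.Surjective (f : Polynomial K →+* Algebra.adjoin K {y}) := by
      intro z
      have hz : (z : F) ∈ (Polynomial.aeval y : Polynomial K →ₐ[K] F).range := by
        rw [← Algebra.adjoin_singleton_eq_range_aeval]
        exact z.2
      obtain ⟨p, hp⟩ := hz
      refine ⟨p, Subtype.ext ?_⟩
      exact (hfv p).trans hp
    obtain ⟨P, hP⟩ := Polynomial.map_surjective _ hsurj q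
    refine ⟨P, ?_, ?_⟩
    · rintro rfl
      rw [Polynomial.map_zero] at hP
      exact hq hP.symm
    · have h2 : ((Polynomial.aeval y : Polynomial K →ₐ[K] F) : Polynomial K →+* F) =
          (algebraMap (Algebra.adjoin K {y}) F).comp (f : Polynomial K →+* Algebra.adjoin K {y}) := by
        apply RingHom.ext
        intro p
        exact (hfv p).symm
      rw [h2, ← Polynomial.eval₂_map, hP]
      exact hqx
  · rw [Transcendental, not_not] at hy
    obtain ⟨p, hp, hpy⟩ := hy
    refine ⟨Polynomial.C p, Polynomial.C_ne_zero.2 hp, ?_⟩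
    rw [Polynomial.eval₂_C]
    exact hpy

end Pool.Agent.HPY
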