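import Pool.Agent.HPY.Defs
import Pool.Agent.HPY.TRD
import Pool.Agent.HPY.PRC

/-! Project HPY, row PRM. -/

set_option autoImplicit false

namespace Pool.Agent.HPY

open Filter

variable {K F : Type} [Field K] [Field F] [Algebra K F] {O : ValuationSubring K}

/-- `ℚ` is contained in `O` -/
theorem prm_rat_mem (h : HP K O) (c : ℚ) : (c : K) ∈ O := by
  rw [Rat.cast_def, div_eq_mul_inv]
  exact O.mul_mem _ _ (intCast_mem O _) (h.rat _ c.den_nz)

/-- a finite family of elements, not all `0`, has an element which divides all of them -/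
theorem prm_max {ι : Type} (s : Finset ι) (f : ι → K) (hs : ∃ i ∈ s, f i ≠ 0) :
    ∃ i ∈ s, f i ≠ 0 ∧ ∀ j ∈ s, (f i)⁻¹ * f j ∈ O := by
  classical
  induction s using Finset.induction_on with
  | empty =>
    obtain ⟨i, hi, -⟩ := hs
    exact absurd hi (Finset.notMem_empty i)
  | insert a s ha ih =>
    by_cases hs' : ∃ i ∈ s, f i ≠ 0
    · obtain ⟨i, his, hi0, hi⟩ := ih hs'
      rcases O.mem_or_inv_mem ((f i)⁻¹ * f a) with h1 | h1
      · refine ⟨i, Finset.mem_insert_of_mem his, hi0, ?_⟩
        intro j hj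
        rcases Finset.mem_insert.1 hj with rfl | hj
        · exact h1
        · exact hi j hj
      · by_cases ha0 : f a = 0
        · refine ⟨i, Finset.mem_insert_of_mem his, hi0, ?_⟩
          intro j hj
          rcases Finset.mem_insert.1 hj with rfl | hj
          · rw [ha0, mul_zero]
            exact O.zero_mem
          · exact hi j hj
        · refine ⟨a, Finset.mem_insert_self a s, ha0, ?_⟩
          intro j hj
          rcases Finset.mem_insert.1 hj with rfl | hj
          · rw [inv_mul_cancel₀ ha0]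
            exact O.one_mem
          · have h2 := O.mul_mem _ _ h1 (hi j hj)
            have h3 : ((f i)⁻¹ * f a)⁻¹ * ((f i)⁻¹ * f j) = (f a)⁻¹ * f j := by
              field_simp
            rw [h3] at h2
            exact h2
    · obtain ⟨i, hi, hi0⟩ := hs
      have hia : i = a := by
        rcases Finset.mem_insert.1 hi with h1 | h1
        · exact h1
        · exact absurd ⟨i, h1, hi0⟩ hs'
      subst hia
      refine ⟨i, Finset.mem_insert_self i s, hi0, ?_⟩
      intro j hj
      rcases Finset.mem_insert.1 hj with rfl | hj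
      · rw [inv_mul_cancel₀ hi0]
        exact O.one_mem
      · have h4 : f j = 0 := by
          by_contra h5
          exact hs' ⟨j, hj, h5⟩
        rw [h4, mul_zero]
        exact O.zero_mem

/-- a nonzero polynomial in two variables can be normalised -/
theorem prm_norm {P : Polynomial (Polynomial K)} (hP : P ≠ 0) : ∃ a : K, a ≠ 0 ∧
    (∀ i j, a * (P.coeff i).coeff j ∈ O) ∧ ∃ i, ∃ j, a * (P.coeff i).coeff j = 1 := by
  classical
  let S : Finset (ℕ × ℕ) := P.support.biUnion fun i => ((P.coeff i).support.image fun j => (i, j))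
  have hS : ∀ i j, (P.coeff i).coeff j ≠ 0 → (i, j) ∈ S := by
    intro i j hij
    refine Finset.mem_biUnion.2 ⟨i, ?_, Finset.mem_image.2 ⟨j, ?_, rfl⟩⟩
    · rw [Polynomial.mem_support_iff]
      intro h1
      rw [h1, Polynomial.coeff_zero] at hij
      exact hij rfl
    · rw [Polynomial.mem_support_iff]
      exact hij
  have hne : ∃ ij ∈ S, (fun ij : ℕ × ℕ => (P.coeff ij.1).coeff ij.2) ij ≠ 0 := by
    obtain ⟨i, hi⟩ : ∃ i, P.coeff i ≠ 0 := by
      by_contra h1
      push Not at h1
      exact hP (Polynomial.ext h1)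
    obtain ⟨j, hj⟩ : ∃ j, (P.coeff i).coeff j ≠ 0 := by
      by_contra h1
      push Not at h1
      exact hi (Polynomial.ext h1)
    exact ⟨(i, j), hS i j hj, hj⟩
  obtain ⟨⟨i0, j0⟩, hmem, hne0, hall⟩ := prm_max (O := O) S _ hne
  refine ⟨((P.coeff i0).coeff j0)⁻¹, inv_ne_zero hne0, ?_, i0, j0, inv_mul_cancel₀ hne0⟩
  intro i j
  by_cases hij : (P.coeff i).coeff j = 0
  · rw [hij, mul_zero]
    exact O.zero_mem
  · exact hall (i, j) (hS i j hij)

theorem prm_eval_mem {q : Polynomial K} (hq : OP O q) {c : K} (hc : c ∈ O) : q.eval c ∈ O := by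
  rw [Polynomial.eval_eq_sum_range]
  exact sum_mem fun i _ => O.mul_mem _ _ (hq i) (pow_mem hc i)

/-- PRM -/
theorem prim2 (h : HP K O) (hF : FF1 K F) (x y : F) : ∃ P : Polynomial (Polynomial K),
    (∀ i j, (P.coeff i).coeff j ∈ O) ∧
    Polynomial.eval₂ ((Polynomial.aeval y : Polynomial K →ₐ[K] F) : Polynomial K →+* F) x P = 0 ∧
    ∀ᶠ c : ℚ in cofinite, Prim O (P.map (Polynomial.evalRingHom (c : K))) := by
  obtain ⟨P, hP, hPx⟩ := tr_dep hF x y
  obtain ⟨a, ha, hall, i, j, hij⟩ := prm_norm (O := O) hP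
  have hco : ∀ i j, ((Polynomial.C (Polynomial.C a) * P).coeff i).coeff j =
      a * (P.coeff i).coeff j := by
    intro i j
    rw [Polynomial.coeff_C_mul, Polynomial.coeff_C_mul]
  have hO : ∀ i j, ((Polynomial.C (Polynomial.C a) * P).coeff i).coeff j ∈ O := by
    intro i j
    rw [hco]
    exact hall i j
  refine ⟨Polynomial.C (Polynomial.C a) * P, hO, ?_, ?_⟩
  · rw [Polynomial.eval₂_mul, hPx, mul_zero]
  · have hprim : Prim O ((Polynomial.C (Polynomial.C a) * P).coeff i) := by
      refine ⟨hO i, j, ?_⟩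
      rw [hco, hij]
      rintro (h1 | h1)
      · exact one_ne_zero h1
      · exact h1 (by rw [inv_one]; exact O.one_mem)
    filter_upwards [prim_eval h hprim] with c hc
    refine ⟨?_, i, ?_⟩
    · intro k
      rw [Polynomial.coeff_map, Polynomial.coe_evalRingHom]
      exact prm_eval_mem (hO k) (prm_rat_mem h c)
    · rw [Polynomial.coeff_map, Polynomial.coe_evalRingHom]
      exact hc

end Pool.Agent.HPY
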